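import Pool.Agent.H664.FH.Base

/-! Project FH (helper664): logarithms, Borel–Carathéodory and limits. -/

set_option autoImplicit false

namespace Pool.Agent.H664.FH

open Filter Topology Metric

/-- holomorphic logarithm on a convex open set -/
theorem log_conv {V : Type} [NormedAddCommGroup V] [NormedSpace ℂ V] [FiniteDimensional ℂ V]
    {U : Set V} (hU : IsOpen U) (hconv : Convex ℝ U) {c : V} (hc : c ∈ U) {f : V → ℂ}
    (hf : DifferentiableOn ℂ f U) (hf0 : ∀ u ∈ U, f u ≠ 0) :
    ∃ h : V → ℂ, DifferentiableOn ℂ h U ∧ (∀ u ∈ U, Complex.exp (h u) = f u) ∧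
      h c = Complex.log (f c) := by
  have hsc : IsSimplyConnected U := by
    have : ContractibleSpace U := hconv.contractibleSpace ⟨c, hc⟩
    show SimplyConnectedSpace U
    infer_instance
  obtain ⟨L, hL, hE⟩ := Complex.exists_continuousOn_eqOn_exp_comp hsc hU
    hf.continuousOn (by
      rintro ⟨z, hz, hz0⟩
      exact hf0 z hz hz0)
  have hE' : ∀ v ∈ U, Complex.exp (L v) = f v := fun v hv => hE hv
  have hLd : DifferentiableOn ℂ L U := by
    intro u hu
    have hu' : U ∈ 𝓝 u := hU.mem_nhds hu
    have hLc : ContinuousAt L u := hL.continuousAt hu'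
    have hfd : DifferentiableAt ℂ f u := hf.differentiableAt hu'
    have hfu := hf0 u hu
    have hev : ∀ᶠ v in 𝓝 u, L v = L u + Complex.log (f v / f u) := by
      have h1 : ∀ᶠ v in 𝓝 u, ‖L v - L u‖ < 1 := by
        have : Tendsto (fun v => ‖L v - L u‖) (𝓝 u) (𝓝 0) := by
          have h := (hLc.tendsto.sub_const (L u)).norm
          simpa using h
        exact this.eventually (gt_mem_nhds one_pos)
      filter_upwards [h1, hu'] with v hv hvb
      have e : f v / f u = Complex.exp (L v - L u) := by
        rw [Complex.exp_sub, hE' v hvb, hE' u hu]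
      have him : |(L v - L u).im| < 1 := (Complex.abs_im_le_norm _).trans_lt hv
      rw [abs_lt] at him
      rw [e, Complex.log_exp (by linarith [him.1, Real.pi_gt_three])
        (by linarith [him.2, Real.pi_gt_three])]
      ring
    have hd : DifferentiableAt ℂ (fun v => L u + Complex.log (f v / f u)) u := by
      refine (differentiableAt_const _).add ?_
      have hfq : DifferentiableAt ℂ (fun v => f v / f u) u := by
        simp only [div_eq_mul_inv]
        exact hfd.mul_const _
      refine hfq.clog ?_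
      rw [div_self hfu]
      exact Complex.one_mem_slitPlane
    exact (hd.congr_of_eventuallyEq hev).differentiableWithinAt
  refine ⟨fun u => L u - L c + Complex.log (f c), ?_, ?_, ?_⟩
  · exact (hLd.sub_const _).add_const _
  · intro u hu
    have hfc := hf0 c hc
    rw [Complex.exp_add, Complex.exp_sub, hE' u hu, hE' c hc, Complex.exp_log hfc]
    field_simp
  · ring

/-- Borel–Carathéodory on a ball of a normed space -/
theorem bc_ball {V : Type} [NormedAddCommGroup V] [NormedSpace ℂ V] {c : V} {ρ B : ℝ} {h : V → ℂ}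
    (hB : 0 ≤ B) (hd : DifferentiableOn ℂ h (ball c ρ))
    (hre : ∀ u ∈ ball c ρ, |(h u).re| ≤ B) (him : |(h c).im| ≤ Real.pi) :
    ∀ u ∈ ball c (ρ / 2), ‖h u‖ ≤ 6 * B + 10 := by
  intro u hu
  have hρ : 0 < ρ := by
    have := pos_of_mem_ball hu
    linarith
  have hcb : c ∈ ball c ρ := mem_ball_self hρ
  have hc : ‖h c‖ ≤ B + Real.pi := by
    calc ‖h c‖ ≤ |(h c).re| + |(h c).im| := Complex.norm_le_abs_re_add_abs_im _
      _ ≤ B + Real.pi := add_le_add (hre c hcb) him
  have hπ := Real.pi_lt_d2
  set g : ℂ → ℂ := fun t => h (c + t • (u - c)) with hg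
  have hu' : ‖u - c‖ < ρ / 2 := by rwa [mem_ball, dist_eq_norm] at hu
  have hmap : ∀ t ∈ ball (0 : ℂ) 2, c + t • (u - c) ∈ ball c ρ := by
    intro t ht
    rw [mem_ball_zero_iff] at ht
    rw [mem_ball, dist_eq_norm, add_sub_cancel_left, norm_smul]
    have := norm_nonneg (u - c)
    have := norm_nonneg t
    nlinarith
  have hgd : DifferentiableOn ℂ g (ball 0 2) := by
    refine hd.comp (t := ball c ρ) ?_ hmap
    exact ((differentiable_id.smul_const (u - c)).const_add c).differentiableOn
  have hgre : Set.MapsTo g (ball 0 2) {z | z.re ≤ B + 1 / 10} := by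
    intro t ht
    have := le_of_abs_le (hre _ (hmap t ht))
    show (h (c + t • (u - c))).re ≤ B + 1 / 10
    linarith
  have h1 : (1 : ℂ) ∈ ball (0 : ℂ) 2 := by
    rw [mem_ball_zero_iff, norm_one]
    norm_num
  have key := Complex.borelCaratheodory (by linarith : (0 : ℝ) < B + 1 / 10) hgd hgre two_pos h1
  have e1 : g 1 = h u := by
    show h (c + (1 : ℂ) • (u - c)) = h u
    rw [one_smul, add_sub_cancel]
  have e0 : g 0 = h c := by
    show h (c + (0 : ℂ) • (u - c)) = h c
    rw [zero_smul, add_zero]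
  rw [e1, e0, norm_one] at key
  norm_num at key
  nlinarith

/-- a bounded holomorphic function on a disc is Lipschitz on the half disc -/
theorem lip_disc {f : ℂ → ℂ} {c : ℂ} {r C : ℝ} (hf : DifferentiableOn ℂ f (ball c r))
    (hb : ∀ z ∈ ball c r, ‖f z‖ ≤ C) {z z' : ℂ} (hz : z ∈ ball c (r / 2))
    (hz' : z' ∈ ball c r) (hzz : ‖z' - z‖ < r / 2) : ‖f z' - f z‖ ≤ 4 * C / r * ‖z' - z‖ := by
  have hr : 0 < r := by
    have := pos_of_mem_ball hz
    linarith
  have hsub : ball z (r / 2) ⊆ ball c r := by
    intro w hw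
    rw [mem_ball] at hw hz ⊢
    linarith [dist_triangle w z c]
  have hmaps : Set.MapsTo f (ball z (r / 2)) (closedBall (f z) (2 * C)) := by
    intro w hw
    rw [mem_closedBall, dist_eq_norm]
    have h1 := hb w (hsub hw)
    have h2 := hb z (hsub (mem_ball_self (by positivity)))
    linarith [norm_sub_le (f w) (f z)]
  have key := Complex.dist_le_div_mul_dist_of_mapsTo_ball (hf.mono hsub) hmaps
    (show z' ∈ ball z (r / 2) by rwa [mem_ball, dist_eq_norm])
  rw [dist_eq_norm, dist_eq_norm] at key
  refine key.trans (le_of_eq ?_)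
  field_simp
  ring

/-- pointwise limits of uniformly bounded holomorphic functions on a disc -/
theorem mon {U : Filter ℕ} [U.NeBot] {f : ℕ → ℂ → ℂ} {g : ℂ → ℂ} {c : ℂ} {r C : ℝ}
    (hf : ∀ᶠ j in U, DifferentiableOn ℂ (f j) (ball c r) ∧ ∀ z ∈ ball c r, ‖f j z‖ ≤ C)
    (hg : ∀ z ∈ ball c r, Tendsto (fun j => f j z) U (𝓝 (g z))) :
    TendstoLocallyUniformlyOn f g U (ball c r) ∧ DifferentiableOn ℂ g (ball c r) := by
  have hgb : ∀ z ∈ ball c r, ‖g z‖ ≤ C := by
    intro z hz
    exact le_of_tendsto (hg z hz).norm (hf.mono fun j hj => hj.2 z hz)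
  have h1 : TendstoLocallyUniformlyOn f g U (ball c r) := by
    rw [Metric.tendstoLocallyUniformlyOn_iff]
    intro ε hε x hx
    obtain ⟨s, hs, hball⟩ := Metric.isOpen_iff.1 isOpen_ball x hx
    -- Lipschitz constant
    set Lc : ℝ := 4 * |C| / s with hLc
    have hLc0 : 0 ≤ Lc := by positivity
    set t : ℝ := min (s / 2) (ε / (3 * (Lc + 1))) with ht
    have ht0 : 0 < t := lt_min (by positivity) (by positivity)
    have htl : Lc * t < ε / 3 := by
      have h2 : t ≤ ε / (3 * (Lc + 1)) := min_le_right _ _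
      calc Lc * t ≤ Lc * (ε / (3 * (Lc + 1))) := mul_le_mul_of_nonneg_left h2 hLc0
        _ < ε / 3 := by
          rw [mul_div_assoc', div_lt_div_iff₀ (by positivity) (by positivity)]
          nlinarith
    have hlipf : ∀ᶠ j in U, ∀ z ∈ ball x t, ‖f j z - f j x‖ ≤ Lc * t := by
      filter_upwards [hf] with j hj z hz
      have hz' : ‖z - x‖ < t := by rwa [mem_ball, dist_eq_norm] at hz
      have h2 := lip_disc (f := f j) (c := x) (r := s) (C := |C|) (hj.1.mono hball)
        (fun w hw => (hj.2 w (hball hw)).trans (le_abs_self C)) (z := x) (z' := z)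
        (mem_ball_self (by positivity)) (by
          rw [mem_ball, dist_eq_norm]
          exact lt_of_lt_of_le hz' ((min_le_left _ _).trans (by linarith)))
        (lt_of_lt_of_le hz' (min_le_left _ _))
      exact h2.trans (mul_le_mul_of_nonneg_left hz'.le hLc0)
    have hballt : ball x t ⊆ ball c r :=
      (ball_subset_ball ((min_le_left _ _).trans (by linarith))).trans hball
    have hlipg : ∀ z ∈ ball x t, ‖g z - g x‖ ≤ Lc * t := by
      intro z hz
      exact le_of_tendsto (((hg z (hballt hz)).sub (hg x hx)).norm)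
        (hlipf.mono fun j hj => hj z hz)
    have hpt : ∀ᶠ j in U, ‖f j x - g x‖ < ε / 3 := by
      have h2 := (tendsto_iff_norm_sub_tendsto_zero.1 (hg x hx)).eventually
        (gt_mem_nhds (show (0 : ℝ) < ε / 3 by positivity))
      exact h2
    refine ⟨ball x t, mem_nhdsWithin_of_mem_nhds (ball_mem_nhds x ht0), ?_⟩
    filter_upwards [hlipf, hpt] with j h2 h3 z hz
    rw [dist_eq_norm]
    have h4 := h2 z hz
    have h5 := hlipg z hz
    have e1 : g z - f j z = (g z - g x) - (f j z - f j x) - (f j x - g x) := by ring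
    rw [e1]
    have h6 := norm_sub_le ((g z - g x) - (f j z - f j x)) (f j x - g x)
    have h7 := norm_sub_le (g z - g x) (f j z - f j x)
    linarith
  exact ⟨h1, h1.differentiableOn (hf.mono fun j hj => hj.1) isOpen_ball⟩

end Pool.Agent.H664.FH
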