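import Pool.Agent.H664.FH.Stm

/-!
Project FH (helper664), second part: flat limits `f (l·x)` with arbitrary real `l`.
Statements (interfaces), with complete proofs in the docstrings.
-/

set_option autoImplicit false

namespace Pool.Agent.H664.FH

open MvPolynomial Filter Topology Metric Pool.Agent.W996.EC Pool.Agent.Q72.EG

/-- `α` vanishes outside of `J` and is `ℚ`-independent on `J` -/
def QJ {n : ℕ} (J : Finset (Fin n)) (α : Fin n → ℝ) : Prop :=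
  (∀ l, l ∉ J → α l = 0) ∧
  ∀ m : Fin n → ℤ, (∀ l, l ∉ J → m l = 0) → ∑ l, (m l : ℝ) * α l = 0 → m = 0

/-- JOB CURVEJ. Generalisation of `S_curve` (proved in Pool/Agent/H287/FH/Curve.lean) to forms with support `J`.
Proof: the same. Only the maximal multiplicatively independent subfamily is chosen inside of `J` (some `g_i`, `i ∈ J`, is not
constant), and `u = ∑_{l ∈ J} α_l log ‖R_l‖`. -/
def S_curveJ : Prop := ∀ (n : ℕ) (J : Finset (Fin n)) (α : Fin n → ℝ) (z0 : ℂ) (r : ℝ)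
  (g : ℂ → Fin n → ℂ), QJ J α → 0 < r →
  DifferentiableOn ℂ g (ball z0 r) → (∀ z ∈ ball z0 r, ∀ l, g z l ≠ 0) →
  (∃ i ∈ J, ∃ z ∈ ball z0 r, g z i ≠ g z0 i) →
  (∀ i l, ∃ f : MvPolynomial (Fin 2) ℂ, f ≠ 0 ∧ ∀ z ∈ ball z0 r, eval ![g z i, g z l] f = 0) →
  (¬ ∃ c : ℝ, ∀ z ∈ ball z0 r, ∑ l, α l * Real.log ‖g z l‖ = c) ∧
  ∀ Q₀ : MvPolynomial (Fin n) ℂ, (∃ z ∈ ball z0 r, eval (g z) Q₀ ≠ 0) → ∀ c : ℝ, ∃ p : Fin n → ℂ,
    (∀ Q : MvPolynomial (Fin n) ℂ, (∀ z ∈ ball z0 r, eval (g z) Q = 0) → eval p Q = 0) ∧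
    (∀ l, p l ≠ 0) ∧ eval p Q₀ ≠ 0 ∧ ∑ l, α l * Real.log ‖p l‖ = c

/-- JOB EXITJ. Generalisation of `S_exit` (proved in Pool/Agent/H297/FH/Exit.lean): only the coordinates in `J` are
controlled. New hypothesis: the set `G` is bounded over small discs around good `z` (fourth hypothesis).
Proof: as before with `W = {(p_l)_{l ∈ J} : ‖p_l/s_l - 1‖ ≤ ρ}`, `Φ(p) = ∑_{l ∈ J} α_l Log (p_l/s_l)`, and `Lev` the set of the numbers
`∑_{l ∈ J} α_l log ‖q_l‖` with `q_i` a root of `b` and `q_l` (`l ∈ J`) one of the finitely many limit values. For the sequence `p_m` of good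
points with `Φ(p_m) = i t_m`: `(p_m)_i` converges (subsequence) to some `z*`. If `b(z*) = 0`, the `J`-coordinates converge to such values `q_l`, and the level is
in `Lev`, contradiction; if `b(z*) ≠ 0` the sequence `p_m` is bounded by the new hypothesis, and a subsequence converges to a good `p* ∈ G`. -/
def S_exitJ : Prop := ∀ (n : ℕ) (J : Finset (Fin n)) (α : Fin n → ℝ) (i : Fin n)
  (G : Set (Fin n → ℂ)) (b : Polynomial ℂ), i ∈ J → QJ J α → IsClosed G → b ≠ 0 →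
  (∀ z : ℂ, b.eval z ≠ 0 → ∃ r C : ℝ, 0 < r ∧ ∀ p ∈ G, p i ∈ ball z r → ‖p‖ ≤ C) →
  (∀ k l, ∃ f : MvPolynomial (Fin 2) ℂ, f ≠ 0 ∧ ∀ p ∈ G, eval ![p k, p l] f = 0) →
  (∀ p ∈ G, b.eval (p i) ≠ 0 → (∀ l, p l ≠ 0) ∧ ∃ (r : ℝ) (g : ℂ → Fin n → ℂ), 0 < r ∧
    DifferentiableOn ℂ g (ball (p i) r) ∧ g (p i) = p ∧
    ∀ z ∈ ball (p i) r, g z ∈ G ∧ g z i = z ∧ b.eval z ≠ 0) →
  ∃ Lev : Set ℝ, Lev.Finite ∧ ∀ s ∈ G, b.eval (s i) ≠ 0 →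
    ∑ l, α l * Real.log ‖s l‖ ∉ Lev → ∀ ρ : ℝ, 0 < ρ → ρ < 1 / 2 →
    ∃ p ∈ G, b.eval (p i) ≠ 0 ∧ ∑ l, α l * Real.log ‖p l‖ = ∑ l, α l * Real.log ‖s l‖ ∧
      (∀ l ∈ J, ‖p l / s l - 1‖ ≤ ρ) ∧ ∃ l ∈ J, ‖p l / s l - 1‖ = ρ

/-- JOB COERJ. Generalisation of `S_coer` (proved in Pool/Agent/H539/FH/Coer.lean): only the coordinates in `J`. -/
def S_coerJ : Prop := ∀ (n : ℕ) (J : Finset (Fin n)) (α : Fin n → ℝ)
  (F : Fin n → Fin n → Finset (ℕ × ℕ)), QJ J α →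
  (∀ i l, (F i l).Nonempty) → ∃ C : ℝ, 0 ≤ C ∧ ∀ (B : ℝ) (c : Fin n → Fin n → ℕ × ℕ → ℂ)
    (p : Fin n → ℂ), 1 ≤ B → (∀ l ∈ J, p l ≠ 0) →
    (∀ i ∈ J, ∀ l ∈ J, ∀ e ∈ F i l, B⁻¹ ≤ ‖c i l e‖ ∧ ‖c i l e‖ ≤ B) →
    (∀ i ∈ J, ∀ l ∈ J, i ≠ l → ∑ e ∈ F i l, c i l e * p i ^ e.1 * p l ^ e.2 = 0) →
    ∀ l ∈ J, |Real.log ‖p l‖| ≤ C * (1 + Real.log B + |∑ l, α l * Real.log ‖p l‖|)

/-- JOB FSOLVEI. Generalisation of `S_fsolve` (proved in Pool/Agent/H190/FH/FSolve.lean): instead of `2 ≤ n` and `QI α` only an irrational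
quotient of two coordinates of `α` is needed (in the Kronecker step). -/
def S_fsolveI : Prop := ∀ (n : ℕ) (α e : Fin n → ℝ) (F : Filter ℕ) (zs : ℂ) (ε C0 : ℝ)
  (Λ A δ : ℕ → ℝ) (k : ℕ → Fin n → ℝ) (r : ℕ → ℂ) (w : ℕ → (Fin n → ℂ) → ℂ) (σ : ℕ → Fin n → ℂ)
  (L : ℕ → (Fin n → ℂ) → ℂ → Fin n → ℂ) (Li : ℂ → Fin n → ℂ), F.NeBot →
  (∃ a b, α a ≠ 0 ∧ Irrational (α b / α a)) →
  ∑ l, α l * e l = 1 → 0 < ε → Tendsto Λ F atTop → Tendsto (fun j => A j / Λ j) F (𝓝 0) →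
  Tendsto δ F (𝓝 0) →
  (∀ᶠ j in F, DifferentiableOn ℂ (w j) (ball 0 (Λ j)) ∧
    (∀ u ∈ ball (0 : Fin n → ℂ) (Λ j), ‖w j u + ∑ l, (α l : ℂ) * u l - r j‖ ≤ δ j) ∧
    ‖σ j‖ ≤ A j ∧ |(r j - ∑ l, (α l : ℂ) * σ j l).re| ≤ δ j ∧
    |(r j - ∑ l, (α l : ℂ) * σ j l).im| ≤ C0 ∧
    DifferentiableOn ℂ (fun v : (Fin n → ℂ) × ℂ => L j v.1 v.2) (ball 0 (Λ j) ×ˢ ball zs ε) ∧
    ∀ u ∈ ball (0 : Fin n → ℂ) (Λ j), ∀ z ∈ ball zs ε, ‖L j u z‖ ≤ C0) →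
  (∀ z ∈ ball zs ε, Tendsto (fun j => L j 0 z) F (𝓝 (Li z))) →
  ∑ l, α l * (Li zs l).re = 0 →
  (¬ ∀ z ∈ ball zs ε, ∑ l, (α l : ℂ) * Li z l = ∑ l, (α l : ℂ) * Li zs l) →
  ∀ᶠ j in F, ∃ (M : Fin n → ℤ) (u : Fin n → ℂ) (z : ℂ), u ∈ ball (0 : Fin n → ℂ) (Λ j) ∧
    z ∈ ball zs ε ∧
    ∀ l, cp (k j) e (w j) u l = σ j l + L j u z l + 2 * Real.pi * Complex.I * (M l : ℂ)

/-- as `HasFlat`, with balls of the radius `T^(1/4)` -/
def HasFlatB {n : ℕ} (P : MvPolynomial (Fin n) ℂ) (α : Fin n → ℝ) : Prop :=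
  ∃ (e : Fin n → ℝ) (B : ℝ), ∑ l, α l * e l = 1 ∧
    ∀ R : MvPolynomial (Fin n) ℂ, ¬ P ∣ R → ∃ D : ℝ, ∀ K : ℝ, ∃ T : ℝ, K ≤ T ∧ 2 ≤ T ∧
      ∃ (k : Fin n → ℝ) (r : ℂ) (w : (Fin n → ℂ) → ℂ), ‖r‖ ≤ B ∧
        DifferentiableOn ℂ w (ball 0 (T ^ (1 / 4 : ℝ))) ∧
        ∀ u ∈ ball (0 : Fin n → ℂ) (T ^ (1 / 4 : ℝ)),
          eval (cp k e w u) P = 0 ∧ K * ‖w u + ∑ l, (α l : ℂ) * u l - r‖ ≤ 1 ∧
          ‖cp k e w u‖ ≤ T ^ D ∧ T ^ (-D) ≤ ‖eval (cp k e w u) R‖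

/-- JOB CHARTB. The same as `S_chart` (proved in Pool/Agent/H788/FH/Chart.lean), with balls of radius `T^(1/4)`
(the proof of `S_chart` gives balls of radius `η √t`, `T = t`). Also derive `HasFlatB P α → HasFlat P α`. -/
def S_chartB : Prop := (∀ (n : ℕ) (P : MvPolynomial (Fin n) ℂ) (α : Fin n → ℝ) (f : Polynomial ℂ),
  Irreducible P → α ≠ 0 → 1 ≤ f.natDegree →
  (∃ D L : ℝ, ∀ t : ℝ, L ≤ t → ∃ (k : Fin n → ℝ) (c : ℂ), ‖k‖ ≤ t ^ D ∧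
    ∀ x : Fin n → ℂ, ‖x‖ ≤ t →
      ‖c * eval (fun i => x i + Complex.I * (k i : ℂ)) P - f.eval (∑ l, (α l : ℂ) * x l)‖ ≤ t⁻¹) →
  HasFlatB P α) ∧
  ∀ (n : ℕ) (P : MvPolynomial (Fin n) ℂ) (α : Fin n → ℝ), HasFlatB P α → HasFlat P α

/-- JOB NOEXP. There is no exponential in the function field of a hypersurface. `D g = P_e ∂_{l0} g - P_{l0} ∂_e g`,
where `P_e = ∂_e P = ∑ e_l ∂_l P`, `P_{l0} = ∂_{l0} P`, is the derivative in a direction tangential to `P = 0`; `D x_{i0} = - P_{l0}` (`e i0 = 1`, `l0 ≠ i0`).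
Proof. `P` divides neither `P_e` nor `P_{l0}` (smaller degree, not zero). Suppose `P ∣ b D a - a D b - k (D x_{i0}) a b`. Choose a point `x°`, `P(x°) = 0`,
with `a, b, P_e, P_{l0}` nonzero at `x°` (Nullstellensatz, `P` prime). Implicit function theorem in one variable: `w(τ)` near `0`, `P(x° + τ e_{l0} + w(τ) e) = 0`,
`w(0) = 0`; `X(τ) = x° + τ e_{l0} + w(τ) e`, `d/dτ g(X(τ)) = (D g / P_e)(X(τ))`. So `g = (a/b)(X(τ))` satisfies `g' = k X_{i0}' g`, `g = c exp(k X_{i0}(τ))`,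
`c ≠ 0`. `w` is algebraic over `ℂ(τ)` (`P(x° + τ e_{l0} + ω e)` is a nonzero polynomial in `(τ, ω)`), so `X_{i0}(τ)` and `g(τ)` are algebraic over `ℂ(τ)`, hence
algebraically dependent: `A(X_{i0}(τ), g(τ)) = 0`, `A ≠ 0` (transcendence degree of the field of fractions of the ring `ℂ[τ, w(τ)]` of germs). As `X_{i0}'(0) = -(P_{l0}/P_e)(x°) ≠ 0`,
`X_{i0}(τ)` takes all values `ζ` near `x°_{i0}`: `A(ζ, c e^{kζ}) = 0` for these, hence for all `ζ ∈ ℂ`. But `ζ` and `e^{kζ}` are algebraically independent (periodicity: replace `ζ` by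
`ζ + 2πi N`). -/
def S_noexp : Prop := ∀ (n : ℕ) (P a b : MvPolynomial (Fin n) ℂ) (i0 l0 : Fin n) (e : Fin n → ℝ)
  (k : ℤ), Irreducible P → e i0 = 1 → l0 ≠ i0 → pderiv l0 P ≠ 0 →
  ∑ l, C (e l : ℂ) * pderiv l P ≠ 0 → ¬ P ∣ a → ¬ P ∣ b → k ≠ 0 →
  ¬ P ∣ b * ((∑ l, C (e l : ℂ) * pderiv l P) * pderiv l0 a -
      pderiv l0 P * ∑ l, C (e l : ℂ) * pderiv l a) -
    a * ((∑ l, C (e l : ℂ) * pderiv l P) * pderiv l0 b -
      pderiv l0 P * ∑ l, C (e l : ℂ) * pderiv l b) +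
    C (k : ℂ) * pderiv l0 P * a * b

/-- JOB ZERO. Lower bounds for exponential polynomials on pieces of hypersurfaces (uses `S_noexp`).
Proof by induction on `#F`; more precisely prove the statement with `ball 0 1` replaced by `ball 0 ρ` for every `0 < ρ ≤ 1` (`D', K` depend on `ρ`).
Let `D` be as in `S_noexp`, so `∂/∂u_{l0} (g (X u)) = (D g / P_e)(X u)`, `X u = cp k e w u`, for polynomials `g`. Let `f = ∑_{m ∈ F} a_m(X) e^{m X_{i0}}`.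
If `F = {m}`: `R = a_m` (a lower bound for a multiple `R'` of `R` and the upper bound `‖X‖ ≤ T^D` give one for `R`), `|e^{m X_{i0}}| ≥ e^{-m C0}`. Otherwise choose `m0 ∈ F`; then
`a_{m0}(X) P_e(X) ∂f/∂u_{l0} - (D a_{m0} - m0 P_{l0} a_{m0})(X) f = ∑_{m ≠ m0} a'_m(X) e^{m X_{i0}}`,
`a'_m = a_{m0} D a_m - a_m D a_{m0} - (m - m0) P_{l0} a_m a_{m0}`, which is not divisible by `P` by `S_noexp` (`a = a_m`, `b = a_{m0}`, `k = -(m - m0)`). If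
`‖f‖ ≤ η` on `ball 0 ρ` then `‖∂f/∂u_{l0}‖ ≤ 2 η/ρ` on `ball 0 (ρ/2)` (Cauchy), so the right hand side is at most `T^{D''} η` on `ball 0 (ρ/2)`; by induction it
is at least `T^{-D'}` somewhere. `R` = product of the `R` of the induction, `a_m`, `P_e`. -/
def S_zero : Prop := ∀ (n : ℕ) (P : MvPolynomial (Fin n) ℂ) (i0 l0 : Fin n) (e : Fin n → ℝ)
  (F : Finset ℕ) (a : ℕ → MvPolynomial (Fin n) ℂ), Irreducible P → e i0 = 1 → l0 ≠ i0 →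
  pderiv l0 P ≠ 0 → ∑ l, C (e l : ℂ) * pderiv l P ≠ 0 → F.Nonempty → (∀ m ∈ F, ¬ P ∣ a m) →
  ∃ R : MvPolynomial (Fin n) ℂ, ¬ P ∣ R ∧ ∀ R', R ∣ R' → ∀ D C0 : ℝ, ∃ D' K : ℝ, ∀ T : ℝ, K ≤ T →
    2 ≤ T → ∀ (k : Fin n → ℝ) (w : (Fin n → ℂ) → ℂ), DifferentiableOn ℂ w (ball 0 1) →
    (∀ u ∈ ball (0 : Fin n → ℂ) 1, eval (cp k e w u) P = 0 ∧ ‖cp k e w u‖ ≤ T ^ D ∧
      T ^ (-D) ≤ ‖eval (cp k e w u) R'‖ ∧ |(cp k e w u i0).re| ≤ C0) →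
    ∃ u ∈ ball (0 : Fin n → ℂ) 1, T ^ (-D') ≤
      ‖∑ m ∈ F, eval (cp k e w u) (a m) * Complex.exp (cp k e w u i0) ^ m‖

/-- JOB DOUBL. A holomorphic function of polynomial size is, around some purely imaginary point, bounded below on a large ball.
Proof. `M(ρ) = sup_{‖u‖ < ρ} ‖F‖`. For `ρ_i = T^{σ/2} 4^i`, `ρ_i ≤ T^σ/8`, the product of the quotients `M(4 ρ_i)/M(ρ_i)` is at most `T^{2D}`, and there are
at least `c log T` such `i`, so for one of them `M(4ρ) ≤ C M(ρ)`, `C` depends only on `D, σ`, and `M(ρ) ≥ M(1) ≥ T^{-D}`. The function `g(v) = F(2 ρ v)/M(ρ)` on `ball 0 2` is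
bounded by `C` and has supremum at least `1` on `ball 0 (1/2)`. Claim: for every `C, n` there are `m, η > 0` such that every such `g` satisfies `‖g‖ ≥ m` on a ball `ball (iκ) η`, `κ` real,
`‖κ‖ ≤ 1`. Otherwise there is a sequence `g_j` with `m = η = 1/j`; along an ultrafilter it converges locally uniformly on `ball 0 2` (see `mon` in
Pool/Agent/H664/FH/Ana.lean for one variable) to a holomorphic `g ≠ 0` (the supremum over `closedBall 0 (1/2)` is at least `1`), which is not zero at some `iκ`, `‖κ‖ ≤ 1`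
(a holomorphic function vanishing on a neighbourhood of `0` in `i ℝ^n` is zero), contradiction. So `‖F‖ ≥ m M(ρ) ≥ T^{-D-1}` on the ball around `2 ρ iκ` of radius `2 ρ η ≥ T^{σ/4}`. -/
def S_doubl : Prop := ∀ (n : ℕ) (D σ : ℝ), 0 < σ → ∃ K D' σ' : ℝ, 0 < σ' ∧ ∀ T : ℝ, K ≤ T →
  ∀ F : (Fin n → ℂ) → ℂ, DifferentiableOn ℂ F (ball 0 (T ^ σ)) →
  (∀ u ∈ ball (0 : Fin n → ℂ) (T ^ σ), ‖F u‖ ≤ T ^ D) →
  (∃ u ∈ ball (0 : Fin n → ℂ) 1, T ^ (-D) ≤ ‖F u‖) →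
  ∃ κ : Fin n → ℝ, ball (fun l => Complex.I * (κ l : ℂ)) (T ^ σ') ⊆ ball (0 : Fin n → ℂ) (T ^ σ) ∧
    ∀ u ∈ ball (fun l => Complex.I * (κ l : ℂ)) (T ^ σ'), T ^ (-D') ≤ ‖F u‖

/-- `P (M x)` -/
noncomputable def subM {n : ℕ} (M : Matrix (Fin n) (Fin n) ℤ) (P : MvPolynomial (Fin n) ℂ) :
    MvPolynomial (Fin n) ℂ := bind₁ (fun i => ∑ j, C ((M i j : ℤ) : ℂ) * X j) P

/-- JOB COORD. Unimodular change of coordinates. `x' = M x`, `y' = y^M`, `P' (x') = P (M' x')`, `M' = M⁻¹`; so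
`z = M' z'` is an exponential point for `(x, y)` if `z'` is one for `(x', y')` (`y_j = ∏ y'_i^(M' j i)`; relations transfer by
`Pool.Agent.Q239.EG.pt_of_frac` with `s = ∏ X (inr i)`); `H' = (∏ X (inr i))^N H(M' x', y'^{M'})`. `hx`: `aeval x' g = 0 ↔ P ∣ g(M x) ↔ P' ∣ g`. `Tr1` depends only on the field generated by
`x`. Second part: limits (`LimOne`): `c_j P'(x' + i M k_j) = c_j P(M' x' + i k_j)`, use `Pool.Agent.W578.ECPt.t_pt` and `conv_eval` as in `limOne_sh` of Q72/EG/Tr.lean. -/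
def S_coord : Prop := ∀ (n : ℕ) (M M' : Matrix (Fin n) (Fin n) ℤ), M * M' = 1 → M' * M = 1 →
  (∀ (E : Type) [Field E] [Algebra ℂ E] (G : Cv n E), ∃ G' : Cv n E, G'.P = subM M' G.P ∧
    (∀ i, G'.x i = ∑ j, ((M i j : ℤ) : E) * G.x j) ∧ (∀ i, G'.y i = ∏ j, G.y j ^ M i j) ∧
    (∀ i, G'.T i ↔ Transcendental (IntermediateField.adjoin ℂ (Set.range G.x))
      (∏ j, G.y j ^ M i j)) ∧
    ∀ H : MvPolynomial (Fin n ⊕ Fin n) ℂ, aeval (Sum.elim G.x G.y) H ≠ 0 →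
      ∃ H' : MvPolynomial (Fin n ⊕ Fin n) ℂ, aeval (Sum.elim G'.x G'.y) H' ≠ 0 ∧
      ∀ z : Fin n → ℂ, Sum.elim z (fun l => Complex.exp (z l)) ∈ Pt (Sum.elim G'.x G'.y) →
        eval (Sum.elim z (fun l => Complex.exp (z l))) H' ≠ 0 →
        ∃ z' : Fin n → ℂ, Sum.elim z' (fun l => Complex.exp (z' l)) ∈ Pt (Sum.elim G.x G.y) ∧
          eval (Sum.elim z' (fun l => Complex.exp (z' l))) H ≠ 0) ∧
  ∀ (P : MvPolynomial (Fin n) ℂ) (l : Fin n → ℝ) (f : Polynomial ℂ),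
    LimOne P (Polynomial.aeval (lin l) f) →
    LimOne (subM M' P) (Polynomial.aeval (lin (fun i => ∑ j, ((M' j i : ℤ) : ℝ) * l j)) f)

/-- JOB LATT. Adapted coordinates for a real vector.
Proof. Let `N` be the submodule of `ℤ^n` of all `m` such that `q·m = 0` for all `q ∈ ℤ^n` with `q·l = 0`. It is pure (`a m ∈ N`, `a ≠ 0` implies
`m ∈ N`). By the Smith normal form (`Submodule.smithNormalForm`) there is a basis `b` of `ℤ^n` and `J` such that multiples of the `b_i`, `i ∈ J`, are a basis of `N`; by purity `b_i ∈ N` for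
`i ∈ J`, and `N` is spanned by them. `M` = the matrix with the rows `b_i`, `M'` its inverse. `l` is in the real span of `N`: linear algebra over `ℚ`, for example: choose a basis of the `ℚ`-span of the `l_j`:
`l_j = ∑_s c_{js} β_s`, `c` rational, `β` `ℚ`-independent; the vectors `(c_{js})_j` (times a common denominator) are in `N`: if `q·l = 0` then `∑_j q_j c_{js} = 0` for every `s`.
So `l = ∑_{i ∈ J} l'_i b_i` with unique real `l'_i`, and `l'_i = ∑_j M'_{ji} l_j`, `l'_i = 0` for `i ∉ J`. `QJ`: if `m ∈ ℤ^n` is supported in `J` and `∑ m_i l'_i = 0`, let `q = M' m` as a vector,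
`q_j = ∑_i M'_{ji} m_i`: `q·l = ∑ m_i l'_i = 0`, so `q·b_i = 0` for `i ∈ J`, but `q·b_i = ∑_j q_j M_{ij} = m_i`. So `m = 0`. -/
def S_latt : Prop := ∀ (n : ℕ) (l : Fin n → ℝ), l ≠ 0 →
  ∃ (M M' : Matrix (Fin n) (Fin n) ℤ) (J : Finset (Fin n)), M * M' = 1 ∧ M' * M = 1 ∧
    J.Nonempty ∧ QJ J (fun i => ∑ j, ((M' j i : ℤ) : ℝ) * l j)

/-- JOB CORER. The rational case. Proof.
`e, B` from HasFlatB (`α = Pi.single i 1`, so `e i = 1`), `P_e ≠ 0`, `l0 ≠ i` with `∂_{l0} P ≠ 0` (exists, otherwise `P` is a polynomial in `x_i`, irreducible, so linear, against the hypothesis).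
`Hh` good for `i` (`S_good`); for every `l` the relation `S_rel (i, l)`: `∑_{e ∈ F l} c_e(x) y_i^{e.1} y_l^{e.2} = 0`; for `b` in `{e.2 : e ∈ F l}` let `A_{l,b} = ∑_{e.2 = b} c_e(x) Y^{e.1}`
(nonzero at the generic point, `y_i` transcendental). `H = Hh ∏_{l,b} A_{l,b}` as a polynomial in `(Y, x)`; it is good for `i`, too.  `f(u) = H(e^{X_i(u)}, X(u)) = ∑_{m ∈ Fh} cf H m (X) e^{m X_i}`.
On the ball of radius `T^{1/4}`: `X_i(u) = i k_i + u_i + w(u)` is within `1/K` of `i k_i + r`, so `|Re X_i|` is bounded. By `S_zero` `‖f‖ ≥ T^{-D'}` somewhere on `ball 0 1`; by `S_doubl`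
`‖f‖ ≥ T^{-D''}` on a ball `U` of radius `T^{σ'}` around `c = iκ`. All factors of `H` are polynomially bounded above, so `‖A_{l,b}(e^{X_i}, X)‖ ≥ T^{-D}` on `U`, too. `Good.ex`, `Good.sheet`
(`W = Fin n → ℂ`, `Y(u) = e^{X_i(u)}`): holomorphic `p(u)` on `U`, `(X(u), p(u)) ∈ Pt`, `p_i = e^{X_i}`, `p_l ≠ 0`, and by the relations (all coefficients of the polynomial with the root `p_l` are between `T^{-D}` and `T^D`, apart from
those vanishing identically) `|log ‖p_l‖| ≤ D₃ log T`. Logarithms `h_l` of `p_l` (`S_log`), `‖h_l‖ ≤ 6 D₃ log T + 10` on the half ball (`S_bc`). Fixed point (`S_fix`): choose integers `M_l` nearest to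
`(k_l + κ_l - κ_i e_l)/(2π)`, and `c'_l = 2πi M_l - i k_l - (r - i κ_i) e_l` for `l ≠ i`, `c'_i = i κ_i`; `‖c' - iκ‖` is bounded. Solve `u_i = i κ_i`, `u_l = c'_l + h_l(u) - (w(u) + i κ_i - r) e_l`, `l ≠ i`, on the ball of
radius `T^{σ'}/8` around `c'`. Then `X_l(u) = i k_l + u_l + w(u) e_l = 2πi M_l + h_l(u)`, so `e^{X_l} = p_l(u)` for `l ≠ i`, and also for `l = i`. -/
def S_coreR : Prop := ∀ (n : ℕ) (E : Type) [Field E] [Algebra ℂ E] (G : Cv n E)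
  (H : MvPolynomial (Fin n ⊕ Fin n) ℂ) (i : Fin n), G.T i → (∀ c : ℂ, ¬ G.P ∣ X i - C c) →
  aeval (Sum.elim G.x G.y) H ≠ 0 → HasFlatB G.P (Pi.single i 1) →
  ∃ z : Fin n → ℂ, Sum.elim z (fun l => Complex.exp (z l)) ∈ Pt (Sum.elim G.x G.y) ∧
    eval (Sum.elim z (fun l => Complex.exp (z l))) H ≠ 0

end Pool.Agent.H664.FH
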