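import Pool.Agent.H664.FH.Base

/-! Project FH (helper664): limits of coefficient vectors, generic radii, robust nonvanishing. -/

set_option autoImplicit false

namespace Pool.Agent.H664.FH

open Filter Topology Metric

theorem norm_lim {ι : Type} {U : Ultrafilter ℕ} (F : Finset ι) (c : ℕ → ι → ℂ)
    (hc : ∀ j, ∃ e ∈ F, c j e ≠ 0) :
    ∃ γ : ι → ℂ, (∀ e ∈ F, Tendsto (fun j => c j e / ((∑ e' ∈ F, ‖c j e'‖ : ℝ) : ℂ)) U
      (𝓝 (γ e))) ∧ ∃ e ∈ F, γ e ≠ 0 := by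
  have hM : ∀ j, 0 < ∑ e' ∈ F, ‖c j e'‖ := by
    intro j
    obtain ⟨e, he, hne⟩ := hc j
    exact Finset.sum_pos' (fun _ _ => norm_nonneg _) ⟨e, he, norm_pos_iff.2 hne⟩
  have hn : ∀ j e, ‖c j e / ((∑ e' ∈ F, ‖c j e'‖ : ℝ) : ℂ)‖ = ‖c j e‖ / ∑ e' ∈ F, ‖c j e'‖ := by
    intro j e
    rw [norm_div, Complex.norm_real, Real.norm_of_nonneg (hM j).le]
  have h1 : ∀ e : ι, ∃ a : ℂ, e ∈ F →
      Tendsto (fun j => c j e / ((∑ e' ∈ F, ‖c j e'‖ : ℝ) : ℂ)) U (𝓝 a) := by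
    intro e
    by_cases he : e ∈ F
    · obtain ⟨a, ha⟩ := ulim (U := U) (f := fun j => c j e / ((∑ e' ∈ F, ‖c j e'‖ : ℝ) : ℂ)) (C := 1)
        (Eventually.of_forall fun j => by
          rw [hn, div_le_one (hM j)]
          exact Finset.single_le_sum (f := fun e' => ‖c j e'‖) (fun _ _ => norm_nonneg _) he)
      exact ⟨a, fun _ => ha⟩
    · exact ⟨0, fun h => absurd h he⟩
  choose γ hγ using h1
  refine ⟨γ, hγ, ?_⟩
  by_contra hcon
  push Not at hcon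
  have h2 : Tendsto (fun j => ∑ e ∈ F, ‖c j e / ((∑ e' ∈ F, ‖c j e'‖ : ℝ) : ℂ)‖) U
      (𝓝 (∑ e ∈ F, ‖γ e‖)) := tendsto_finsetSum _ fun e he => (hγ e he).norm
  have h3 : (fun j => ∑ e ∈ F, ‖c j e / ((∑ e' ∈ F, ‖c j e'‖ : ℝ) : ℂ)‖) = fun _ => (1 : ℝ) := by
    funext j
    simp only [hn]
    rw [← Finset.sum_div, div_self (hM j).ne']
  rw [h3, Finset.sum_eq_zero (fun e he => by rw [hcon e he, norm_zero])] at h2
  have := tendsto_nhds_unique h2 tendsto_const_nhds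
  exact zero_ne_one this

theorem generic_radius (Q : Finset (Polynomial ℂ)) (hQ : ∀ q ∈ Q, q ≠ 0) :
    ∃ ρ : ℝ, 0 < ρ ∧ ρ < 1 / 4 ∧ ∀ q ∈ Q, ∀ z : ℂ, ‖z - 1‖ = ρ → q.eval z ≠ 0 := by
  classical
  set B : Set ℝ := ⋃ q ∈ Q, (fun z : ℂ => ‖z - 1‖) '' (q.roots.toFinset : Set ℂ) with hB
  have hfin : B.Finite := by
    refine Set.Finite.biUnion Q.finite_toSet fun q _ => ?_
    exact (q.roots.toFinset.finite_toSet).image _
  obtain ⟨ρ, hρ, hρB⟩ : ∃ ρ ∈ Set.Ioo (0 : ℝ) (1 / 4), ρ ∉ B :=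
    (Set.Ioo_infinite (by norm_num)).exists_notMem_finite hfin
  refine ⟨ρ, hρ.1, hρ.2, fun q hq z hz h0 => hρB ?_⟩
  rw [hB]
  simp only [Set.mem_iUnion]
  refine ⟨q, hq, z, ?_, hz⟩
  rw [Finset.mem_coe, Multiset.mem_toFinset]
  exact (Polynomial.mem_roots (hQ q hq)).2 h0

theorem robust {ι : Type} (F : Finset ι) (a b : ι → ℕ) (γ : ι → ℂ) (zs : ℂ)
    (h : ∃ m, ∑ e ∈ F with b e = m, γ e * zs ^ a e ≠ 0) :
    ∃ C η : ℝ, 2 < C ∧ 0 < η ∧ ∀ z ∈ ball zs η, ∀ γ' : ι → ℂ, (∀ e ∈ F, ‖γ' e - γ e‖ < η) →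
      ∀ Z : ℂ, (‖Z‖ = C ∨ ‖Z‖ = C⁻¹) → ∑ e ∈ F, γ' e * z ^ a e * Z ^ b e ≠ 0 := by
  classical
  -- the polynomial in `Z`
  set A : Polynomial ℂ := ∑ e ∈ F, Polynomial.C (γ e * zs ^ a e) * Polynomial.X ^ b e with hA
  have hAe : ∀ Z, A.eval Z = ∑ e ∈ F, γ e * zs ^ a e * Z ^ b e := by
    intro Z
    rw [hA, Polynomial.eval_finsetSum]
    simp
  have hA0 : A ≠ 0 := by
    obtain ⟨m, hm⟩ := h
    intro h0
    apply hm
    have h1 := congrArg (fun p => Polynomial.coeff p m) h0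
    simp only [hA, Polynomial.finsetSum_coeff, Polynomial.coeff_C_mul_X_pow,
      Polynomial.coeff_zero] at h1
    rw [Finset.sum_filter]
    refine Eq.trans (Finset.sum_congr rfl fun e _ => ?_) h1
    by_cases hbm : b e = m
    · rw [if_pos hbm, if_pos hbm.symm]
    · rw [if_neg hbm, if_neg (Ne.symm hbm)]
  -- the constant `C`
  set B : Set ℝ := ((fun z : ℂ => ‖z‖) '' (A.roots.toFinset : Set ℂ)) ∪
    ((fun z : ℂ => ‖z‖⁻¹) '' (A.roots.toFinset : Set ℂ)) with hB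
  have hfin : B.Finite :=
    ((A.roots.toFinset.finite_toSet).image _).union ((A.roots.toFinset.finite_toSet).image _)
  obtain ⟨C, hC, hCB⟩ : ∃ C ∈ Set.Ioo (2 : ℝ) 3, C ∉ B :=
    (Set.Ioo_infinite (by norm_num)).exists_notMem_finite hfin
  have hC0 : 0 < C := by linarith [hC.1]
  set K : Set ℂ := {Z | ‖Z‖ = C ∨ ‖Z‖ = C⁻¹} with hK
  have hKc : IsCompact K := by
    have h1 : K ⊆ closedBall 0 C := by
      rintro Z (hZ | hZ)
      · simp [hZ]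
      · rw [mem_closedBall_zero_iff, hZ]
        rw [inv_le_comm₀ hC0 hC0]
        have : C⁻¹ ≤ 1 := inv_le_one_of_one_le₀ (by linarith [hC.1])
        linarith [hC.1]
    have h2 : IsClosed K := by
      have e1 : K = {Z | ‖Z‖ = C} ∪ {Z | ‖Z‖ = C⁻¹} := by
        ext Z; simp [hK]
      rw [e1]
      exact (isClosed_eq continuous_norm continuous_const).union
        (isClosed_eq continuous_norm continuous_const)
    exact (isCompact_closedBall 0 C).of_isClosed_subset h2 h1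
  have hAK : ∀ Z ∈ K, A.eval Z ≠ 0 := by
    rintro Z hZ h0
    have hr : Z ∈ (A.roots.toFinset : Set ℂ) := by
      rw [Finset.mem_coe, Multiset.mem_toFinset]
      exact (Polynomial.mem_roots hA0).2 h0
    apply hCB
    rcases hZ with hZ | hZ
    · exact Or.inl ⟨Z, hr, hZ⟩
    · exact Or.inr ⟨Z, hr, by simp only; rw [hZ, inv_inv]⟩
  set Ψ : (ℂ × (F → ℂ)) × ℂ → ℂ := fun q => ∑ e : F, q.1.2 e * q.1.1 ^ a e * q.2 ^ b e with hΨ
  have hΨc : Continuous Ψ := by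
    refine continuous_finsetSum _ fun e _ => ?_
    fun_prop
  have hev : ∀ᶠ q : ℂ × (F → ℂ) in 𝓝 (zs, fun e => γ e), ∀ Z ∈ K, Ψ (q, Z) ≠ 0 := by
    refine hKc.eventually_forall_of_forall_eventually fun Z hZ => ?_
    apply hΨc.continuousAt.eventually_ne
    have : Ψ ((zs, fun e : F => γ e), Z) = A.eval Z := by
      rw [hΨ, hAe]
      simp only
      exact Finset.sum_coe_sort F (fun e => γ e * zs ^ a e * Z ^ b e)
    rw [this]
    exact hAK Z hZ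
  obtain ⟨η, hη, hball⟩ := Metric.eventually_nhds_iff_ball.1 hev
  refine ⟨C, η, hC.1, hη, fun z hz γ' hγ' Z hZ => ?_⟩
  have h1 := hball (z, fun e : F => γ' e) (by
    rw [mem_ball, Prod.dist_eq, max_lt_iff]
    refine ⟨hz, ?_⟩
    rw [dist_pi_lt_iff hη]
    intro e
    rw [dist_eq_norm]
    exact hγ' e e.2) Z hZ
  rw [hΨ] at h1
  simp only at h1
  rwa [Finset.sum_coe_sort F (fun e => γ' e * z ^ a e * Z ^ b e)] at h1

end Pool.Agent.H664.FH
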