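import Pool.Agent.H664.FH.Ana

/-! Project FH (helper664): logarithms on a sheet over a flat piece. -/

set_option autoImplicit false

namespace Pool.Agent.H664.FH

open MvPolynomial Filter Topology Metric Pool.Agent.W996.EC Pool.Agent.Q72.EG

theorem cp_diff {n : ℕ} {k e : Fin n → ℝ} {w : (Fin n → ℂ) → ℂ} {U : Set (Fin n → ℂ)}
    (hw : DifferentiableOn ℂ w U) : DifferentiableOn ℂ (cp k e w) U := by
  rw [differentiableOn_pi]
  intro l
  have e1 : DifferentiableOn ℂ (fun u : Fin n → ℂ => u l) U := differentiableOn_apply l _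
  exact (e1.const_add _).add (hw.mul_const _)

/-- a continuous function on a preconnected set which avoids two values stays between them -/
theorem between {V : Type} [TopologicalSpace V] {U : Set V} (hU : IsPreconnected U) {f : V → ℝ}
    (hf : ContinuousOn f U) {a b : ℝ} (ha : ∀ v ∈ U, f v ≠ a) (hb : ∀ v ∈ U, f v ≠ b) {v0 : V}
    (hv0 : v0 ∈ U) (h1 : a < f v0) (h2 : f v0 < b) : ∀ v ∈ U, a < f v ∧ f v < b := by
  intro v hv
  constructor
  · by_contra h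
    push Not at h
    obtain ⟨v1, hv1, h3⟩ := hU.intermediate_value hv hv0 hf ⟨h, h1.le⟩
    exact ha v1 hv1 h3
  · by_contra h
    push Not at h
    obtain ⟨v1, hv1, h3⟩ := hU.intermediate_value hv0 hv hf ⟨h2.le, h⟩
    exact hb v1 hv1 h3

theorem piece {n : ℕ} {E : Type} [Field E] [Algebra ℂ E] (G : Cv n E)
    {H0 : MvPolynomial (Fin n ⊕ Fin n) ℂ} {i : Fin n} {H : MvPolynomial (Option (Fin n)) ℂ}
    (hgood : Good G H0 i H) {k e : Fin n → ℝ} {w : (Fin n → ℂ) → ℂ} {Λ ε : ℝ} (hΛ : 0 < Λ)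
    (hε : 0 < ε) {zs : ℂ} {s p : Fin n → ℂ} (C : Fin n → ℝ) (hC : ∀ l, 2 < C l)
    (hw : DifferentiableOn ℂ w (ball 0 Λ))
    (hP : ∀ u ∈ ball (0 : Fin n → ℂ) Λ, eval (cp k e w u) G.P = 0)
    (hs : ∀ l, s l ≠ 0) (hp : p ∈ Fib G (cp k e w 0)) (hζ : p i / s i ∈ ball zs (ε / 8))
    (h1 : ∀ u ∈ ball (0 : Fin n → ℂ) Λ, ∀ z ∈ ball zs ε,
      eval (oe (s i * z) (cp k e w u)) H ≠ 0)
    (h2 : ∀ u ∈ ball (0 : Fin n → ℂ) Λ, ∀ z ∈ ball zs ε, ∀ p' ∈ Fib G (cp k e w u),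
      p' i = s i * z → ∀ l, ‖p' l / s l‖ ≠ C l ∧ ‖p' l / s l‖ ≠ (C l)⁻¹)
    (h3 : ∀ l, (C l)⁻¹ < ‖p l / s l‖ ∧ ‖p l / s l‖ < C l) :
    ∃ L : (Fin n → ℂ) → ℂ → Fin n → ℂ,
      DifferentiableOn ℂ (fun v : (Fin n → ℂ) × ℂ => L v.1 v.2)
        (ball 0 (Λ / 2) ×ˢ ball zs (ε / 8)) ∧
      (∀ u ∈ ball (0 : Fin n → ℂ) (Λ / 2), ∀ z ∈ ball zs (ε / 8), ∀ l,
        ‖L u z l‖ ≤ 6 * Real.log (C l) + 10) ∧
      (∀ u ∈ ball (0 : Fin n → ℂ) (Λ / 2), ∀ z ∈ ball zs (ε / 8),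
        (fun l => s l * Complex.exp (L u z l)) ∈ Fib G (cp k e w u) ∧
        Complex.exp (L u z i) = z) ∧
      ∀ l, Complex.exp (L 0 (p i / s i) l) = p l / s l := by
  set U : Set ((Fin n → ℂ) × ℂ) := ball 0 Λ ×ˢ ball zs ε with hU
  have hUo : IsOpen U := isOpen_ball.prod isOpen_ball
  have hUc : Convex ℝ U := (convex_ball _ _).prod (convex_ball _ _)
  set ζ : ℂ := p i / s i with hζd
  have hζε : dist ζ zs < ε / 8 := hζ
  set u0 : (Fin n → ℂ) × ℂ := (0, ζ) with hu0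
  have hu0U : u0 ∈ U := ⟨mem_ball_self hΛ, by
    show dist ζ zs < ε
    linarith⟩
  have hXd : DifferentiableOn ℂ (fun v : (Fin n → ℂ) × ℂ => cp k e w v.1) U :=
    (cp_diff hw).comp differentiableOn_fst fun v hv => hv.1
  have hYd : DifferentiableOn ℂ (fun v : (Fin n → ℂ) × ℂ => s i * v.2) U :=
    differentiableOn_snd.const_mul _
  obtain ⟨q, hqd, hq0, hq⟩ := hgood.sheet ((Fin n → ℂ) × ℂ) U (fun v => cp k e w v.1)
    (fun v => s i * v.2) hUo hUc hXd hYd (fun v hv => ⟨hP v.1 hv.1, h1 v.1 hv.1 v.2 hv.2⟩) u0 hu0U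
    p hp (by
      show p i = s i * ζ
      rw [hζd]
      field_simp [hs i])
  have hqn : ∀ v ∈ U, ∀ l, q v l ≠ 0 := fun v hv =>
    (hgood.ne _ _ (hq v hv).1 (by
      rw [(hq v hv).2]
      exact h1 v.1 hv.1 v.2 hv.2)).1
  have hηd : ∀ l, DifferentiableOn ℂ (fun v => q v l / s l) U := fun l => by
    simp only [div_eq_mul_inv]
    exact ((differentiableOn_pi.1 hqd) l).mul_const _
  have hbd : ∀ l, ∀ v ∈ U, (C l)⁻¹ < ‖q v l / s l‖ ∧ ‖q v l / s l‖ < C l := by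
    intro l
    refine between (f := fun v => ‖q v l / s l‖) hUc.isPreconnected (hηd l).continuousOn.norm ?_ ?_
      hu0U ?_ ?_
    · intro v hv
      exact (h2 v.1 hv.1 v.2 hv.2 (q v) (hq v hv).1 (hq v hv).2 l).2
    · intro v hv
      exact (h2 v.1 hv.1 v.2 hv.2 (q v) (hq v hv).1 (hq v hv).2 l).1
    · rw [hq0]; exact (h3 l).1
    · rw [hq0]; exact (h3 l).2
  have hlog : ∀ l, ∃ h : (Fin n → ℂ) × ℂ → ℂ, DifferentiableOn ℂ h U ∧
      (∀ v ∈ U, Complex.exp (h v) = q v l / s l) ∧ h u0 = Complex.log (q u0 l / s l) := fun l =>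
    log_conv hUo hUc hu0U (hηd l) (fun v hv => div_ne_zero (hqn v hv l) (hs l))
  choose h hhd hhe hh0 using hlog
  have hre : ∀ l, ∀ v ∈ U, |(h l v).re| ≤ Real.log (C l) := by
    intro l v hv
    have hC0 : 0 < C l := by linarith [hC l]
    have e1 : Real.exp ((h l v).re) = ‖q v l / s l‖ := by
      rw [← Complex.norm_exp, hhe l v hv]
    have h4 := hbd l v hv
    have h5 : 0 < ‖q v l / s l‖ := lt_trans (inv_pos.2 hC0) h4.1
    have e2 : (h l v).re = Real.log ‖q v l / s l‖ := by rw [← e1, Real.log_exp]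
    rw [e2, abs_le]
    constructor
    · rw [← Real.log_inv]
      exact Real.log_le_log (inv_pos.2 hC0) h4.1.le
    · exact Real.log_le_log h5 h4.2.le
  have hsmall : ∀ u ∈ ball (0 : Fin n → ℂ) (Λ / 2), ∀ z ∈ ball zs (ε / 8), (u, z) ∈ U := by
    intro u hu z hz
    exact ⟨ball_subset_ball (by linarith) hu, ball_subset_ball (by linarith) hz⟩
  refine ⟨fun u z l => h l (u, z), ?_, ?_, ?_, ?_⟩
  · rw [differentiableOn_pi]
    intro l
    exact (hhd l).mono fun v hv => hsmall v.1 hv.1 v.2 hv.2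
  · intro u hu z hz l
    set φ : (Fin n → ℂ) × ℂ → (Fin n → ℂ) × ℂ := fun v =>
      (v.1, ζ + ((ε / (2 * Λ) : ℝ) : ℂ) * v.2) with hφ
    have hφU : ∀ v ∈ ball (0 : (Fin n → ℂ) × ℂ) Λ, φ v ∈ U := by
      intro v hv
      rw [mem_ball, Prod.dist_eq, max_lt_iff] at hv
      refine ⟨hv.1, ?_⟩
      show dist (ζ + ((ε / (2 * Λ) : ℝ) : ℂ) * v.2) zs < ε
      have h4 : ‖v.2‖ < Λ := by
        have := hv.2
        rwa [Prod.snd_zero, dist_zero_right] at this
      have h5 : dist (ζ + ((ε / (2 * Λ) : ℝ) : ℂ) * v.2) ζ ≤ ε / 2 := by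
        rw [dist_eq_norm, add_sub_cancel_left, norm_mul, Complex.norm_real,
          Real.norm_of_nonneg (by positivity)]
        calc ε / (2 * Λ) * ‖v.2‖ ≤ ε / (2 * Λ) * Λ :=
              mul_le_mul_of_nonneg_left h4.le (by positivity)
          _ = ε / 2 := by field_simp
      linarith [dist_triangle (ζ + ((ε / (2 * Λ) : ℝ) : ℂ) * v.2) ζ zs]
    have hφd : DifferentiableOn ℂ φ (ball 0 Λ) :=
      differentiableOn_fst.prodMk ((differentiableOn_snd.const_mul _).const_add _)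
    have hφ0 : φ 0 = u0 := by simp [hφ, hu0]
    have key := bc_ball (V := (Fin n → ℂ) × ℂ) (c := 0) (ρ := Λ) (B := Real.log (C l))
      (h := fun v => h l (φ v)) (Real.log_nonneg (by linarith [hC l]))
      ((hhd l).comp hφd hφU) (fun v hv => hre l (φ v) (hφU v hv)) (by
        rw [hφ0, hh0, Complex.log_im]
        exact Complex.abs_arg_le_pi _)
    have hv : (u, ((2 * Λ / ε : ℝ) : ℂ) * (z - ζ)) ∈ ball (0 : (Fin n → ℂ) × ℂ) (Λ / 2) := by
      rw [mem_ball, Prod.dist_eq, max_lt_iff]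
      refine ⟨hu, ?_⟩
      show dist (((2 * Λ / ε : ℝ) : ℂ) * (z - ζ)) 0 < Λ / 2
      rw [dist_zero_right, norm_mul, Complex.norm_real, Real.norm_of_nonneg (by positivity)]
      have h4 : ‖z - ζ‖ < ε / 4 := by
        rw [← dist_eq_norm]
        have := dist_triangle z zs ζ
        rw [dist_comm zs ζ] at this
        rw [mem_ball] at hz
        linarith
      calc 2 * Λ / ε * ‖z - ζ‖ < 2 * Λ / ε * (ε / 4) :=
            mul_lt_mul_of_pos_left h4 (by positivity)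
        _ = Λ / 2 := by field_simp; ring
    have h5 := key _ hv
    have h6 : φ (u, ((2 * Λ / ε : ℝ) : ℂ) * (z - ζ)) = (u, z) := by
      simp only [hφ]
      rw [Prod.mk.injEq]
      refine ⟨rfl, ?_⟩
      push_cast
      have hΛ' : (Λ : ℂ) ≠ 0 := by exact_mod_cast hΛ.ne'
      have hε' : (ε : ℂ) ≠ 0 := by exact_mod_cast hε.ne'
      field_simp
      ring
    rw [h6] at h5
    exact h5
  · intro u hu z hz
    have hv := hsmall u hu z hz
    have e1 : (fun l => s l * Complex.exp (h l (u, z))) = q (u, z) := by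
      funext l
      rw [hhe l (u, z) hv]
      field_simp [hs l]
    refine ⟨?_, ?_⟩
    · rw [e1]; exact (hq (u, z) hv).1
    · rw [hhe i (u, z) hv, (hq (u, z) hv).2]
      simp only
      rw [mul_div_assoc, mul_comm, div_mul_cancel₀]
      exact hs i
  · intro l
    show Complex.exp (h l u0) = p l / s l
    rw [hhe l u0 hu0U, hq0]

end Pool.Agent.H664.FH
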