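import Pool.Agent.H664.FH.Start
import Pool.Agent.H664.FH.Lim
import Pool.Agent.H664.FH.Piece

/-! Project FH (helper664): the sequence of pieces and its limit data. -/

set_option autoImplicit false

namespace Pool.Agent.H664.FH

open MvPolynomial Filter Topology Metric Pool.Agent.W996.EC Pool.Agent.Q72.EG

/-- the sequence of pieces, points and the limits -/
structure Stage {n : ℕ} {E : Type} [Field E] [Algebra ℂ E] (G : Cv n E)
    (H0 : MvPolynomial (Fin n ⊕ Fin n) ℂ) (α e : Fin n → ℝ) (B C1 : ℝ) where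
  U : Ultrafilter ℕ
  hU : (U : Filter ℕ) ≤ atTop
  i : Fin n
  Hh : MvPolynomial (Option (Fin n)) ℂ
  good : Good G H0 i Hh
  F : Fin n → Fin n → Finset (ℕ × ℕ)
  c : Fin n → Fin n → ℕ × ℕ → MvPolynomial (Fin n) ℂ
  hrel : ∀ a b, ∀ x p : Fin n → ℂ, Sum.elim x p ∈ Pt (Sum.elim G.x G.y) →
      ∑ e' ∈ F a b, eval x (c a b e') * p a ^ e'.1 * p b ^ e'.2 = 0
  Fh : Finset ℕ
  hFh : ∀ (x : Fin n → ℂ) (z : ℂ), eval x G.P = 0 →
    eval (oe z x) Hh = ∑ m ∈ Fh, eval x (cf Hh m) * z ^ m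
  T : ℕ → ℝ
  k : ℕ → Fin n → ℝ
  r : ℕ → ℂ
  w : ℕ → (Fin n → ℂ) → ℂ
  s : ℕ → Fin n → ℂ
  p : ℕ → Fin n → ℂ
  hT : ∀ j : ℕ, (j : ℝ) + 1 ≤ T j
  hT1 : ∀ j, 1 ≤ Real.log (T j)
  hr : ∀ j, ‖r j‖ ≤ B
  hwd : ∀ j, DifferentiableOn ℂ (w j) (ball 0 (Real.log (T j) ^ 2))
  hP : ∀ j, ∀ u ∈ ball (0 : Fin n → ℂ) (Real.log (T j) ^ 2), eval (cp (k j) e (w j) u) G.P = 0
  hw : ∀ j, ∀ u ∈ ball (0 : Fin n → ℂ) (Real.log (T j) ^ 2),
    ‖w j u + ∑ l, (α l : ℂ) * u l - r j‖ ≤ 1 / ((j : ℝ) + 1)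
  hratF : ∀ j, ∀ u ∈ ball (0 : Fin n → ℂ) (Real.log (T j) ^ 2), ∀ a b, ∀ e' ∈ F a b,
    ‖eval (cp (k j) e (w j) u) (c a b e') / eval (cp (k j) e (w j) 0) (c a b e') - 1‖ ≤
      1 / ((j : ℝ) + 1)
  hratH : ∀ j, ∀ u ∈ ball (0 : Fin n → ℂ) (Real.log (T j) ^ 2), ∀ m ∈ Fh,
    ‖eval (cp (k j) e (w j) u) (cf Hh m) / eval (cp (k j) e (w j) 0) (cf Hh m) - 1‖ ≤
      1 / ((j : ℝ) + 1)
  hcF : ∀ j a b, ∀ e' ∈ F a b, eval (cp (k j) e (w j) 0) (c a b e') ≠ 0
  hcH : ∀ j, ∀ m ∈ Fh, eval (cp (k j) e (w j) 0) (cf Hh m) ≠ 0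
  hs : ∀ j, s j ∈ Fib G (cp (k j) e (w j) 0)
  hs0 : ∀ j l, s j l ≠ 0
  hlev : ∀ j, |(r j).re - ∑ l, α l * Real.log ‖s j l‖| ≤ 1 / ((j : ℝ) + 1)
  hsl : ∀ᶠ j in (U : Filter ℕ), ∀ l, |Real.log ‖s j l‖| ≤ C1 * Real.log (T j)
  hp : ∀ j, p j ∈ Fib G (cp (k j) e (w j) 0)
  hplev : ∀ j, ∑ l, α l * Real.log ‖p j l‖ = ∑ l, α l * Real.log ‖s j l‖
  hps : ∀ j l, ‖p j l / s j l - 1‖ ≤ 1 / 4
  zs : ℂ
  hzs : Tendsto (fun j => p j i / s j i) U (𝓝 zs)
  γ : Fin n → Fin n → ℕ × ℕ → ℂ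
  hγ : ∀ a b, ∀ e' ∈ F a b, Tendsto (fun j =>
    eval (cp (k j) e (w j) 0) (c a b e') * s j a ^ e'.1 * s j b ^ e'.2 /
    ((∑ e'' ∈ F a b, ‖eval (cp (k j) e (w j) 0) (c a b e'') * s j a ^ e''.1 * s j b ^ e''.2‖ : ℝ)
      : ℂ)) U (𝓝 (γ a b e'))
  hγne : ∀ a b, ∃ e' ∈ F a b, γ a b e' ≠ 0
  hγi : ∀ l, ∃ m, ∑ e' ∈ F i l with e'.2 = m, γ i l e' * zs ^ e'.1 ≠ 0
  d : ℕ → ℂ
  hd : ∀ m ∈ Fh, Tendsto (fun j => eval (cp (k j) e (w j) 0) (cf Hh m) * s j i ^ m /
    ((∑ m' ∈ Fh, ‖eval (cp (k j) e (w j) 0) (cf Hh m') * s j i ^ m'‖ : ℝ) : ℂ)) U (𝓝 (d m))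
  hdne : ∑ m ∈ Fh, d m * zs ^ m ≠ 0

theorem eval_oe_filter {n : ℕ} {P : MvPolynomial (Fin n) ℂ} (H : MvPolynomial (Option (Fin n)) ℂ)
    {x : Fin n → ℂ} (hx : eval x P = 0) (z : ℂ) [DecidablePred fun m => ¬ P ∣ cf H m] :
    eval (oe z x) H = ∑ m ∈ (Finset.range ((optionEquivLeft ℂ (Fin n) H).natDegree + 1)).filter
      (fun m => ¬ P ∣ cf H m), eval x (cf H m) * z ^ m := by
  rw [eval_oe_sum, Finset.sum_filter]
  refine Finset.sum_congr rfl fun m _ => ?_
  split_ifs with h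
  · obtain ⟨q, hq⟩ := h
    rw [hq, map_mul, hx, zero_mul, zero_mul]
  · rfl

theorem filter_nonempty {n : ℕ} {E : Type} [Field E] [Algebra ℂ E] {P : MvPolynomial (Fin n) ℂ}
    {x : Fin n → E} (hx : ∀ g : MvPolynomial (Fin n) ℂ, aeval x g = 0 ↔ P ∣ g) {Y : E}
    {H : MvPolynomial (Option (Fin n)) ℂ} (hH : aeval (oe Y x) H ≠ 0)
    [DecidablePred fun m => ¬ P ∣ cf H m] :
    ((Finset.range ((optionEquivLeft ℂ (Fin n) H).natDegree + 1)).filter
      (fun m => ¬ P ∣ cf H m)).Nonempty := by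
  by_contra h
  rw [Finset.not_nonempty_iff_eq_empty, Finset.filter_eq_empty_iff] at h
  apply hH
  rw [aeval_oe_sum]
  refine Finset.sum_eq_zero fun m hm => ?_
  have := h hm
  rw [not_not] at this
  rw [(hx _).2 this, zero_mul]

theorem norm_log_le (z : ℂ) : ‖Complex.log z‖ ≤ |Real.log ‖z‖| + Real.pi := by
  refine (Complex.norm_le_abs_re_add_abs_im _).trans ?_
  rw [Complex.log_re, Complex.log_im]
  exact add_le_add le_rfl (Complex.abs_arg_le_pi _)

theorem stage (hcurve : S_curve) (hexit : S_exit) (hcoer : S_coer) (hgoodS : S_good)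
    (hrelS : S_rel) {n : ℕ} {E : Type} [Field E] [Algebra ℂ E] (G : Cv n E)
    (H0 : MvPolynomial (Fin n ⊕ Fin n) ℂ) (α : Fin n → ℝ) (hα : QI α) (hT : ∃ i, G.T i)
    (hH : aeval (Sum.elim G.x G.y) H0 ≠ 0) (hprep : Prep G.P α) :
    ∃ (e : Fin n → ℝ) (B C1 : ℝ), ∑ l, α l * e l = 1 ∧ Nonempty (Stage G H0 α e B C1) := by
  classical
  obtain ⟨i0, hi0⟩ := hT
  obtain ⟨e, B, hαe, hprep⟩ := hprep
  refine ⟨e, B, ?_⟩
  have hex1 : ∀ i, ∃ Hh : MvPolynomial (Option (Fin n)) ℂ, G.T i → Good G H0 i Hh := by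
    intro i
    by_cases h : G.T i
    · obtain ⟨Hh, hh⟩ := hgoodS n E G H0 i hH h
      exact ⟨Hh, fun _ => hh⟩
    · exact ⟨0, fun h' => absurd h' h⟩
  choose Hh hHh using hex1
  choose F c hFne hFc hFT hFrel using fun i l => hrelS n E G i l
  set FH : Fin n → Finset ℕ := fun i =>
    (Finset.range ((optionEquivLeft ℂ (Fin n) (Hh i)).natDegree + 1)).filter
      (fun m => ¬ G.P ∣ cf (Hh i) m) with hFH
  have hFHsum : ∀ i (x : Fin n → ℂ) (z : ℂ), eval x G.P = 0 →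
      eval (oe z x) (Hh i) = ∑ m ∈ FH i, eval x (cf (Hh i) m) * z ^ m := fun i x z hx =>
    eval_oe_filter (Hh i) hx z
  have hFHne : ∀ i, G.T i → (FH i).Nonempty := fun i hi => filter_nonempty G.hx (hHh i hi).gen
  -- the finite set of polynomials
  set S : Finset (MvPolynomial (Fin n) ℂ) :=
    (Finset.univ.biUnion fun i => Finset.univ.biUnion fun l => (F i l).image (c i l)) ∪
    (Finset.univ.biUnion fun i => (FH i).image (cf (Hh i))) with hS
  have hSF : ∀ i l, ∀ e' ∈ F i l, c i l e' ∈ S := by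
    intro i l e' he'
    rw [hS, Finset.mem_union]
    left
    simp only [Finset.mem_biUnion, Finset.mem_univ, true_and]
    exact ⟨i, l, Finset.mem_image_of_mem _ he'⟩
  have hSH : ∀ i, ∀ m ∈ FH i, cf (Hh i) m ∈ S := by
    intro i m hm
    rw [hS, Finset.mem_union]
    right
    simp only [Finset.mem_biUnion, Finset.mem_univ, true_and]
    exact ⟨i, Finset.mem_image_of_mem _ hm⟩
  have hSP : ∀ q ∈ S, ¬ G.P ∣ q := by
    intro q hq
    rw [hS, Finset.mem_union] at hq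
    rcases hq with hq | hq
    · simp only [Finset.mem_biUnion, Finset.mem_univ, true_and, Finset.mem_image] at hq
      obtain ⟨i, l, e', he', rfl⟩ := hq
      exact hFc i l e' he'
    · simp only [Finset.mem_biUnion, Finset.mem_univ, true_and, Finset.mem_image] at hq
      obtain ⟨i, m, hm, rfl⟩ := hq
      exact (Finset.mem_filter.1 hm).2
  obtain ⟨D, hD0, hD⟩ := hprep S hSP
  have hδ : ∀ j : ℕ, (0 : ℝ) < 1 / ((j : ℝ) + 1) := fun j => by positivity
  choose T hT1 hT2 k r w hr hwd hchart hcS using fun j : ℕ => hD (1 / ((j : ℝ) + 1)) (hδ j)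
  have hT1' : ∀ j : ℕ, (j : ℝ) + 1 ≤ T j := by
    intro j
    have := hT1 j
    rwa [one_div, inv_inv] at this
  have hball : ∀ j, (0 : Fin n → ℂ) ∈ ball (0 : Fin n → ℂ) (Real.log (T j) ^ 2) := fun j =>
    mem_ball_self (by have := hT2 j; positivity)
  set x : ℕ → Fin n → ℂ := fun j => cp (k j) e (w j) 0 with hx
  have hxP : ∀ j, eval (x j) G.P = 0 := fun j => (hchart j 0 (hball j)).1
  obtain ⟨m0, hm0⟩ := hFHne i0 hi0
  choose s hsF hsH hsa hsb hsex using fun j : ℕ => start hcurve hexit G (hHh i0 hi0) hα hFne hFrel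
    (x j) (hxP j) (fun a b e' he' => (hcS j _ (hSF a b e' he')).1) (m := m0)
    ((hcS j _ (hSH i0 m0 hm0)).1) ((r j).re) ((r j).re + 1 / ((j : ℝ) + 1)) (by linarith [hδ j])
  have hs0 : ∀ j l, s j l ≠ 0 := fun j => ((hHh i0 hi0).ne (x j) (s j) (hsF j) (hsH j)).1
  have hlev : ∀ j, |(r j).re - ∑ l, α l * Real.log ‖s j l‖| ≤ 1 / ((j : ℝ) + 1) := by
    intro j
    rw [abs_le]
    constructor <;> linarith [hsa j, hsb j, hδ j]
  -- coercivity
  obtain ⟨C, hC0, hC⟩ := hcoer n α F hα hFne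
  have hB0 : 0 ≤ B := (norm_nonneg _).trans (hr 0)
  have hsl : ∀ j l, |Real.log ‖s j l‖| ≤ C * (1 + D + B + 1) * Real.log (T j) := by
    intro j l
    have h1 := hC (Real.exp (D * Real.log (T j))) (fun a b e' => eval (x j) (c a b e')) (s j)
      (Real.one_le_exp (mul_nonneg hD0 (by linarith [hT2 j]))) (hs0 j) (by
        intro a b e' he'
        obtain ⟨h2, h3⟩ := hcS j _ (hSF a b e' he')
        have h4 : 0 < ‖eval (x j) (c a b e')‖ := norm_pos_iff.2 h2
        rw [abs_le] at h3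
        constructor
        · rw [← Real.exp_neg, ← Real.le_log_iff_exp_le h4]
          linarith [h3.1]
        · rw [← Real.log_le_iff_le_exp h4]
          exact h3.2) (by
        intro a b _
        exact hFrel a b (x j) (s j) (hsF j)) l
    rw [Real.log_exp] at h1
    refine h1.trans ?_
    have h2 : |∑ l, α l * Real.log ‖s j l‖| ≤ B + 1 := by
      have h3 := hlev j
      have h4 : |(r j).re| ≤ B := (Complex.abs_re_le_norm _).trans (hr j)
      have h5 : 1 / ((j : ℝ) + 1) ≤ 1 := by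
        rw [div_le_one (by positivity)]
        have : (0 : ℝ) ≤ j := Nat.cast_nonneg j
        linarith
      rw [abs_le] at h3 h4 ⊢
      constructor <;> linarith [h3.1, h3.2, h4.1, h4.2]
    have h3 : 1 ≤ Real.log (T j) := hT2 j
    calc C * (1 + D * Real.log (T j) + |∑ l, α l * Real.log ‖s j l‖|)
        ≤ C * ((1 + D + B + 1) * Real.log (T j)) := by
          refine mul_le_mul_of_nonneg_left ?_ hC0
          nlinarith
      _ = _ := by ring
  refine ⟨C * (1 + D + B + 1), hαe, ?_⟩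
  -- limits
  set U : Ultrafilter ℕ := Filter.hyperfilter ℕ with hUd
  have hU : (U : Filter ℕ) ≤ atTop := Nat.hyperfilter_le_atTop
  choose γ hγ hγne using fun a b => norm_lim (U := U) (F a b)
    (fun j e' => eval (x j) (c a b e') * s j a ^ e'.1 * s j b ^ e'.2) (by
      intro j
      obtain ⟨e', he'⟩ := hFne a b
      exact ⟨e', he', mul_ne_zero (mul_ne_zero (hcS j _ (hSF a b e' he')).1
        (pow_ne_zero _ (hs0 j a))) (pow_ne_zero _ (hs0 j b))⟩)
  have hexd : ∀ i, ∃ d : ℕ → ℂ, G.T i → (∀ m ∈ FH i, Tendsto (fun j =>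
      eval (x j) (cf (Hh i) m) * s j i ^ m /
      ((∑ m' ∈ FH i, ‖eval (x j) (cf (Hh i) m') * s j i ^ m'‖ : ℝ) : ℂ)) U (𝓝 (d m))) ∧
      ∃ m ∈ FH i, d m ≠ 0 := by
    intro i
    by_cases hi : G.T i
    · obtain ⟨d, hd1, hd2⟩ := norm_lim (U := U) (FH i)
        (fun j m => eval (x j) (cf (Hh i) m) * s j i ^ m) (by
          intro j
          obtain ⟨m, hm⟩ := hFHne i hi
          exact ⟨m, hm, mul_ne_zero (hcS j _ (hSH i m hm)).1 (pow_ne_zero _ (hs0 j i))⟩)
      exact ⟨d, fun _ => ⟨hd1, hd2⟩⟩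
    · exact ⟨0, fun h => absurd h hi⟩
  choose d hd using hexd
  -- generic radius
  choose eA heA1 heA2 using hγne
  set qA : Fin n → Fin n → Polynomial ℂ := fun a b =>
    ∑ e' ∈ F a b with e'.2 = (eA a b).2, Polynomial.C (γ a b e') * Polynomial.X ^ e'.1 with hqA
  have hqA0 : ∀ a b, qA a b ≠ 0 := by
    intro a b h0
    have h1 := congrArg (fun q => Polynomial.coeff q (eA a b).1) h0
    simp only [hqA, Polynomial.finsetSum_coeff, Polynomial.coeff_C_mul_X_pow,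
      Polynomial.coeff_zero] at h1
    rw [Finset.sum_eq_single (eA a b)] at h1
    · rw [if_pos rfl] at h1
      exact heA2 a b h1
    · intro e' he' hne
      rw [if_neg]
      intro h2
      exact hne (Prod.ext h2.symm (Finset.mem_filter.1 he').2)
    · intro h2
      exact (h2 (Finset.mem_filter.2 ⟨heA1 a b, rfl⟩)).elim
  set qD : Fin n → Polynomial ℂ := fun a =>
    ∑ m ∈ FH a, Polynomial.C (d a m) * Polynomial.X ^ m with hqD
  have hqD0 : ∀ a, G.T a → qD a ≠ 0 := by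
    intro a ha h0
    obtain ⟨-, m, hm, hdm⟩ := hd a ha
    have h1 := congrArg (fun q => Polynomial.coeff q m) h0
    simp only [hqD, Polynomial.finsetSum_coeff, Polynomial.coeff_C_mul_X_pow,
      Polynomial.coeff_zero] at h1
    rw [Finset.sum_eq_single m] at h1
    · rw [if_pos rfl] at h1
      exact hdm h1
    · intro m' _ hne
      rw [if_neg (Ne.symm hne)]
    · intro h2
      exact absurd hm h2
  obtain ⟨ρ, hρ0, hρ1, hρQ⟩ := generic_radius
    ((Finset.univ.biUnion fun a => Finset.univ.image (qA a)) ∪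
      ((Finset.univ.filter fun a => G.T a).image qD)) (by
      intro q hq
      rw [Finset.mem_union] at hq
      rcases hq with hq | hq
      · simp only [Finset.mem_biUnion, Finset.mem_univ, true_and, Finset.mem_image] at hq
        obtain ⟨a, b, rfl⟩ := hq
        exact hqA0 a b
      · simp only [Finset.mem_image, Finset.mem_filter, Finset.mem_univ, true_and] at hq
        obtain ⟨a, ha, rfl⟩ := hq
        exact hqD0 a ha)
  have hρA : ∀ a b, ∀ z : ℂ, ‖z - 1‖ = ρ → (qA a b).eval z ≠ 0 := by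
    intro a b
    apply hρQ
    rw [Finset.mem_union]
    left
    simp only [Finset.mem_biUnion, Finset.mem_univ, true_and, Finset.mem_image]
    exact ⟨a, b, rfl⟩
  have hρD : ∀ a, G.T a → ∀ z : ℂ, ‖z - 1‖ = ρ → (qD a).eval z ≠ 0 := by
    intro a ha
    apply hρQ
    rw [Finset.mem_union]
    right
    simp only [Finset.mem_image, Finset.mem_filter, Finset.mem_univ, true_and]
    exact ⟨a, ha, rfl⟩
  -- exit
  choose p hpF hpH hplev hpρ lj hlj using fun j : ℕ => hsex j ρ hρ0 (by linarith)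
  obtain ⟨i, hi⟩ : ∃ i, ∀ᶠ j in (U : Filter ℕ), lj j = i := by
    rw [← Ultrafilter.eventually_exists_iff]
    exact Eventually.of_forall fun j => ⟨lj j, rfl⟩
  obtain ⟨zs, hzs⟩ := ulim (U := U) (f := fun j => p j i / s j i) (C := 2)
    (Eventually.of_forall fun j => by
      have h1 := hpρ j i
      have h2 : ‖p j i / s j i‖ ≤ ‖p j i / s j i - 1‖ + ‖(1 : ℂ)‖ := by
        have := norm_add_le (p j i / s j i - 1) 1
        rwa [sub_add_cancel] at this
      rw [norm_one] at h2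
      linarith)
  have hzρ : ‖zs - 1‖ = ρ := by
    have h1 : Tendsto (fun j => ‖p j i / s j i - 1‖) U (𝓝 ‖zs - 1‖) := (hzs.sub_const 1).norm
    have h2 : (fun j => ‖p j i / s j i - 1‖) =ᶠ[(U : Filter ℕ)] fun _ => ρ := by
      filter_upwards [hi] with j hj
      rw [← hj]; exact hlj j
    exact (tendsto_nhds_unique (tendsto_const_nhds.congr' h2.symm) h1).symm
  have hqAe : ∀ a b z, (qA a b).eval z =
      ∑ e' ∈ F a b with e'.2 = (eA a b).2, γ a b e' * z ^ e'.1 := by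
    intro a b z
    rw [hqA]
    simp only [Polynomial.eval_finsetSum]
    simp
  have hTi : G.T i := by
    by_contra hTi
    have h0 := hFT i i hTi
    apply hρA i i zs hzρ
    rw [hqAe, Finset.filter_true_of_mem (fun e' he' => by
      rw [h0 e' he', h0 _ (heA1 i i)])]
    have h1 : Tendsto (fun j => ∑ e' ∈ F i i, eval (x j) (c i i e') * s j i ^ e'.1 *
        s j i ^ e'.2 / ((∑ e'' ∈ F i i, ‖eval (x j) (c i i e'') * s j i ^ e''.1 *
        s j i ^ e''.2‖ : ℝ) : ℂ) * (p j i / s j i) ^ e'.1) U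
        (𝓝 (∑ e' ∈ F i i, γ i i e' * zs ^ e'.1)) :=
      tendsto_finsetSum _ fun e' he' => (hγ i i e' he').mul (hzs.pow _)
    refine tendsto_nhds_unique h1 (tendsto_const_nhds.congr fun j => ?_)
    have h2 := hFrel i i (x j) (p j) (hpF j)
    set M : ℂ := ((∑ e'' ∈ F i i, ‖eval (x j) (c i i e'') * s j i ^ e''.1 *
        s j i ^ e''.2‖ : ℝ) : ℂ)
    have h3 : ∑ e' ∈ F i i, eval (x j) (c i i e') * s j i ^ e'.1 *
        s j i ^ e'.2 / M * (p j i / s j i) ^ e'.1 =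
        (∑ e' ∈ F i i, eval (x j) (c i i e') * p j i ^ e'.1 * p j i ^ e'.2) / M := by
      rw [Finset.sum_div]
      refine Finset.sum_congr rfl fun e' he' => ?_
      rw [h0 e' he', pow_zero, pow_zero, div_pow]
      have := pow_ne_zero e'.1 (hs0 j i)
      field_simp
    rw [h3, h2, zero_div]
  exact ⟨{
    U := U
    hU := hU
    i := i
    Hh := Hh i
    good := hHh i hTi
    F := F
    c := c
    hrel := hFrel
    Fh := FH i
    hFh := hFHsum i
    T := T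
    k := k
    r := r
    w := w
    s := s
    p := p
    hT := hT1'
    hT1 := hT2
    hr := hr
    hwd := hwd
    hP := fun j u hu => (hchart j u hu).1
    hw := fun j u hu => (hchart j u hu).2.1
    hratF := fun j u hu a b e' he' => (hchart j u hu).2.2 _ (hSF a b e' he')
    hratH := fun j u hu m hm => (hchart j u hu).2.2 _ (hSH i m hm)
    hcF := fun j a b e' he' => (hcS j _ (hSF a b e' he')).1
    hcH := fun j m hm => (hcS j _ (hSH i m hm)).1
    hs := hsF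
    hs0 := hs0
    hlev := hlev
    hsl := Eventually.of_forall hsl
    hp := hpF
    hplev := hplev
    hps := fun j l => (hpρ j l).trans hρ1.le
    zs := zs
    hzs := hzs
    γ := γ
    hγ := hγ
    hγne := fun a b => ⟨eA a b, heA1 a b, heA2 a b⟩
    hγi := fun l => ⟨(eA i l).2, by
      rw [← hqAe]
      exact hρA i l zs hzρ⟩
    d := d i
    hd := (hd i hTi).1
    hdne := by
      have h1 := hρD i hTi zs hzρ
      rw [hqD] at h1
      simp only [Polynomial.eval_finsetSum] at h1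
      simpa using h1 }⟩

end Pool.Agent.H664.FH
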