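import Pool.Agent.H664.FH.Stage

/-! Project FH (helper664): the core theorem. -/

set_option autoImplicit false

namespace Pool.Agent.H664.FH

open MvPolynomial Filter Topology Metric Pool.Agent.W996.EC Pool.Agent.Q72.EG

theorem pert {ι : Type} {F : Finset ι} {c0 c1 γ : ι → ℂ} {δ ε : ℝ} {e : ι}
    (he : e ∈ F) (hc0 : c0 e ≠ 0) (h1 : ‖c1 e / c0 e - 1‖ ≤ δ)
    (h2 : ‖c0 e / ((∑ e' ∈ F, ‖c0 e'‖ : ℝ) : ℂ) - γ e‖ + δ < ε) :
    ‖c1 e / ((∑ e' ∈ F, ‖c0 e'‖ : ℝ) : ℂ) - γ e‖ < ε := by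
  set M : ℝ := ∑ e' ∈ F, ‖c0 e'‖ with hM
  have hM0 : 0 < M := Finset.sum_pos' (fun _ _ => norm_nonneg _) ⟨e, he, norm_pos_iff.2 hc0⟩
  have hMc : (M : ℂ) ≠ 0 := by exact_mod_cast hM0.ne'
  have h3 : ‖c0 e / (M : ℂ)‖ ≤ 1 := by
    rw [norm_div, Complex.norm_real, Real.norm_of_nonneg hM0.le, div_le_one hM0]
    exact Finset.single_le_sum (f := fun e' => ‖c0 e'‖) (fun _ _ => norm_nonneg _) he
  have h4 : c1 e / (M : ℂ) - γ e = (c0 e / (M : ℂ)) * (c1 e / c0 e - 1) +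
      (c0 e / (M : ℂ) - γ e) := by
    field_simp
    ring
  rw [h4]
  refine lt_of_le_of_lt (norm_add_le _ _) ?_
  rw [norm_mul]
  have h5 : ‖c0 e / (M : ℂ)‖ * ‖c1 e / c0 e - 1‖ ≤ 1 * δ :=
    mul_le_mul h3 h1 (norm_nonneg _) zero_le_one
  linarith

theorem exists_pos_le {m : ℕ} (η : Fin m → ℝ) (h : ∀ l, 0 < η l) (a : ℝ) (ha : 0 < a) :
    ∃ ε : ℝ, 0 < ε ∧ ε ≤ a ∧ ∀ l, ε ≤ η l := by
  induction m with
  | zero => exact ⟨a, ha, le_rfl, fun l => l.elim0⟩
  | succ m ih =>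
    obtain ⟨ε, h1, h2, h3⟩ := ih (fun l => η l.castSucc) (fun l => h _)
    refine ⟨min ε (η (Fin.last m)), lt_min h1 (h _), (min_le_left _ _).trans h2, fun l => ?_⟩
    refine Fin.lastCases ?_ (fun l => ?_) l
    · exact min_le_right _ _
    · exact (min_le_left _ _).trans (h3 l)

/-- the condition on `j` -/
def Cond {n : ℕ} {E : Type} [Field E] [Algebra ℂ E] {G : Cv n E}
    {H0 : MvPolynomial (Fin n ⊕ Fin n) ℂ} {α e : Fin n → ℝ} {B C1 : ℝ}
    (St : Stage G H0 α e B C1) (ε : ℝ) (j : ℕ) : Prop :=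
  (∀ l, ∀ e' ∈ St.F St.i l, ‖eval (cp (St.k j) e (St.w j) 0) (St.c St.i l e') *
    St.s j St.i ^ e'.1 * St.s j l ^ e'.2 /
    ((∑ e'' ∈ St.F St.i l, ‖eval (cp (St.k j) e (St.w j) 0) (St.c St.i l e'') *
      St.s j St.i ^ e''.1 * St.s j l ^ e''.2‖ : ℝ) : ℂ) - St.γ St.i l e'‖ + 1 / ((j : ℝ) + 1) < ε) ∧
  (∀ m ∈ St.Fh, ‖eval (cp (St.k j) e (St.w j) 0) (cf St.Hh m) * St.s j St.i ^ m /
    ((∑ m' ∈ St.Fh, ‖eval (cp (St.k j) e (St.w j) 0) (cf St.Hh m') * St.s j St.i ^ m'‖ : ℝ) : ℂ) -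
    St.d m‖ + 1 / ((j : ℝ) + 1) < ε) ∧
  St.p j St.i / St.s j St.i ∈ ball St.zs (ε / 8)

theorem cond_ev {n : ℕ} {E : Type} [Field E] [Algebra ℂ E] {G : Cv n E}
    {H0 : MvPolynomial (Fin n ⊕ Fin n) ℂ} {α e : Fin n → ℝ} {B C1 : ℝ}
    (St : Stage G H0 α e B C1) {ε : ℝ} (hε : 0 < ε) :
    ∀ᶠ j in (St.U : Filter ℕ), Cond St ε j := by
  have h0 : Tendsto (fun j : ℕ => 1 / ((j : ℝ) + 1)) St.U (𝓝 0) :=
    tendsto_one_div_add_atTop_nhds_zero_nat.mono_left St.hU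
  have hkey : ∀ {f : ℕ → ℂ} {a : ℂ}, Tendsto f St.U (𝓝 a) →
      ∀ᶠ j in (St.U : Filter ℕ), ‖f j - a‖ + 1 / ((j : ℝ) + 1) < ε := by
    intro f a hf
    have h1 := (tendsto_iff_norm_sub_tendsto_zero.1 hf).add h0
    rw [add_zero] at h1
    exact h1.eventually (gt_mem_nhds hε)
  refine (eventually_all.2 fun l => ?_).and (Eventually.and ?_ ?_)
  · rw [Finset.eventually_all]
    intro e' he'
    exact hkey (St.hγ St.i l e' he')
  · rw [Finset.eventually_all]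
    intro m hm
    exact hkey (St.hd m hm)
  · exact St.hzs.eventually (ball_mem_nhds _ (by positivity))

/-- the logarithms on the sheets over the pieces -/
theorem logs {n : ℕ} {E : Type} [Field E] [Algebra ℂ E] {G : Cv n E}
    {H0 : MvPolynomial (Fin n ⊕ Fin n) ℂ} {α e : Fin n → ℝ} {B C1 : ℝ}
    (St : Stage G H0 α e B C1) : ∃ (ε : ℝ) (C : Fin n → ℝ), 0 < ε ∧ (∀ l, 2 < C l) ∧
    ∀ j, Cond St (8 * ε) j → ∃ L : (Fin n → ℂ) → ℂ → Fin n → ℂ,
      DifferentiableOn ℂ (fun v : (Fin n → ℂ) × ℂ => L v.1 v.2)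
        (ball 0 (Real.log (St.T j) ^ 2 / 2) ×ˢ ball St.zs ε) ∧
      (∀ u ∈ ball (0 : Fin n → ℂ) (Real.log (St.T j) ^ 2 / 2), ∀ z ∈ ball St.zs ε, ∀ l,
        ‖L u z l‖ ≤ 6 * Real.log (C l) + 10) ∧
      (∀ u ∈ ball (0 : Fin n → ℂ) (Real.log (St.T j) ^ 2 / 2), ∀ z ∈ ball St.zs ε,
        (fun l => St.s j l * Complex.exp (L u z l)) ∈ Fib G (cp (St.k j) e (St.w j) u) ∧
        Complex.exp (L u z St.i) = z ∧
        eval (oe (St.s j St.i * z) (cp (St.k j) e (St.w j) u)) St.Hh ≠ 0) ∧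
      ∀ l, Complex.exp (L 0 (St.p j St.i / St.s j St.i) l) = St.p j l / St.s j l := by
  classical
  choose C η hC hη hrob using fun l => robust (St.F St.i l) Prod.fst Prod.snd (St.γ St.i l) St.zs
    (St.hγi l)
  obtain ⟨CH, ηH, hCH, hηH, hrobH⟩ := robust St.Fh id (fun _ => 0) St.d St.zs
    ⟨0, by simpa using St.hdne⟩
  obtain ⟨ε, hε, hεH, hεl⟩ := exists_pos_le η hη ηH hηH
  refine ⟨ε / 8, C, by positivity, hC, fun j hj => ?_⟩
  rw [mul_div_cancel₀ ε (by norm_num : (8 : ℝ) ≠ 0)] at hj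
  obtain ⟨hj1, hj2, hj3⟩ := hj
  have hΛ : 0 < Real.log (St.T j) ^ 2 := by
    have := St.hT1 j
    positivity
  have hH1 : ∀ u ∈ ball (0 : Fin n → ℂ) (Real.log (St.T j) ^ 2), ∀ z ∈ ball St.zs ε,
      eval (oe (St.s j St.i * z) (cp (St.k j) e (St.w j) u)) St.Hh ≠ 0 := by
    intro u hu z hz
    rw [St.hFh _ _ (St.hP j u hu)]
    set M : ℂ := ((∑ m' ∈ St.Fh, ‖eval (cp (St.k j) e (St.w j) 0) (cf St.Hh m') *
      St.s j St.i ^ m'‖ : ℝ) : ℂ) with hM
    have h1 := hrobH z (ball_subset_ball hεH hz) (fun m =>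
      eval (cp (St.k j) e (St.w j) u) (cf St.Hh m) * St.s j St.i ^ m / M) (by
        intro m hm
        refine pert (F := St.Fh)
          (c0 := fun m => eval (cp (St.k j) e (St.w j) 0) (cf St.Hh m) * St.s j St.i ^ m)
          (c1 := fun m => eval (cp (St.k j) e (St.w j) u) (cf St.Hh m) * St.s j St.i ^ m)
          hm (mul_ne_zero (St.hcH j m hm) (pow_ne_zero _ (St.hs0 j _)))
          ?_ ((hj2 m hm).trans_le hεH)
        show ‖eval (cp (St.k j) e (St.w j) u) (cf St.Hh m) * St.s j St.i ^ m /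
          (eval (cp (St.k j) e (St.w j) 0) (cf St.Hh m) * St.s j St.i ^ m) - 1‖ ≤ _
        rw [mul_div_mul_right _ _ (pow_ne_zero _ (St.hs0 j _))]
        exact St.hratH j u hu m hm) ((CH : ℝ) : ℂ) (Or.inl (by
          rw [Complex.norm_real, Real.norm_of_nonneg (by linarith)]))
    intro h2
    apply h1
    have h3 : ∑ m ∈ St.Fh, eval (cp (St.k j) e (St.w j) u) (cf St.Hh m) * St.s j St.i ^ m / M *
        z ^ id m * ((CH : ℝ) : ℂ) ^ 0 =
        (∑ m ∈ St.Fh, eval (cp (St.k j) e (St.w j) u) (cf St.Hh m) * (St.s j St.i * z) ^ m) / M := by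
      rw [Finset.sum_div]
      refine Finset.sum_congr rfl fun m _ => ?_
      simp only [id, pow_zero, mul_one, mul_pow]
      ring
    rw [h3, h2, zero_div]
  obtain ⟨L, hL1, hL2, hL3, hL4⟩ := piece G St.good hΛ hε C hC (St.hwd j) (St.hP j) (St.hs0 j)
    (St.hp j) hj3 hH1 (by
      intro u hu z hz p' hp' hpi l
      set M : ℂ := ((∑ e'' ∈ St.F St.i l, ‖eval (cp (St.k j) e (St.w j) 0) (St.c St.i l e'') *
        St.s j St.i ^ e''.1 * St.s j l ^ e''.2‖ : ℝ) : ℂ) with hM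
      have h1 := hrob l z (ball_subset_ball (hεl l) hz) (fun e' =>
        eval (cp (St.k j) e (St.w j) u) (St.c St.i l e') * St.s j St.i ^ e'.1 *
          St.s j l ^ e'.2 / M) (by
        intro e' he'
        have hne : St.s j St.i ^ e'.1 * St.s j l ^ e'.2 ≠ 0 :=
          mul_ne_zero (pow_ne_zero _ (St.hs0 j _)) (pow_ne_zero _ (St.hs0 j _))
        refine pert (F := St.F St.i l)
          (c0 := fun e' => eval (cp (St.k j) e (St.w j) 0) (St.c St.i l e') *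
            St.s j St.i ^ e'.1 * St.s j l ^ e'.2)
          (c1 := fun e' => eval (cp (St.k j) e (St.w j) u) (St.c St.i l e') *
            St.s j St.i ^ e'.1 * St.s j l ^ e'.2)
          he' (by
            simp only [mul_assoc]
            exact mul_ne_zero (St.hcF j _ _ e' he') hne)
          ?_ ((hj1 l e' he').trans_le (hεl l))
        simp only [mul_assoc]
        rw [mul_div_mul_right _ _ hne]
        exact St.hratF j u hu _ _ e' he')
      have h2 : ∑ e' ∈ St.F St.i l, eval (cp (St.k j) e (St.w j) u) (St.c St.i l e') *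
          St.s j St.i ^ e'.1 * St.s j l ^ e'.2 / M * z ^ Prod.fst e' *
          (p' l / St.s j l) ^ Prod.snd e' = 0 := by
        have h3 := St.hrel St.i l _ p' hp'
        have h4 : ∑ e' ∈ St.F St.i l, eval (cp (St.k j) e (St.w j) u) (St.c St.i l e') *
          St.s j St.i ^ e'.1 * St.s j l ^ e'.2 / M * z ^ Prod.fst e' *
          (p' l / St.s j l) ^ Prod.snd e' = (∑ e' ∈ St.F St.i l,
            eval (cp (St.k j) e (St.w j) u) (St.c St.i l e') * p' St.i ^ e'.1 * p' l ^ e'.2) / M := by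
          rw [Finset.sum_div]
          refine Finset.sum_congr rfl fun e' _ => ?_
          rw [hpi, div_pow, mul_pow]
          have := pow_ne_zero e'.2 (St.hs0 j l)
          field_simp
        rw [h4, h3, zero_div]
      constructor
      · intro h3
        exact h1 (p' l / St.s j l) (Or.inl h3) h2
      · intro h3
        exact h1 (p' l / St.s j l) (Or.inr h3) h2) (by
      intro l
      have h1 := St.hps j l
      have h2 : ‖St.p j l / St.s j l‖ ≤ 1 + 1 / 4 := by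
        have := norm_add_le (St.p j l / St.s j l - 1) 1
        rw [sub_add_cancel, norm_one] at this
        linarith
      have h3 : 1 - 1 / 4 ≤ ‖St.p j l / St.s j l‖ := by
        have := norm_sub_norm_le (1 : ℂ) (1 - St.p j l / St.s j l)
        rw [sub_sub_cancel, norm_one, norm_sub_rev] at this
        linarith
      have h4 : (C l)⁻¹ ≤ 1 / 2 := by
        rw [inv_le_comm₀ (by linarith [hC l]) (by norm_num)]
        norm_num
        exact (hC l).le
      constructor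
      · linarith
      · linarith [hC l])
  refine ⟨L, hL1, hL2, fun u hu z hz => ⟨(hL3 u hu z hz).1, (hL3 u hu z hz).2, ?_⟩, hL4⟩
  exact hH1 u (ball_subset_ball (by linarith) hu) z (ball_subset_ball (by linarith) hz)

end Pool.Agent.H664.FH
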