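import Pool.Agent.H664.FH.Stm

/-! Project FH (helper664): basic lemmas. -/

set_option autoImplicit false

namespace Pool.Agent.H664.FH

open MvPolynomial Filter Topology Metric Pool.Agent.W996.EC Pool.Agent.Q72.EG

/-- limits along an ultrafilter -/
theorem ulim {U : Ultrafilter ℕ} {f : ℕ → ℂ} {C : ℝ} (hf : ∀ᶠ j in (U : Filter ℕ), ‖f j‖ ≤ C) :
    ∃ a : ℂ, Tendsto f U (𝓝 a) := by
  have h1 : closedBall (0 : ℂ) C ∈ U.map f := by
    show f ⁻¹' closedBall (0 : ℂ) C ∈ U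
    filter_upwards [hf] with j hj
    simpa using hj
  obtain ⟨a, -, ha⟩ := (isCompact_closedBall (0 : ℂ) C).ultrafilter_le_nhds (U.map f)
    (le_principal_iff.2 h1)
  exact ⟨a, ha⟩

theorem ulim_vec {m : ℕ} {U : Ultrafilter ℕ} {f : ℕ → Fin m → ℂ} {C : ℝ}
    (hf : ∀ᶠ j in (U : Filter ℕ), ‖f j‖ ≤ C) : ∃ a : Fin m → ℂ, Tendsto f U (𝓝 a) := by
  have h1 : ∀ l, ∃ a : ℂ, Tendsto (fun j => f j l) U (𝓝 a) := fun l =>
    ulim (hf.mono fun j hj => (norm_le_pi_norm _ _).trans hj)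
  choose a ha using h1
  exact ⟨a, tendsto_pi_nhds.2 ha⟩

theorem isClosed_Pt {E : Type} [Field E] [Algebra ℂ E] {σ : Type} (ξ : σ → E) :
    IsClosed (Pt ξ) := by
  have : Pt ξ = ⋂ (g : MvPolynomial σ ℂ) (_ : aeval ξ g = 0), {p | eval p g = 0} := by
    ext p; simp [Pt]
  rw [this]
  refine isClosed_iInter fun g => isClosed_iInter fun _ => ?_
  exact isClosed_eq (MvPolynomial.continuous_eval g) continuous_const

/-- the fibre over `x` -/
def Fib {n : ℕ} {E : Type} [Field E] [Algebra ℂ E] (G : Cv n E) (x : Fin n → ℂ) :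
    Set (Fin n → ℂ) := {p | Sum.elim x p ∈ Pt (Sum.elim G.x G.y)}

theorem isClosed_Fib {n : ℕ} {E : Type} [Field E] [Algebra ℂ E] (G : Cv n E) (x : Fin n → ℂ) :
    IsClosed (Fib G x) := by
  have h : Continuous (fun p : Fin n → ℂ => (Sum.elim x p : Fin n ⊕ Fin n → ℂ)) := by
    refine continuous_pi fun i => ?_
    rcases i with l | l
    · simp only [Sum.elim_inl]; exact continuous_const
    · simp only [Sum.elim_inr]; exact continuous_apply l
  exact (isClosed_Pt _).preimage h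

/-- the polynomial `∑ c_e X^e.1 Y^e.2` -/
noncomputable def f2 (F : Finset (ℕ × ℕ)) (c : ℕ × ℕ → ℂ) : MvPolynomial (Fin 2) ℂ :=
  ∑ e ∈ F, C (c e) * X 0 ^ e.1 * X 1 ^ e.2

theorem eval_f2 (F : Finset (ℕ × ℕ)) (c : ℕ × ℕ → ℂ) (a b : ℂ) :
    eval ![a, b] (f2 F c) = ∑ e ∈ F, c e * a ^ e.1 * b ^ e.2 := by
  simp [f2]

theorem f2_ne {F : Finset (ℕ × ℕ)} {c : ℕ × ℕ → ℂ} (h : ∃ e ∈ F, c e ≠ 0) : f2 F c ≠ 0 := by
  classical
  obtain ⟨e0, he0, hc⟩ := h
  intro h0
  set m : ℕ × ℕ → (Fin 2 →₀ ℕ) := fun e => Finsupp.single 0 e.1 + Finsupp.single 1 e.2 with hm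
  have hmon : ∀ e, (C (c e) * X 0 ^ e.1 * X 1 ^ e.2 : MvPolynomial (Fin 2) ℂ) =
      monomial (m e) (c e) := by
    intro e
    rw [hm]
    rw [C_mul_X_pow_eq_monomial, X_pow_eq_monomial, monomial_mul, mul_one]
  have hinj : ∀ e e', m e = m e' → e = e' := by
    intro e e' h
    have h1 := DFunLike.congr_fun h 0
    have h2 := DFunLike.congr_fun h 1
    simp [hm] at h1 h2
    exact Prod.ext h1 h2
  have h1 := congrArg (coeff (m e0)) h0
  rw [f2, coeff_sum, Finset.sum_eq_single e0] at h1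
  · rw [hmon, coeff_monomial, if_pos rfl, coeff_zero] at h1
    exact hc h1
  · intro b _ hb
    rw [hmon, coeff_monomial, if_neg]
    intro h2
    exact hb (hinj _ _ h2)
  · intro h2; exact absurd he0 h2

/-- specialisation of `x` -/
noncomputable def spx {n : ℕ} (x : Fin n → ℂ) (g : MvPolynomial (Fin n ⊕ Fin n) ℂ) :
    MvPolynomial (Fin n) ℂ := bind₁ (Sum.elim (fun l => C (x l)) X) g

theorem eval_spx {n : ℕ} (x p : Fin n → ℂ) (g : MvPolynomial (Fin n ⊕ Fin n) ℂ) :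
    eval p (spx x g) = eval (Sum.elim x p) g := by
  unfold spx
  rw [← MvPolynomial.coe_aeval_eq_eval, ← MvPolynomial.coe_aeval_eq_eval]
  simp only [RingHom.coe_coe]
  rw [MvPolynomial.aeval_bind₁]
  congr 1
  congr 1
  funext i
  rcases i with l | l <;> simp

/-- the polynomial `z ↦ H(x, z)` -/
noncomputable def bz {n : ℕ} (H : MvPolynomial (Option (Fin n)) ℂ) (x : Fin n → ℂ) :
    Polynomial ℂ :=
  ∑ j ∈ Finset.range ((optionEquivLeft ℂ (Fin n) H).natDegree + 1),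
    Polynomial.C (eval x (cf H j)) * Polynomial.X ^ j

theorem eval_bz {n : ℕ} (H : MvPolynomial (Option (Fin n)) ℂ) (x : Fin n → ℂ) (z : ℂ) :
    (bz H x).eval z = eval (oe z x) H := by
  rw [eval_oe_sum, bz, Polynomial.eval_finsetSum]
  simp

theorem bz_ne {n : ℕ} {H : MvPolynomial (Option (Fin n)) ℂ} {x : Fin n → ℂ} {j : ℕ}
    (h : eval x (cf H j) ≠ 0) : bz H x ≠ 0 := by
  intro h0
  have h1 := congrArg (fun p => Polynomial.coeff p j) h0
  simp only [bz, Polynomial.finsetSum_coeff, Polynomial.coeff_C_mul_X_pow,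
    Polynomial.coeff_zero] at h1
  have hmem : j ∈ Finset.range ((optionEquivLeft ℂ (Fin n) H).natDegree + 1) := by
    rw [Finset.mem_range, Nat.lt_succ_iff]
    apply Polynomial.le_natDegree_of_ne_zero
    intro h2
    apply h
    rw [cf, h2, map_zero]
  rw [Finset.sum_eq_single j] at h1
  · simp at h1; exact h h1
  · intro b _ hb
    rw [if_neg (Ne.symm hb)]
  · intro h2; exact absurd hmem h2

end Pool.Agent.H664.FH
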