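import Pool.Agent.H664.FH.Asm

/-! Project FH (helper664): the core theorem. -/

set_option autoImplicit false

namespace Pool.Agent.H664.FH

open MvPolynomial Filter Topology Metric Pool.Agent.W996.EC Pool.Agent.Q72.EG

theorem core (hcurve : S_curve) (hexit : S_exit) (hcoer : S_coer) (hfs : S_fsolve)
    (hgoodS : S_good) (hrelS : S_rel) : S_core' := by
  classical
  intro n E _ _ G H0 α hn hα hT hH hprep
  obtain ⟨e, B, C1, hαe, ⟨St⟩⟩ := stage hcurve hexit hcoer hgoodS hrelS G H0 α hα hT hH hprep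
  obtain ⟨ε, C, hε, hC, hlogs⟩ := logs St
  have hex : ∀ j, ∃ L : (Fin n → ℂ) → ℂ → Fin n → ℂ, Cond St (8 * ε) j →
      DifferentiableOn ℂ (fun v : (Fin n → ℂ) × ℂ => L v.1 v.2)
        (ball 0 (Real.log (St.T j) ^ 2 / 2) ×ˢ ball St.zs ε) ∧
      (∀ u ∈ ball (0 : Fin n → ℂ) (Real.log (St.T j) ^ 2 / 2), ∀ z ∈ ball St.zs ε, ∀ l,
        ‖L u z l‖ ≤ 6 * Real.log (C l) + 10) ∧
      (∀ u ∈ ball (0 : Fin n → ℂ) (Real.log (St.T j) ^ 2 / 2), ∀ z ∈ ball St.zs ε,
        (fun l => St.s j l * Complex.exp (L u z l)) ∈ Fib G (cp (St.k j) e (St.w j) u) ∧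
        Complex.exp (L u z St.i) = z ∧
        eval (oe (St.s j St.i * z) (cp (St.k j) e (St.w j) u)) St.Hh ≠ 0) ∧
      ∀ l, Complex.exp (L 0 (St.p j St.i / St.s j St.i) l) = St.p j l / St.s j l := by
    intro j
    by_cases hj : Cond St (8 * ε) j
    · obtain ⟨L, hL⟩ := hlogs j hj
      exact ⟨L, fun _ => hL⟩
    · exact ⟨0, fun h => absurd h hj⟩
  choose L hL using hex
  have hcond : ∀ᶠ j in (St.U : Filter ℕ), Cond St (8 * ε) j := cond_ev St (by positivity)
  set Λ : ℕ → ℝ := fun j => Real.log (St.T j) ^ 2 / 2 with hΛd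
  have hlT : ∀ j, 1 ≤ Real.log (St.T j) := St.hT1
  have h0Λ : ∀ j, (0 : Fin n → ℂ) ∈ ball (0 : Fin n → ℂ) (Λ j) := fun j =>
    mem_ball_self (by have := hlT j; simp only [hΛd]; positivity)
  set Cb : ℝ := ∑ l, (6 * Real.log (C l) + 10) with hCb
  have hCl : ∀ l, 0 ≤ 6 * Real.log (C l) + 10 := fun l => by
    have := Real.log_nonneg (by linarith [hC l] : (1 : ℝ) ≤ C l)
    linarith
  have hCb0 : 0 ≤ Cb := Finset.sum_nonneg fun l _ => hCl l
  have hLb : ∀ j, Cond St (8 * ε) j → ∀ u ∈ ball (0 : Fin n → ℂ) (Λ j), ∀ z ∈ ball St.zs ε,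
      ‖L j u z‖ ≤ Cb := by
    intro j hj u hu z hz
    rw [pi_norm_le_iff_of_nonneg hCb0]
    intro l
    exact ((hL j hj).2.1 u hu z hz l).trans
      (Finset.single_le_sum (f := fun l => 6 * Real.log (C l) + 10) (fun l _ => hCl l)
        (Finset.mem_univ l))
  -- limits
  have hLiex : ∀ z, ∃ a : Fin n → ℂ, z ∈ ball St.zs ε →
      Tendsto (fun j => L j 0 z) St.U (𝓝 a) := by
    intro z
    by_cases hz : z ∈ ball St.zs ε
    · obtain ⟨a, ha⟩ := ulim_vec (U := St.U) (f := fun j => L j 0 z) (C := Cb)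
        (hcond.mono fun j hj => hLb j hj 0 (h0Λ j) z hz)
      exact ⟨a, fun _ => ha⟩
    · exact ⟨0, fun h => absurd h hz⟩
  choose Li hLi using hLiex
  have hLil : ∀ l, ∀ z ∈ ball St.zs ε, Tendsto (fun j => L j 0 z l) St.U (𝓝 (Li z l)) :=
    fun l z hz => (tendsto_pi_nhds.1 (hLi z hz)) l
  have hmon : ∀ l, TendstoLocallyUniformlyOn (fun j z => L j 0 z l) (fun z => Li z l) St.U
      (ball St.zs ε) ∧ DifferentiableOn ℂ (fun z => Li z l) (ball St.zs ε) := fun l =>
    mon (C := Cb) (hcond.mono fun j hj => ⟨by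
      have h1 := differentiableOn_pi.1 (hL j hj).1 l
      refine h1.comp (f := fun z : ℂ => ((0 : Fin n → ℂ), z)) (t := ball 0 (Λ j) ×ˢ ball St.zs ε)
        ?_ fun z hz => ⟨h0Λ j, hz⟩
      exact (differentiable_const _).differentiableOn.prodMk differentiableOn_id,
      fun z hz => (norm_le_pi_norm _ l).trans (hLb j hj 0 (h0Λ j) z hz)⟩) (hLil l)
  have hzsb : St.zs ∈ ball St.zs ε := mem_ball_self hε
  have hval : ∀ l, Tendsto (fun j => L j 0 (St.p j St.i / St.s j St.i) l) St.U
      (𝓝 (Li St.zs l)) := by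
    intro l
    refine (hmon l).1.tendsto_comp (g := fun j => St.p j St.i / St.s j St.i)
      ((hmon l).2.continuousOn St.zs hzsb) hzsb ?_
    rw [tendsto_nhdsWithin_iff]
    exact ⟨St.hzs, St.hzs.eventually (ball_mem_nhds _ hε)⟩
  have hre : ∑ l, α l * (Li St.zs l).re = 0 := by
    have h1 : Tendsto (fun j => ∑ l, α l * (L j 0 (St.p j St.i / St.s j St.i) l).re) St.U
        (𝓝 (∑ l, α l * (Li St.zs l).re)) :=
      tendsto_finsetSum _ fun l _ =>
        ((Complex.continuous_re.tendsto _).comp (hval l)).const_mul _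
    refine tendsto_nhds_unique h1 (tendsto_const_nhds.congr' ?_)
    filter_upwards [hcond] with j hj
    have h2 : ∀ l, (L j 0 (St.p j St.i / St.s j St.i) l).re =
        Real.log ‖St.p j l‖ - Real.log ‖St.s j l‖ := by
      intro l
      have h3 := congrArg norm ((hL j hj).2.2.2 l)
      rw [Complex.norm_exp, norm_div] at h3
      have hs : ‖St.s j l‖ ≠ 0 := norm_ne_zero_iff.2 (St.hs0 j l)
      have hp : ‖St.p j l‖ ≠ 0 := by
        intro h4
        rw [h4, zero_div] at h3
        exact (Real.exp_pos _).ne' h3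
      have h4 := congrArg Real.log h3
      rwa [Real.log_exp, Real.log_div hp hs] at h4
    simp only [h2, mul_sub, Finset.sum_sub_distrib]
    rw [St.hplev j, sub_self]
  -- the limit curve
  set g : ℂ → Fin n → ℂ := fun z l => Complex.exp (Li z l) with hg
  have hgi : ∀ z ∈ ball St.zs ε, g z St.i = z := by
    intro z hz
    have h1 : Tendsto (fun j => Complex.exp (L j 0 z St.i)) St.U (𝓝 (Complex.exp (Li z St.i))) :=
      (Complex.continuous_exp.tendsto _).comp (hLil St.i z hz)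
    refine tendsto_nhds_unique h1 (tendsto_const_nhds.congr' ?_)
    filter_upwards [hcond] with j hj
    exact ((hL j hj).2.2.1 0 (h0Λ j) z hz).2.1.symm
  have hgrel : ∀ a b, ∀ z ∈ ball St.zs ε,
      ∑ e' ∈ St.F a b, St.γ a b e' * g z a ^ e'.1 * g z b ^ e'.2 = 0 := by
    intro a b z hz
    have h1 : Tendsto (fun j => ∑ e' ∈ St.F a b,
        eval (cp (St.k j) e (St.w j) 0) (St.c a b e') * St.s j a ^ e'.1 * St.s j b ^ e'.2 /
        ((∑ e'' ∈ St.F a b, ‖eval (cp (St.k j) e (St.w j) 0) (St.c a b e'') * St.s j a ^ e''.1 *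
          St.s j b ^ e''.2‖ : ℝ) : ℂ) * Complex.exp (L j 0 z a) ^ e'.1 *
          Complex.exp (L j 0 z b) ^ e'.2) St.U
        (𝓝 (∑ e' ∈ St.F a b, St.γ a b e' * g z a ^ e'.1 * g z b ^ e'.2)) :=
      tendsto_finsetSum _ fun e' he' => ((St.hγ a b e' he').mul
        (((Complex.continuous_exp.tendsto _).comp (hLil a z hz)).pow _)).mul
        (((Complex.continuous_exp.tendsto _).comp (hLil b z hz)).pow _)
    refine tendsto_nhds_unique h1 (tendsto_const_nhds.congr' ?_)
    filter_upwards [hcond] with j hj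
    have h2 := St.hrel a b _ _ ((hL j hj).2.2.1 0 (h0Λ j) z hz).1
    set M : ℂ := ((∑ e'' ∈ St.F a b, ‖eval (cp (St.k j) e (St.w j) 0) (St.c a b e'') *
      St.s j a ^ e''.1 * St.s j b ^ e''.2‖ : ℝ) : ℂ)
    have h3 : ∑ e' ∈ St.F a b,
        eval (cp (St.k j) e (St.w j) 0) (St.c a b e') * St.s j a ^ e'.1 * St.s j b ^ e'.2 / M *
          Complex.exp (L j 0 z a) ^ e'.1 * Complex.exp (L j 0 z b) ^ e'.2 =
        (∑ e' ∈ St.F a b, eval (cp (St.k j) e (St.w j) 0) (St.c a b e') *
          (St.s j a * Complex.exp (L j 0 z a)) ^ e'.1 *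
          (St.s j b * Complex.exp (L j 0 z b)) ^ e'.2) / M := by
      rw [Finset.sum_div]
      refine Finset.sum_congr rfl fun e' _ => ?_
      rw [mul_pow, mul_pow]
      ring
    rw [h3, h2, zero_div]
  have hlogg : ∀ z, ∑ l, α l * Real.log ‖g z l‖ = (∑ l, (α l : ℂ) * Li z l).re := by
    intro z
    rw [Complex.re_sum]
    refine Finset.sum_congr rfl fun l _ => ?_
    rw [Complex.re_ofReal_mul, hg]
    simp only [Complex.norm_exp, Real.log_exp]
  have hnc : ¬ ∀ z ∈ ball St.zs ε, ∑ l, (α l : ℂ) * Li z l = ∑ l, (α l : ℂ) * Li St.zs l := by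
    intro hcon
    have h1 := (hcurve n α St.zs ε g hα hε (by
      rw [differentiableOn_pi]
      intro l
      exact (hmon l).2.cexp) (fun z _ l => Complex.exp_ne_zero _)
      ⟨St.i, St.zs + ((ε / 2 : ℝ) : ℂ), by
        rw [mem_ball, dist_eq_norm, add_sub_cancel_left, Complex.norm_real, Real.norm_of_nonneg
          (by positivity)]
        linarith, by
        have h1 : St.zs + ((ε / 2 : ℝ) : ℂ) ∈ ball St.zs ε := by
          rw [mem_ball, dist_eq_norm, add_sub_cancel_left, Complex.norm_real, Real.norm_of_nonneg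
            (by positivity)]
          linarith
        rw [hgi _ h1, hgi _ hzsb]
        intro h2
        have h3 : ((ε / 2 : ℝ) : ℂ) = 0 := by linear_combination h2
        rw [Complex.ofReal_eq_zero] at h3
        linarith⟩
      (fun a b => ⟨f2 (St.F a b) (St.γ a b), f2_ne (St.hγne a b), fun z hz => by
        rw [eval_f2]
        exact hgrel a b z hz⟩)).1
    exact h1 ⟨(∑ l, (α l : ℂ) * Li St.zs l).re, fun z hz => by rw [hlogg, hcon z hz]⟩
  -- parameters
  set A : ℕ → ℝ := fun j => |C1| * Real.log (St.T j) + Real.pi with hA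
  set σ : ℕ → Fin n → ℂ := fun j l => Complex.log (St.s j l) with hσ
  have hlogT : Tendsto (fun j => Real.log (St.T j)) St.U atTop := by
    have h1 : Tendsto (fun j : ℕ => Real.log ((j : ℝ) + 1)) atTop atTop :=
      Real.tendsto_log_atTop.comp (tendsto_atTop_add_const_right _ _ tendsto_natCast_atTop_atTop)
    refine tendsto_atTop_mono (fun j => ?_) (h1.mono_left St.hU)
    exact Real.log_le_log (by positivity) (St.hT j)
  have hΛ : Tendsto Λ St.U atTop := by
    refine tendsto_atTop_mono (f := fun j => Real.log (St.T j) / 2) (fun j => ?_)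
      (hlogT.atTop_div_const (by norm_num))
    simp only [hΛd]
    nlinarith [hlT j]
  have hinv : Tendsto (fun j => (Real.log (St.T j))⁻¹) St.U (𝓝 0) :=
    tendsto_inv_atTop_zero.comp hlogT
  have hAΛ : Tendsto (fun j => A j / Λ j) St.U (𝓝 0) := by
    have h1 : Tendsto (fun j => 2 * |C1| * (Real.log (St.T j))⁻¹ +
        2 * Real.pi * (Real.log (St.T j))⁻¹ ^ 2) St.U (𝓝 0) := by
      have := (hinv.const_mul (2 * |C1|)).add ((hinv.pow 2).const_mul (2 * Real.pi))
      simpa using this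
    refine h1.congr fun j => ?_
    have := hlT j
    simp only [hA, hΛd]
    field_simp
  have hδ : Tendsto (fun j : ℕ => 1 / ((j : ℝ) + 1)) St.U (𝓝 0) :=
    tendsto_one_div_add_atTop_nhds_zero_nat.mono_left St.hU
  have hσA : ∀ᶠ j in (St.U : Filter ℕ), ‖σ j‖ ≤ A j := by
    filter_upwards [St.hsl] with j hslj
    have h1 : 0 ≤ A j := by
      have := hlT j
      have := Real.pi_pos
      simp only [hA]
      positivity
    rw [pi_norm_le_iff_of_nonneg h1]
    intro l
    refine (norm_log_le _).trans ?_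
    have h2 := hslj l
    have h3 : C1 * Real.log (St.T j) ≤ |C1| * Real.log (St.T j) :=
      mul_le_mul_of_nonneg_right (le_abs_self _) (by linarith [hlT j])
    simp only [hA]
    linarith
  have hσre : ∀ j, (∑ l, (α l : ℂ) * σ j l).re = ∑ l, α l * Real.log ‖St.s j l‖ := by
    intro j
    rw [Complex.re_sum]
    refine Finset.sum_congr rfl fun l _ => ?_
    rw [Complex.re_ofReal_mul, hσ]
    simp only [Complex.log_re]
  have hσim : ∀ j, |(∑ l, (α l : ℂ) * σ j l).im| ≤ Real.pi * ∑ l, |α l| := by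
    intro j
    rw [Complex.im_sum, Finset.mul_sum]
    refine (Finset.abs_sum_le_sum_abs _ _).trans (Finset.sum_le_sum fun l _ => ?_)
    rw [Complex.im_ofReal_mul, abs_mul, mul_comm]
    refine mul_le_mul_of_nonneg_right ?_ (abs_nonneg _)
    simp only [hσ, Complex.log_im]
    exact Complex.abs_arg_le_pi _
  have hB0 : 0 ≤ B := (norm_nonneg _).trans (St.hr 0)
  have hS0 : 0 ≤ Real.pi * ∑ l, |α l| :=
    mul_nonneg Real.pi_pos.le (Finset.sum_nonneg fun l _ => abs_nonneg _)
  have hfin := hfs n α e St.U St.zs ε (Cb + B + Real.pi * ∑ l, |α l|) Λ A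
    (fun j : ℕ => 1 / ((j : ℝ) + 1)) St.k St.r St.w σ L Li inferInstance hn hα hαe hε hΛ hAΛ hδ (by
      filter_upwards [hcond, hσA] with j hj hσAj
      have hsub : ball (0 : Fin n → ℂ) (Λ j) ⊆ ball (0 : Fin n → ℂ) (Real.log (St.T j) ^ 2) := by
        refine ball_subset_ball ?_
        simp only [hΛd]
        have : 0 ≤ Real.log (St.T j) ^ 2 := by positivity
        linarith
      refine ⟨(St.hwd j).mono hsub, fun u hu => St.hw j u (hsub hu), hσAj, ?_, ?_, (hL j hj).1, ?_⟩
      · rw [Complex.sub_re, hσre]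
        exact St.hlev j
      · rw [Complex.sub_im]
        refine (abs_sub _ _).trans ?_
        have h1 : |(St.r j).im| ≤ B := (Complex.abs_im_le_norm _).trans (St.hr j)
        linarith [hσim j]
      · intro u hu z hz
        exact (hLb j hj u hu z hz).trans (by linarith))
    hLi hre hnc
  obtain ⟨j, ⟨M, u, z, hu, hz, heq⟩, hj⟩ := (hfin.and hcond).exists
  obtain ⟨h1, h2, h3⟩ := (hL j hj).2.2.1 u hu z hz
  have hexp : (fun l => Complex.exp (cp (St.k j) e (St.w j) u l)) =
      fun l => St.s j l * Complex.exp (L j u z l) := by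
    funext l
    rw [heq l, Complex.exp_add, Complex.exp_add, hσ]
    rw [Complex.exp_log (St.hs0 j l)]
    have e2 : Complex.exp (2 * Real.pi * Complex.I * (M l : ℂ)) = 1 := by
      have := Complex.exp_int_mul_two_pi_mul_I (M l)
      rw [← this]; congr 1; ring
    rw [e2, mul_one]
  refine ⟨cp (St.k j) e (St.w j) u, ?_, ?_⟩
  · rw [hexp]; exact h1
  · rw [hexp]
    exact (St.good.ne _ _ h1 (by
      rw [h2]
      exact h3)).2

end Pool.Agent.H664.FH
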