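import Pool.Agent.H664.FH.StartJ
import Pool.Agent.H664.FH.Stage

/-! Project FH (helper664): the sequence of pieces and its limit data; forms supported in `J`. -/

set_option autoImplicit false

namespace Pool.Agent.H664.FH

open MvPolynomial Filter Topology Metric Pool.Agent.W996.EC Pool.Agent.Q72.EG

/-- bounds for exponentials of logarithms -/
theorem abs_log_le_iff {a x : ℝ} (hx : 0 < x) : |Real.log x| ≤ a ↔
    (Real.exp a)⁻¹ ≤ x ∧ x ≤ Real.exp a := by
  rw [abs_le, ← Real.exp_neg, Real.log_le_iff_le_exp hx, Real.le_log_iff_exp_le hx]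

theorem stageJ (hcurve : S_curveJ) (hexit : S_exitJ) (hcoer : S_coerJ) (hgoodS : S_good)
    (hrelS : S_rel) {n : ℕ} {E : Type} [Field E] [Algebra ℂ E] (G : Cv n E)
    (H0 : MvPolynomial (Fin n ⊕ Fin n) ℂ) (J : Finset (Fin n)) (α : Fin n → ℝ) (hα : QJ J α)
    (hT : ∃ i ∈ J, G.T i)
    (hH : aeval (Sum.elim G.x G.y) H0 ≠ 0) (hprep : Prep G.P α) :
    ∃ (e : Fin n → ℝ) (B C1 : ℝ), ∑ l, α l * e l = 1 ∧
      ∃ St : Stage G H0 α e B C1, St.i ∈ J := by
  classical
  obtain ⟨i0, hi0J, hi0⟩ := hT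
  obtain ⟨e, B, hαe, hprep⟩ := hprep
  refine ⟨e, B, ?_⟩
  choose F c hFne hFc hFT hFrel using fun i l => hrelS n E G i l
  have hex1 : ∀ i, ∃ Hh : MvPolynomial (Option (Fin n)) ℂ, G.T i → Good G H0 i Hh ∧
      ∀ (x : Fin n → ℂ) (z : ℂ), eval (oe z x) Hh ≠ 0 → ∀ l, ∀ b ∈ (F i l).image Prod.snd,
        eval (oe z x) (AA (F i l) (c i l) b) ≠ 0 := by
    intro i
    by_cases h : G.T i
    · obtain ⟨Hh, hh⟩ := hgoodS n E G H0 i hH h
      refine ⟨Hh * ∏ l, ∏ b ∈ (F i l).image Prod.snd, AA (F i l) (c i l) b, fun _ => ⟨?_, ?_⟩⟩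
      · refine hh.mul ?_
        rw [map_prod, Finset.prod_ne_zero_iff]
        intro l _
        rw [map_prod, Finset.prod_ne_zero_iff]
        intro b hb
        exact aeval_AA_ne G h (hFc i l) hb
      · intro x z hz l b hb
        rw [map_mul, map_prod] at hz
        have h1 := Finset.prod_ne_zero_iff.1 (right_ne_zero_of_mul hz) l (Finset.mem_univ l)
        rw [map_prod] at h1
        exact Finset.prod_ne_zero_iff.1 h1 b hb
    · exact ⟨0, fun h' => absurd h' h⟩
  choose Hh hHh' using hex1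
  have hHh : ∀ i, G.T i → Good G H0 i (Hh i) := fun i hi => (hHh' i hi).1
  set FH : Fin n → Finset ℕ := fun i =>
    (Finset.range ((optionEquivLeft ℂ (Fin n) (Hh i)).natDegree + 1)).filter
      (fun m => ¬ G.P ∣ cf (Hh i) m) with hFH
  have hFHsum : ∀ i (x : Fin n → ℂ) (z : ℂ), eval x G.P = 0 →
      eval (oe z x) (Hh i) = ∑ m ∈ FH i, eval x (cf (Hh i) m) * z ^ m := fun i x z hx =>
    eval_oe_filter (Hh i) hx z
  have hFHne : ∀ i, G.T i → (FH i).Nonempty := fun i hi => filter_nonempty G.hx (hHh i hi).gen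
  -- the finite set of polynomials
  set S : Finset (MvPolynomial (Fin n) ℂ) :=
    (Finset.univ.biUnion fun i => Finset.univ.biUnion fun l => (F i l).image (c i l)) ∪
    (Finset.univ.biUnion fun i => (FH i).image (cf (Hh i))) with hS
  have hSF : ∀ i l, ∀ e' ∈ F i l, c i l e' ∈ S := by
    intro i l e' he'
    rw [hS, Finset.mem_union]
    left
    simp only [Finset.mem_biUnion, Finset.mem_univ, true_and]
    exact ⟨i, l, Finset.mem_image_of_mem _ he'⟩
  have hSH : ∀ i, ∀ m ∈ FH i, cf (Hh i) m ∈ S := by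
    intro i m hm
    rw [hS, Finset.mem_union]
    right
    simp only [Finset.mem_biUnion, Finset.mem_univ, true_and]
    exact ⟨i, Finset.mem_image_of_mem _ hm⟩
  have hSP : ∀ q ∈ S, ¬ G.P ∣ q := by
    intro q hq
    rw [hS, Finset.mem_union] at hq
    rcases hq with hq | hq
    · simp only [Finset.mem_biUnion, Finset.mem_univ, true_and, Finset.mem_image] at hq
      obtain ⟨i, l, e', he', rfl⟩ := hq
      exact hFc i l e' he'
    · simp only [Finset.mem_biUnion, Finset.mem_univ, true_and, Finset.mem_image] at hq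
      obtain ⟨i, m, hm, rfl⟩ := hq
      exact (Finset.mem_filter.1 hm).2
  obtain ⟨D, hD0, hD⟩ := hprep S hSP
  have hδ : ∀ j : ℕ, (0 : ℝ) < 1 / ((j : ℝ) + 1) := fun j => by positivity
  choose T hT1 hT2 k r w hr hwd hchart hcS using fun j : ℕ => hD (1 / ((j : ℝ) + 1)) (hδ j)
  have hT1' : ∀ j : ℕ, (j : ℝ) + 1 ≤ T j := by
    intro j
    have := hT1 j
    rwa [one_div, inv_inv] at this
  have hball : ∀ j, (0 : Fin n → ℂ) ∈ ball (0 : Fin n → ℂ) (Real.log (T j) ^ 2) := fun j =>
    mem_ball_self (by have := hT2 j; positivity)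
  set x : ℕ → Fin n → ℂ := fun j => cp (k j) e (w j) 0 with hx
  have hxP : ∀ j, eval (x j) G.P = 0 := fun j => (hchart j 0 (hball j)).1
  obtain ⟨m0, hm0⟩ := hFHne i0 hi0
  choose s hsF hsH hsa hsb hsex using fun j : ℕ => startJ hcurve hexit G (hHh i0 hi0) hi0J hα hFne
    hFrel (x j) (hxP j) (fun a b e' he' => (hcS j _ (hSF a b e' he')).1)
    (fun z hz => fib_bdd G (hFne i0) (fun l => hFrel i0 l) ((hHh' i0 hi0).2 (x j) z hz)) (m := m0)
    ((hcS j _ (hSH i0 m0 hm0)).1) ((r j).re) ((r j).re + 1 / ((j : ℝ) + 1)) (by linarith [hδ j])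
  have hs0 : ∀ j l, s j l ≠ 0 := fun j => ((hHh i0 hi0).ne (x j) (s j) (hsF j) (hsH j)).1
  have hlev : ∀ j, |(r j).re - ∑ l, α l * Real.log ‖s j l‖| ≤ 1 / ((j : ℝ) + 1) := by
    intro j
    rw [abs_le]
    constructor <;> linarith [hsa j, hsb j, hδ j]
  -- coercivity
  obtain ⟨C, hC0, hC⟩ := hcoer n J α F hα hFne
  have hB0 : 0 ≤ B := (norm_nonneg _).trans (hr 0)
  set C2 : ℝ := C * (1 + D + B + 1) with hC2
  have hC20 : 0 ≤ C2 := mul_nonneg hC0 (by linarith)
  have hsl : ∀ j, ∀ l ∈ J, |Real.log ‖s j l‖| ≤ C2 * Real.log (T j) := by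
    intro j l hl
    have h1 := hC (Real.exp (D * Real.log (T j))) (fun a b e' => eval (x j) (c a b e')) (s j)
      (Real.one_le_exp (mul_nonneg hD0 (by linarith [hT2 j]))) (fun l _ => hs0 j l) (by
        intro a _ b _ e' he'
        obtain ⟨h2, h3⟩ := hcS j _ (hSF a b e' he')
        have h4 : 0 < ‖eval (x j) (c a b e')‖ := norm_pos_iff.2 h2
        rw [abs_le] at h3
        constructor
        · rw [← Real.exp_neg, ← Real.le_log_iff_exp_le h4]
          linarith [h3.1]
        · rw [← Real.log_le_iff_le_exp h4]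
          exact h3.2) (by
        intro a _ b _ _
        exact hFrel a b (x j) (s j) (hsF j)) l hl
    rw [Real.log_exp] at h1
    refine h1.trans ?_
    have h2 : |∑ l, α l * Real.log ‖s j l‖| ≤ B + 1 := by
      have h3 := hlev j
      have h4 : |(r j).re| ≤ B := (Complex.abs_re_le_norm _).trans (hr j)
      have h5 : 1 / ((j : ℝ) + 1) ≤ 1 := by
        rw [div_le_one (by positivity)]
        have : (0 : ℝ) ≤ j := Nat.cast_nonneg j
        linarith
      rw [abs_le] at h3 h4 ⊢
      constructor <;> linarith [h3.1, h3.2, h4.1, h4.2]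
    have h3 : 1 ≤ Real.log (T j) := hT2 j
    calc C * (1 + D * Real.log (T j) + |∑ l, α l * Real.log ‖s j l‖|)
        ≤ C * ((1 + D + B + 1) * Real.log (T j)) := by
          refine mul_le_mul_of_nonneg_left ?_ hC0
          nlinarith
      _ = _ := by rw [hC2]; ring
  -- limits
  set U : Ultrafilter ℕ := Filter.hyperfilter ℕ with hUd
  have hU : (U : Filter ℕ) ≤ atTop := Nat.hyperfilter_le_atTop
  -- first limits, for every `b` separately
  have hex2 : ∀ a l b, ∃ γ : ℕ × ℕ → ℂ, b ∈ (F a l).image Prod.snd →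
      (∀ e' ∈ (F a l).filter (fun e' => e'.2 = b), Tendsto (fun j =>
        eval (x j) (c a l e') * s j a ^ e'.1 /
        ((∑ e'' ∈ (F a l).filter (fun e' => e'.2 = b), ‖eval (x j) (c a l e'') *
          s j a ^ e''.1‖ : ℝ) : ℂ)) U (𝓝 (γ e'))) ∧
      ∃ e' ∈ (F a l).filter (fun e' => e'.2 = b), γ e' ≠ 0 := by
    intro a l b
    by_cases hb : b ∈ (F a l).image Prod.snd
    · obtain ⟨γ, hγ1, hγ2⟩ := norm_lim (U := U) ((F a l).filter (fun e' => e'.2 = b))
        (fun j e' => eval (x j) (c a l e') * s j a ^ e'.1) (by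
          intro j
          obtain ⟨e', he', he2⟩ := Finset.mem_image.1 hb
          exact ⟨e', Finset.mem_filter.2 ⟨he', he2⟩,
            mul_ne_zero (hcS j _ (hSF a l e' he')).1 (pow_ne_zero _ (hs0 j a))⟩)
      exact ⟨γ, fun _ => ⟨hγ1, hγ2⟩⟩
    · exact ⟨0, fun h => absurd h hb⟩
  choose γ1 hγ1 using hex2
  have hexd : ∀ i, ∃ d : ℕ → ℂ, G.T i → (∀ m ∈ FH i, Tendsto (fun j =>
      eval (x j) (cf (Hh i) m) * s j i ^ m /
      ((∑ m' ∈ FH i, ‖eval (x j) (cf (Hh i) m') * s j i ^ m'‖ : ℝ) : ℂ)) U (𝓝 (d m))) ∧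
      ∃ m ∈ FH i, d m ≠ 0 := by
    intro i
    by_cases hi : G.T i
    · obtain ⟨d, hd1, hd2⟩ := norm_lim (U := U) (FH i)
        (fun j m => eval (x j) (cf (Hh i) m) * s j i ^ m) (by
          intro j
          obtain ⟨m, hm⟩ := hFHne i hi
          exact ⟨m, hm, mul_ne_zero (hcS j _ (hSH i m hm)).1 (pow_ne_zero _ (hs0 j i))⟩)
      exact ⟨d, fun _ => ⟨hd1, hd2⟩⟩
    · exact ⟨0, fun h => absurd h hi⟩
  choose d1 hd1 using hexd
  -- generic radius
  set qA : Fin n → Fin n → ℕ → Polynomial ℂ := fun a l b =>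
    ∑ e' ∈ F a l with e'.2 = b, Polynomial.C (γ1 a l b e') * Polynomial.X ^ e'.1 with hqA
  have hqA0 : ∀ a l, ∀ b ∈ (F a l).image Prod.snd, qA a l b ≠ 0 := by
    intro a l b hb h0
    obtain ⟨-, e0, he0, hne0⟩ := hγ1 a l b hb
    have h1 := congrArg (fun q => Polynomial.coeff q e0.1) h0
    simp only [hqA, Polynomial.finsetSum_coeff, Polynomial.coeff_C_mul_X_pow,
      Polynomial.coeff_zero] at h1
    rw [Finset.sum_eq_single e0] at h1
    · rw [if_pos rfl] at h1
      exact hne0 h1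
    · intro e' he' hne
      rw [if_neg]
      intro h2
      exact hne (Prod.ext h2.symm (by
        rw [(Finset.mem_filter.1 he').2, (Finset.mem_filter.1 he0).2]))
    · intro h2
      exact (h2 he0).elim
  set qD : Fin n → Polynomial ℂ := fun a =>
    ∑ m ∈ FH a, Polynomial.C (d1 a m) * Polynomial.X ^ m with hqD
  have hqD0 : ∀ a, G.T a → qD a ≠ 0 := by
    intro a ha h0
    obtain ⟨-, m, hm, hdm⟩ := hd1 a ha
    have h1 := congrArg (fun q => Polynomial.coeff q m) h0
    simp only [hqD, Polynomial.finsetSum_coeff, Polynomial.coeff_C_mul_X_pow,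
      Polynomial.coeff_zero] at h1
    rw [Finset.sum_eq_single m] at h1
    · rw [if_pos rfl] at h1
      exact hdm h1
    · intro m' _ hne
      rw [if_neg (Ne.symm hne)]
    · intro h2
      exact absurd hm h2
  obtain ⟨ρ, hρ0, hρ1, hρQ⟩ := generic_radius
    ((Finset.univ.biUnion fun a => Finset.univ.biUnion fun l =>
        ((F a l).image Prod.snd).image (qA a l)) ∪
      ((Finset.univ.filter fun a => G.T a).image qD)) (by
      intro q hq
      rw [Finset.mem_union] at hq
      rcases hq with hq | hq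
      · simp only [Finset.mem_biUnion, Finset.mem_univ, true_and] at hq
        obtain ⟨a, l, hq⟩ := hq
        obtain ⟨b, hb, rfl⟩ := Finset.mem_image.1 hq
        exact hqA0 a l b hb
      · simp only [Finset.mem_image, Finset.mem_filter, Finset.mem_univ, true_and] at hq
        obtain ⟨a, ha, rfl⟩ := hq
        exact hqD0 a ha)
  have hρA : ∀ a l, ∀ b ∈ (F a l).image Prod.snd, ∀ z : ℂ, ‖z - 1‖ = ρ →
      (qA a l b).eval z ≠ 0 := by
    intro a l b hb
    apply hρQ
    rw [Finset.mem_union]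
    left
    simp only [Finset.mem_biUnion, Finset.mem_univ, true_and]
    exact ⟨a, l, Finset.mem_image_of_mem _ hb⟩
  have hρD : ∀ a, G.T a → ∀ z : ℂ, ‖z - 1‖ = ρ → (qD a).eval z ≠ 0 := by
    intro a ha
    apply hρQ
    rw [Finset.mem_union]
    right
    simp only [Finset.mem_image, Finset.mem_filter, Finset.mem_univ, true_and]
    exact ⟨a, ha, rfl⟩
  -- exit
  choose p hpF hpH hplev hpρ lj hljJ hlj using fun j : ℕ => hsex j ρ hρ0 (by linarith)
  have hp0 : ∀ j l, p j l ≠ 0 := fun j => ((hHh i0 hi0).ne (x j) (p j) (hpF j) (hpH j)).1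
  obtain ⟨i, hi⟩ : ∃ i, ∀ᶠ j in (U : Filter ℕ), lj j = i := by
    rw [← Ultrafilter.eventually_exists_iff]
    exact Eventually.of_forall fun j => ⟨lj j, rfl⟩
  have hiJ : i ∈ J := by
    obtain ⟨j, hj⟩ := hi.exists
    rw [← hj]
    exact hljJ j
  obtain ⟨zs, hzs⟩ := ulim (U := U) (f := fun j => p j i / s j i) (C := 2)
    (Eventually.of_forall fun j => by
      have h1 := hpρ j i hiJ
      have h2 : ‖p j i / s j i‖ ≤ ‖p j i / s j i - 1‖ + ‖(1 : ℂ)‖ := by
        have := norm_add_le (p j i / s j i - 1) 1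
        rwa [sub_add_cancel] at this
      rw [norm_one] at h2
      linarith)
  have hzρ : ‖zs - 1‖ = ρ := by
    have h1 : Tendsto (fun j => ‖p j i / s j i - 1‖) U (𝓝 ‖zs - 1‖) := (hzs.sub_const 1).norm
    have h2 : (fun j => ‖p j i / s j i - 1‖) =ᶠ[(U : Filter ℕ)] fun _ => ρ := by
      filter_upwards [hi] with j hj
      rw [← hj]; exact hlj j
    exact (tendsto_nhds_unique (tendsto_const_nhds.congr' h2.symm) h1).symm
  have hqAe : ∀ a l b z, (qA a l b).eval z =
      ∑ e' ∈ F a l with e'.2 = b, γ1 a l b e' * z ^ e'.1 := by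
    intro a l b z
    rw [hqA]
    simp only [Polynomial.eval_finsetSum]
    simp
  -- the coefficients of the relations at `p`, normalised
  have hAlim : ∀ l, ∀ b ∈ (F i l).image Prod.snd, Tendsto (fun j =>
      (∑ e' ∈ F i l with e'.2 = b, eval (x j) (c i l e') * p j i ^ e'.1) /
      ((∑ e'' ∈ (F i l).filter (fun e' => e'.2 = b), ‖eval (x j) (c i l e'') *
          s j i ^ e''.1‖ : ℝ) : ℂ)) U (𝓝 ((qA i l b).eval zs)) := by
    intro l b hb
    rw [hqAe]
    have h1 : Tendsto (fun j => ∑ e' ∈ F i l with e'.2 = b, eval (x j) (c i l e') * s j i ^ e'.1 /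
      ((∑ e'' ∈ (F i l).filter (fun e' => e'.2 = b), ‖eval (x j) (c i l e'') *
          s j i ^ e''.1‖ : ℝ) : ℂ) * (p j i / s j i) ^ e'.1) U
        (𝓝 (∑ e' ∈ F i l with e'.2 = b, γ1 i l b e' * zs ^ e'.1)) :=
      tendsto_finsetSum _ fun e' he' => ((hγ1 i l b hb).1 e' he').mul (hzs.pow _)
    refine h1.congr fun j => ?_
    rw [Finset.sum_div]
    refine Finset.sum_congr rfl fun e' _ => ?_
    rw [div_pow]
    have := pow_ne_zero e'.1 (hs0 j i)
    field_simp
  have hTi : G.T i := by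
    by_contra hTi
    have h0 := hFT i i hTi
    obtain ⟨e0, he0⟩ := hFne i i
    have hb0 : (0 : ℕ) ∈ (F i i).image Prod.snd := by
      rw [← h0 e0 he0]
      exact Finset.mem_image_of_mem _ he0
    apply hρA i i 0 hb0 zs hzρ
    refine tendsto_nhds_unique (hAlim i 0 hb0) (tendsto_const_nhds.congr fun j => ?_)
    have h2 := hFrel i i (x j) (p j) (hpF j)
    have h3 : ∑ e' ∈ F i i with e'.2 = 0, eval (x j) (c i i e') * p j i ^ e'.1 = 0 := by
      rw [Finset.filter_true_of_mem (fun e' he' => h0 e' he'), ← h2]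
      refine Finset.sum_congr rfl fun e' he' => ?_
      rw [h0 e' he', pow_zero, mul_one]
    rw [h3, zero_div]
  -- bounds for the coefficients at `p`
  have hpi_bd : ∀ j, ‖p j i‖ ≤ 2 * ‖s j i‖ := by
    intro j
    have h1 := hpρ j i hiJ
    have h2 : ‖p j i / s j i‖ ≤ ‖p j i / s j i - 1‖ + ‖(1 : ℂ)‖ := by
      have := norm_add_le (p j i / s j i - 1) 1
      rwa [sub_add_cancel] at this
    rw [norm_one, norm_div] at h2
    have h3 : 0 < ‖s j i‖ := norm_pos_iff.2 (hs0 j i)
    have h4 : ‖p j i‖ / ‖s j i‖ ≤ 2 := by linarith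
    rwa [div_le_iff₀ h3] at h4
  have hlT1 : ∀ j, 1 ≤ Real.log (T j) := hT2
  have hkey : ∀ l, ∃ C3 : ℝ, ∀ᶠ j in (U : Filter ℕ), |Real.log ‖p j l‖| ≤ C3 * Real.log (T j) := by
    intro l
    set Sb := (F i l).image Prod.snd with hSb
    have hSbne : Sb.Nonempty := (hFne i l).image _
    -- the largest exponent
    set N : ℕ := (F i l).sup Prod.fst with hN
    have hNe : ∀ e' ∈ F i l, e'.1 ≤ N := fun e' he' => Finset.le_sup (f := Prod.fst) he'
    have hcb : ∀ j, ∀ e' ∈ F i l, ‖eval (x j) (c i l e') * s j i ^ e'.1‖ ≤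
        Real.exp ((D + C2 * N) * Real.log (T j)) ∧
        Real.exp (-((D + C2 * N) * Real.log (T j))) ≤ ‖eval (x j) (c i l e') * s j i ^ e'.1‖ := by
      intro j e' he'
      obtain ⟨h2, h3⟩ := hcS j _ (hSF i l e' he')
      have h4 := hsl j i hiJ
      have h5 : 0 < ‖eval (x j) (c i l e') * s j i ^ e'.1‖ :=
        norm_pos_iff.2 (mul_ne_zero h2 (pow_ne_zero _ (hs0 j i)))
      have h6 : |Real.log ‖eval (x j) (c i l e') * s j i ^ e'.1‖| ≤
          (D + C2 * N) * Real.log (T j) := by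
        rw [norm_mul, norm_pow, Real.log_mul (norm_ne_zero_iff.2 h2)
          (pow_ne_zero _ (norm_ne_zero_iff.2 (hs0 j i))), Real.log_pow]
        refine (abs_add_le _ _).trans ?_
        rw [abs_mul, Nat.abs_cast]
        have h7 : (e'.1 : ℝ) ≤ N := by exact_mod_cast hNe e' he'
        have h8 : (e'.1 : ℝ) * |Real.log ‖s j i‖| ≤ N * (C2 * Real.log (T j)) :=
          mul_le_mul h7 h4 (abs_nonneg _) (Nat.cast_nonneg _)
        linarith
      rw [abs_le] at h6
      constructor
      · rw [← Real.log_le_iff_le_exp h5]; exact h6.2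
      · rw [← Real.le_log_iff_exp_le h5]; exact h6.1
    have hN0 : 0 ≤ D + C2 * N := by positivity
    -- upper and lower bounds for the coefficients
    have hup : ∀ j, ∀ b ∈ Sb, ‖∑ e' ∈ F i l with e'.2 = b, eval (x j) (c i l e') *
        p j i ^ e'.1‖ ≤ (F i l).card * 2 ^ N * Real.exp ((D + C2 * N) * Real.log (T j)) := by
      intro j b _
      refine (norm_sum_le _ _).trans ?_
      calc ∑ e' ∈ F i l with e'.2 = b, ‖eval (x j) (c i l e') * p j i ^ e'.1‖
          ≤ ∑ _e' ∈ F i l with _e'.2 = b, 2 ^ N * Real.exp ((D + C2 * N) * Real.log (T j)) := by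
            refine Finset.sum_le_sum fun e' he' => ?_
            have he'' := (Finset.mem_filter.1 he').1
            have h1 := (hcb j e' he'').1
            rw [norm_mul, norm_pow] at h1 ⊢
            have h2 : ‖p j i‖ ^ e'.1 ≤ 2 ^ e'.1 * ‖s j i‖ ^ e'.1 := by
              rw [← mul_pow]
              exact pow_le_pow_left₀ (norm_nonneg _) (hpi_bd j) _
            have h3 : (2 : ℝ) ^ e'.1 ≤ 2 ^ N := pow_le_pow_right₀ (by norm_num) (hNe e' he'')
            calc ‖eval (x j) (c i l e')‖ * ‖p j i‖ ^ e'.1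
                ≤ ‖eval (x j) (c i l e')‖ * (2 ^ N * ‖s j i‖ ^ e'.1) := by
                  refine mul_le_mul_of_nonneg_left (h2.trans ?_) (norm_nonneg _)
                  exact mul_le_mul_of_nonneg_right h3 (by positivity)
              _ = 2 ^ N * (‖eval (x j) (c i l e')‖ * ‖s j i‖ ^ e'.1) := by ring
              _ ≤ _ := mul_le_mul_of_nonneg_left h1 (by positivity)
        _ = (((F i l).filter (fun e' => e'.2 = b)).card : ℝ) *
            (2 ^ N * Real.exp ((D + C2 * N) * Real.log (T j))) := by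
            rw [Finset.sum_const, nsmul_eq_mul]
        _ ≤ ((F i l).card : ℝ) * (2 ^ N * Real.exp ((D + C2 * N) * Real.log (T j))) := by
            refine mul_le_mul_of_nonneg_right ?_ (by positivity)
            exact_mod_cast Finset.card_le_card (Finset.filter_subset _ _)
        _ = _ := by ring
    have hlo : ∀ b ∈ Sb, ∃ m : ℝ, 0 < m ∧ ∀ᶠ j in (U : Filter ℕ),
        m * Real.exp (-((D + C2 * N) * Real.log (T j))) ≤
          ‖∑ e' ∈ F i l with e'.2 = b, eval (x j) (c i l e') * p j i ^ e'.1‖ := by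
      intro b hb
      set m : ℝ := ‖(qA i l b).eval zs‖ / 2 with hm
      have hm0 : 0 < m := by
        have := norm_pos_iff.2 (hρA i l b hb zs hzρ)
        positivity
      refine ⟨m, hm0, ?_⟩
      have h1 := (hAlim l b hb).norm.eventually (lt_mem_nhds (show m < ‖(qA i l b).eval zs‖ by
        rw [hm]; have := norm_pos_iff.2 (hρA i l b hb zs hzρ); linarith))
      filter_upwards [h1] with j hj
      obtain ⟨e0, he0, he0b⟩ := Finset.mem_image.1 hb
      set M : ℝ := ∑ e'' ∈ (F i l).filter (fun e' => e'.2 = b), ‖eval (x j) (c i l e'') *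
          s j i ^ e''.1‖ with hM
      have h2 : Real.exp (-((D + C2 * N) * Real.log (T j))) ≤ M :=
        ((hcb j e0 he0).2).trans (Finset.single_le_sum
          (f := fun e'' => ‖eval (x j) (c i l e'') * s j i ^ e''.1‖) (fun _ _ => norm_nonneg _)
          (Finset.mem_filter.2 ⟨he0, he0b⟩))
      have hM0 : 0 < M := lt_of_lt_of_le (Real.exp_pos _) h2
      rw [norm_div, Complex.norm_real, Real.norm_of_nonneg hM0.le, lt_div_iff₀ hM0] at hj
      exact (mul_le_mul_of_nonneg_left h2 hm0.le).trans hj.le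
    choose! m hm0 hm using hlo
    -- one constant
    set κ : ℝ := max 1 (((F i l).card : ℝ) * 2 ^ N) + ∑ b ∈ Sb, (m b)⁻¹ with hκ
    have hκ1 : 1 ≤ κ := by
      have : 0 ≤ ∑ b ∈ Sb, (m b)⁻¹ := Finset.sum_nonneg fun b hb => (inv_pos.2 (hm0 b hb)).le
      have := le_max_left (1 : ℝ) (((F i l).card : ℝ) * 2 ^ N)
      linarith
    have hκ2 : ((F i l).card : ℝ) * 2 ^ N ≤ κ := by
      have : 0 ≤ ∑ b ∈ Sb, (m b)⁻¹ := Finset.sum_nonneg fun b hb => (inv_pos.2 (hm0 b hb)).le
      have := le_max_right (1 : ℝ) (((F i l).card : ℝ) * 2 ^ N)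
      linarith
    have hκ3 : ∀ b ∈ Sb, κ⁻¹ ≤ m b := by
      intro b hb
      rw [inv_le_comm₀ (by linarith) (hm0 b hb)]
      have h1 := Finset.single_le_sum (f := fun b => (m b)⁻¹)
        (fun b hb => (inv_pos.2 (hm0 b hb)).le) hb
      have := le_max_left (1 : ℝ) (((F i l).card : ℝ) * 2 ^ N)
      linarith
    refine ⟨Real.log Sb.card + 2 * (Real.log κ + (D + C2 * N)), ?_⟩
    have hall : ∀ᶠ j in (U : Filter ℕ), ∀ b ∈ Sb,
        m b * Real.exp (-((D + C2 * N) * Real.log (T j))) ≤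
          ‖∑ e' ∈ F i l with e'.2 = b, eval (x j) (c i l e') * p j i ^ e'.1‖ := by
      rw [Finset.eventually_all]
      exact fun b hb => hm b hb
    filter_upwards [hall] with j hj
    set X : ℝ := (D + C2 * N) * Real.log (T j) with hX
    have hX0 : 0 ≤ X := mul_nonneg hN0 (by linarith [hlT1 j])
    have hBB : 1 ≤ κ * Real.exp X :=
      one_le_mul_of_one_le_of_one_le hκ1 (Real.one_le_exp hX0)
    have h1 := root_log (S := Sb) (A := fun b => ∑ e' ∈ F i l with e'.2 = b,
      eval (x j) (c i l e') * p j i ^ e'.1) (Y := p j l) hSbne (hp0 j l) hBB (by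
        intro b hb
        refine le_trans ?_ (hj b hb)
        rw [mul_inv, ← Real.exp_neg]
        exact mul_le_mul_of_nonneg_right (hκ3 b hb) (Real.exp_pos _).le) (by
        intro b hb
        exact (hup j b hb).trans (mul_le_mul_of_nonneg_right hκ2 (Real.exp_pos _).le)) (by
        rw [← hFrel i l (x j) (p j) (hpF j)]
        rw [← Finset.sum_fiberwise_of_maps_to (s := F i l) (t := Sb) (g := Prod.snd)
          (fun e he => Finset.mem_image_of_mem _ he)]
        refine Finset.sum_congr rfl fun b _ => ?_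
        rw [Finset.sum_mul]
        refine Finset.sum_congr rfl fun e he => ?_
        rw [(Finset.mem_filter.1 he).2])
    refine h1.trans ?_
    rw [Real.log_mul (by linarith) (Real.exp_pos _).ne', Real.log_exp, hX]
    have h2 : 0 ≤ Real.log Sb.card := Real.log_natCast_nonneg _
    have h3 : 0 ≤ Real.log κ := Real.log_nonneg hκ1
    have h4 := hlT1 j
    nlinarith
  choose C3 hC3 using hkey
  -- second limits
  choose γ hγ hγne using fun a b => norm_lim (U := U) (F a b)
    (fun j e' => eval (x j) (c a b e') * p j a ^ e'.1 * p j b ^ e'.2) (by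
      intro j
      obtain ⟨e', he'⟩ := hFne a b
      exact ⟨e', he', mul_ne_zero (mul_ne_zero (hcS j _ (hSF a b e' he')).1
        (pow_ne_zero _ (hp0 j a))) (pow_ne_zero _ (hp0 j b))⟩)
  obtain ⟨d, hd, hdne⟩ := norm_lim (U := U) (FH i)
    (fun j m => eval (x j) (cf (Hh i) m) * p j i ^ m) (by
      intro j
      obtain ⟨m, hm⟩ := hFHne i hTi
      exact ⟨m, hm, mul_ne_zero (hcS j _ (hSH i m hm)).1 (pow_ne_zero _ (hp0 j i))⟩)
  refine ⟨∑ l, |C3 l|, hαe, ⟨{
    U := U
    hU := hU
    i := i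
    Hh := Hh i
    good := hHh i hTi
    F := F
    c := c
    hrel := hFrel
    Fh := FH i
    hFh := hFHsum i
    T := T
    k := k
    r := r
    w := w
    s := p
    p := p
    hT := hT1'
    hT1 := hT2
    hr := hr
    hwd := hwd
    hP := fun j u hu => (hchart j u hu).1
    hw := fun j u hu => (hchart j u hu).2.1
    hratF := fun j u hu a b e' he' => (hchart j u hu).2.2 _ (hSF a b e' he')
    hratH := fun j u hu m hm => (hchart j u hu).2.2 _ (hSH i m hm)
    hcF := fun j a b e' he' => (hcS j _ (hSF a b e' he')).1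
    hcH := fun j m hm => (hcS j _ (hSH i m hm)).1
    hs := hpF
    hs0 := hp0
    hlev := fun j => by rw [hplev j]; exact hlev j
    hsl := by
      have h1 : ∀ᶠ j in (U : Filter ℕ), ∀ l, |Real.log ‖p j l‖| ≤ C3 l * Real.log (T j) :=
        eventually_all.2 hC3
      filter_upwards [h1] with j hj l
      refine (hj l).trans (mul_le_mul_of_nonneg_right ?_ (by linarith [hlT1 j]))
      exact (le_abs_self _).trans (Finset.single_le_sum (f := fun l => |C3 l|)
        (fun _ _ => abs_nonneg _) (Finset.mem_univ l))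
    hp := hpF
    hplev := fun j => rfl
    hps := fun j l => by
      rw [div_self (hp0 j l), sub_self, norm_zero]
      norm_num
    zs := 1
    hzs := by
      refine tendsto_const_nhds.congr fun j => ?_
      rw [div_self (hp0 j i)]
    γ := γ
    hγ := hγ
    hγne := hγne
    hγi := by
      intro l
      obtain ⟨e0, he0, hne0⟩ := hγne i l
      refine ⟨e0.2, ?_⟩
      simp only [one_pow, mul_one]
      have hb : e0.2 ∈ (F i l).image Prod.snd := Finset.mem_image_of_mem _ he0
      refine recenter (U := (U : Filter ℕ)) ((F i l).filter (fun e' => e'.2 = e0.2)) Prod.fst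
        (fun j e' => eval (x j) (c i l e')) (fun j => s j i) (fun j => p j i)
        (fun j => ((∑ e'' ∈ (F i l).filter (fun e' => e'.2 = e0.2), ‖eval (x j) (c i l e'') *
          s j i ^ e''.1‖ : ℝ) : ℂ))
        (fun j => p j l ^ e0.2 / ((∑ e'' ∈ F i l, ‖eval (x j) (c i l e'') * p j i ^ e''.1 *
          p j l ^ e''.2‖ : ℝ) : ℂ)) zs (γ1 i l e0.2) (γ i l) (fun j => hs0 j i)
        (fun j => hp0 j i) (fun j e' he' => (hcS j _ (hSF i l e' (Finset.mem_filter.1 he').1)).1)
        hzs (hγ1 i l _ hb).1 ?_ ?_ ?_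
      · rw [← hqAe]
        exact hρA i l _ hb zs hzρ
      · intro e' he'
        obtain ⟨he1, he2⟩ := Finset.mem_filter.1 he'
        refine (hγ i l e' he1).congr fun j => ?_
        rw [he2, ← mul_div_assoc]
      · exact ⟨e0, Finset.mem_filter.2 ⟨he0, rfl⟩, hne0⟩
    d := d
    hd := hd
    hdne := by
      simp only [one_pow, mul_one]
      refine recenter (U := (U : Filter ℕ)) (FH i) id
        (fun j m => eval (x j) (cf (Hh i) m)) (fun j => s j i) (fun j => p j i)
        (fun j => ((∑ m' ∈ FH i, ‖eval (x j) (cf (Hh i) m') * s j i ^ m'‖ : ℝ) : ℂ))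
        (fun j => (((∑ m' ∈ FH i, ‖eval (x j) (cf (Hh i) m') * p j i ^ m'‖ : ℝ) : ℂ))⁻¹)
        zs (d1 i) d (fun j => hs0 j i)
        (fun j => hp0 j i) (fun j m hm => (hcS j _ (hSH i m hm)).1)
        hzs (hd1 i hTi).1 ?_ ?_ hdne
      · have h1 := hρD i hTi zs hzρ
        rw [hqD] at h1
        simp only [Polynomial.eval_finsetSum] at h1
        simpa using h1
      · intro m hm
        refine (hd m hm).congr fun j => ?_
        rw [div_eq_mul_inv]
        rfl }, hiJ⟩⟩

end Pool.Agent.H664.FH
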