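import Pool.Agent.H664.FH.Core
import Pool.Agent.H788.FH.Chart
import Pool.Agent.H297.FH.Exit
import Pool.Agent.H597.FH.Rate
import Pool.Agent.H791.FH.Prep
import Pool.Agent.H539.FH.Coer
import Pool.Agent.H190.FH.FSolve
import Pool.Agent.H287.FH.Curve
import Pool.Agent.H287.FH.Rel

/-! Project FH (helper664): all parts. -/

set_option autoImplicit false

namespace Pool.Agent.H664.FH

open MvPolynomial Filter Topology Metric Pool.Agent.W996.EC Pool.Agent.Q72.EG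

theorem aeval_lin_eval {n : ℕ} (l : Fin n → ℝ) (f : Polynomial ℂ) (x : Fin n → ℂ) :
    eval x (Polynomial.aeval (Pool.Agent.W996.EC.lin l) f) =
      f.eval (∑ i, (l i : ℂ) * x i) := by
  rw [← Pool.Agent.W996.EC.eval_lin]
  rw [← MvPolynomial.coe_aeval_eq_eval]
  simp only [RingHom.coe_coe]
  rw [← Polynomial.aeval_algHom_apply]
  simp

/-- the core theorem, from a flat limit -/
theorem coreFlat (hgood : S_good) (n : ℕ) (E : Type) [Field E] [Algebra ℂ E] (G : Cv n E)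
    (H : MvPolynomial (Fin n ⊕ Fin n) ℂ) (α : Fin n → ℝ) (f : Polynomial ℂ) (hn : 2 ≤ n)
    (hα : QI α) (hT : ∃ i, G.T i) (hH : aeval (Sum.elim G.x G.y) H ≠ 0) (hf : 1 ≤ f.natDegree)
    (hlim : LimOne G.P (Polynomial.aeval (lin α) f)) :
    ∃ z : Fin n → ℂ, Sum.elim z (fun l => Complex.exp (z l)) ∈ Pt (Sum.elim G.x G.y) ∧
      eval (Sum.elim z (fun l => Complex.exp (z l))) H ≠ 0 := by
  have hα0 : α ≠ 0 := by
    intro h0
    have h1 := hα (fun _ => 1) (by simp [h0])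
    have h2 := congrFun h1 ⟨0, by omega⟩
    simp at h2
  have hflat : HasFlat G.P α := by
    refine Pool.Agent.H788.FH.chart n G.P α f G.hP hα0 hf ?_
    obtain ⟨D, L, h1⟩ := Pool.Agent.H597.FH.rate n G.P _ G.hP.ne_zero hlim
    refine ⟨D, L, fun t ht => ?_⟩
    obtain ⟨k, c, h2, h3⟩ := h1 t ht
    refine ⟨k, c, h2, fun x hx => ?_⟩
    have := h3 x hx
    rwa [aeval_lin_eval] at this
  exact core Pool.Agent.H287.FH.curve (Pool.Agent.H297.FH.exit Pool.Agent.H287.FH.curve)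
    Pool.Agent.H539.FH.coer Pool.Agent.H190.FH.fsolve hgood Pool.Agent.H287.FH.rel n E G H α hn hα
    hT hH (Pool.Agent.H791.FH.prep n G.P α G.hP hflat)

/-- density for varieties -/
theorem flatV (hgood : S_good) (n : ℕ) (I : Ideal (MvPolynomial (Fin n ⊕ Fin n) ℂ))
    (V : Set (Fin n ⊕ Fin n → ℂ)) (P : MvPolynomial (Fin n) ℂ) (hV : IsVar I V)
    (hdim : HasDimV V n) (hP : ProjEq V P) (hn : 2 ≤ n) (α : Fin n → ℝ) (hα : QI α)
    (f : Polynomial ℂ) (hf : 1 ≤ f.natDegree) (hlim : LimOne P (Polynomial.aeval (lin α) f)) :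
    DenseExp V := by
  obtain ⟨E, iE, aE, x, y, hxy, hpt, hx, hy, htr, ⟨l, hl⟩, -⟩ :=
    Pool.Agent.Q98.EG.fld n I V P hV hdim hP
  rintro H ⟨p, hp, hpH⟩
  obtain ⟨z, hz1, hz2⟩ := coreFlat hgood n E ⟨P, hP.1, x, y, hx, hy, htr⟩ H α f hn hα ⟨l, hl⟩
    (fun h => hpH ((hxy H).mp h p hp)) hf hlim
  exact ⟨z, (hpt _).mpr ⟨hz1, fun j => Complex.exp_ne_zero _⟩, hz2⟩

end Pool.Agent.H664.FH
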