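import Pool.Agent.H664.FH.CoreJ
import Pool.Agent.H553.FH.ChartB
import Pool.Agent.H824.FH.Exit
import Pool.Agent.H597.FH.Rate
import Pool.Agent.H791.FH.Prep
import Pool.Agent.H619.FH.CoerJ
import Pool.Agent.H282.FH.FSolve
import Pool.Agent.H190.FH.CurveJ
import Pool.Agent.H287.FH.Rel
import Pool.Agent.H935.FH.Good
import Pool.Agent.H390.FH.Coord
import Pool.Agent.H390.FH.Latt

/-! Project FH (helper664), second part: all parts. -/

set_option autoImplicit false

namespace Pool.Agent.H664.FH

open MvPolynomial Filter Topology Metric Pool.Agent.W996.EC Pool.Agent.Q72.EG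

theorem aeval_lin_evalB {n : ℕ} (l : Fin n → ℝ) (f : Polynomial ℂ) (x : Fin n → ℂ) :
    eval x (Polynomial.aeval (Pool.Agent.W996.EC.lin l) f) =
      f.eval (∑ i, (l i : ℂ) * x i) := by
  rw [← Pool.Agent.W996.EC.eval_lin]
  rw [← MvPolynomial.coe_aeval_eq_eval]
  simp only [RingHom.coe_coe]
  rw [← Polynomial.aeval_algHom_apply]
  simp

/-- flat pieces from a flat limit -/
theorem flatB {n : ℕ} {P : MvPolynomial (Fin n) ℂ} (hP : Irreducible P) {α : Fin n → ℝ}
    (hα : α ≠ 0) {f : Polynomial ℂ} (hf : 1 ≤ f.natDegree)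
    (hlim : LimOne P (Polynomial.aeval (lin α) f)) : HasFlatB P α := by
  refine Pool.Agent.H553.FH.chartB.1 n P α f hP hα hf ?_
  obtain ⟨D, L, h1⟩ := Pool.Agent.H597.FH.rate n P _ hP.ne_zero hlim
  refine ⟨D, L, fun t ht => ?_⟩
  obtain ⟨k, c, h2, h3⟩ := h1 t ht
  refine ⟨k, c, h2, fun x hx => ?_⟩
  have := h3 x hx
  rwa [aeval_lin_evalB] at this

theorem subM_subM {n : ℕ} (M M' : Matrix (Fin n) (Fin n) ℤ) (h : M' * M = 1)
    (P : MvPolynomial (Fin n) ℂ) : subM M (subM M' P) = P := by
  unfold subM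
  rw [bind₁_bind₁]
  have h1 : (fun i => bind₁ (fun i => ∑ j, C ((M i j : ℤ) : ℂ) * X j)
      (∑ j, C ((M' i j : ℤ) : ℂ) * X j : MvPolynomial (Fin n) ℂ)) = X := by
    funext i
    rw [map_sum]
    have h2 : ∀ j, bind₁ (fun i => ∑ j, C ((M i j : ℤ) : ℂ) * X j)
        (C ((M' i j : ℤ) : ℂ) * X j : MvPolynomial (Fin n) ℂ) =
        ∑ k, C (((M' i j * M j k : ℤ)) : ℂ) * X k := by
      intro j
      rw [map_mul, bind₁_X_right, bind₁_C_right, Finset.mul_sum]
      refine Finset.sum_congr rfl fun k _ => ?_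
      rw [← mul_assoc, ← C_mul]
      push_cast
      rfl
    simp only [h2]
    rw [Finset.sum_comm]
    have h3 : ∀ k, ∑ j, C (((M' i j * M j k : ℤ)) : ℂ) * X k =
        C (((1 : Matrix (Fin n) (Fin n) ℤ) i k : ℤ) : ℂ) * (X k : MvPolynomial (Fin n) ℂ) := by
      intro k
      rw [← Finset.sum_mul, ← map_sum, ← h, Matrix.mul_apply]
      push_cast
      rfl
    simp only [h3]
    rw [Finset.sum_eq_single i]
    · simp
    · intro k _ hk
      rw [Matrix.one_apply_ne (Ne.symm hk)]
      simp
    · intro hi; exact absurd (Finset.mem_univ _) hi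
  rw [h1]
  simp

theorem coreB (hcoreR : S_coreR) {n : ℕ} {E : Type} [Field E] [Algebra ℂ E] (G : Cv n E)
    (H : MvPolynomial (Fin n ⊕ Fin n) ℂ) (l : Fin n → ℝ) (f : Polynomial ℂ)
    (hH : aeval (Sum.elim G.x G.y) H ≠ 0) (hf : 1 ≤ f.natDegree)
    (hlim : LimOne G.P (Polynomial.aeval (lin l) f))
    (hadd : ∀ m : Fin n → ℤ, m ≠ 0 → ∀ c : ℂ, ¬ G.P ∣ (∑ j, C ((m j : ℤ) : ℂ) * X j) - C c)
    (hfree : l ∉ Submodule.span ℝ {v : Fin n → ℝ | ∃ m : Fin n → ℤ,
      ¬ Transcendental (IntermediateField.adjoin ℂ (Set.range G.x)) (∏ j, G.y j ^ m j) ∧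
      v = fun j => (m j : ℝ)}) :
    ∃ z : Fin n → ℂ, Sum.elim z (fun l => Complex.exp (z l)) ∈ Pt (Sum.elim G.x G.y) ∧
      eval (Sum.elim z (fun l => Complex.exp (z l))) H ≠ 0 := by
  classical
  have hl0 : l ≠ 0 := fun h => hfree (h ▸ Submodule.zero_mem _)
  obtain ⟨M, M', J, hMM', hM'M, hJ, hQJ⟩ := Pool.Agent.H390.FH.latt n l hl0
  set l' : Fin n → ℝ := fun i => ∑ j, ((M' j i : ℤ) : ℝ) * l j with hl'
  obtain ⟨hco, hlimM⟩ := Pool.Agent.H390.FH.coord n M M' hMM' hM'M
  obtain ⟨G', hGP, hGx, hGy, hGT, hGH⟩ := hco E G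
  obtain ⟨H', hH', hback⟩ := hGH H hH
  have hlim' : LimOne G'.P (Polynomial.aeval (lin l') f) := by
    rw [hGP]
    exact hlimM G.P l f hlim
  -- `l` in terms of `l'`
  have hll' : ∀ j, l j = ∑ i, l' i * (M i j : ℝ) := by
    intro j
    simp only [hl', Finset.sum_mul]
    rw [Finset.sum_comm]
    have h1 : ∀ k, ∑ i, ((M' k i : ℤ) : ℝ) * l k * (M i j : ℝ) =
        (((1 : Matrix (Fin n) (Fin n) ℤ) k j : ℤ) : ℝ) * l k := by
      intro k
      rw [← hM'M, Matrix.mul_apply]
      push_cast
      rw [Finset.sum_mul]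
      refine Finset.sum_congr rfl fun i _ => ?_
      ring
    simp only [h1]
    rw [Finset.sum_eq_single j]
    · simp
    · intro k _ hk
      rw [Matrix.one_apply_ne hk]
      simp
    · intro hj; exact absurd (Finset.mem_univ _) hj
  have hT : ∃ i ∈ J, G'.T i := by
    by_contra hcon
    push Not at hcon
    apply hfree
    have h1 : l = ∑ i ∈ J, l' i • (fun j => (M i j : ℝ)) := by
      funext j
      rw [hll' j, Finset.sum_apply]
      simp only [Pi.smul_apply, smul_eq_mul]
      rw [← Finset.sum_subset (Finset.subset_univ J)]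
      intro i _ hi
      rw [hQJ.1 i hi, zero_mul]
    rw [h1]
    refine Submodule.sum_mem _ fun i hi => Submodule.smul_mem _ _ (Submodule.subset_span ?_)
    exact ⟨M i, fun h2 => hcon i hi ((hGT i).2 h2), rfl⟩
  have key : ∃ z : Fin n → ℂ, Sum.elim z (fun l => Complex.exp (z l)) ∈
      Pt (Sum.elim G'.x G'.y) ∧ eval (Sum.elim z (fun l => Complex.exp (z l))) H' ≠ 0 := by
    rcases Nat.lt_or_ge J.card 2 with hc | hc
    · -- the rational case
      have hc1 : J.card = 1 := by
        have := hJ.card_pos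
        omega
      obtain ⟨i, hi⟩ := Finset.card_eq_one.1 hc1
      have hTi : G'.T i := by
        obtain ⟨i', hi', hT'⟩ := hT
        rw [hi, Finset.mem_singleton] at hi'
        rw [← hi']
        exact hT'
      have hl'e : l' = fun j => l' i * (Pi.single i 1 : Fin n → ℝ) j := by
        funext j
        by_cases hj : j = i
        · rw [hj]; simp
        · rw [hQJ.1 j (by rw [hi, Finset.mem_singleton]; exact hj), Pi.single_eq_of_ne hj,
            mul_zero]
      have ha : l' i ≠ 0 := by
        intro h0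
        apply hl0
        funext j
        rw [hll' j]
        simp only [Pi.zero_apply]
        refine Finset.sum_eq_zero fun k _ => ?_
        rw [hl'e]
        simp [h0]
      have hne1 : (Pi.single i 1 : Fin n → ℝ) ≠ 0 := by
        intro h0
        have := congrFun h0 i
        simp at this
      set f' : Polynomial ℂ := f.comp (Polynomial.C ((l' i : ℝ) : ℂ) * Polynomial.X) with hf'
      have hf'd : 1 ≤ f'.natDegree := by
        rw [hf', Polynomial.natDegree_comp, Polynomial.natDegree_C_mul_X]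
        · omega
        · exact_mod_cast ha
      have hlim'' : LimOne G'.P (Polynomial.aeval (lin (Pi.single i 1 : Fin n → ℝ)) f') := by
        have h1 : Polynomial.aeval (lin (Pi.single i 1 : Fin n → ℝ)) f' =
            Polynomial.aeval (lin l') f := by
          apply MvPolynomial.funext
          intro x
          rw [aeval_lin_evalB, aeval_lin_evalB, hf', Polynomial.eval_comp, Polynomial.eval_mul,
            Polynomial.eval_C, Polynomial.eval_X]
          congr 1
          rw [Finset.mul_sum]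
          refine Finset.sum_congr rfl fun j _ => ?_
          conv_rhs => rw [hl'e]
          push_cast
          ring
        rw [h1]
        exact hlim'
      refine hcoreR n E G' H' i hTi ?_ hH' (flatB G'.hP hne1 hf'd hlim'')
      intro c hdvd
      rw [hGP] at hdvd
      have hMi : M i ≠ 0 := by
        intro h0
        have h1 := congrFun (congrFun hMM' i) i
        rw [Matrix.mul_apply, Matrix.one_apply_eq, h0] at h1
        simp at h1
      apply hadd (M i) hMi c
      obtain ⟨q, hq⟩ := hdvd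
      have h1 := congrArg (subM M) hq
      refine ⟨subM M q, ?_⟩
      have h2 : subM M (subM M' G.P * q) = subM M (subM M' G.P) * subM M q := by
        unfold subM; rw [map_mul]
      rw [h2, subM_subM M M' hM'M] at h1
      rw [← h1]
      unfold subM
      rw [map_sub, bind₁_X_right, bind₁_C_right]
    · -- the irrational case
      have hl'0 : l' ≠ 0 := by
        obtain ⟨i, hi⟩ := hJ
        intro h0
        apply hl0
        funext j
        rw [hll' j, h0]
        simp
      exact coreJ Pool.Agent.H190.FH.curveJ (Pool.Agent.H824.FH.exitJ Pool.Agent.H190.FH.curveJ)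
        Pool.Agent.H619.FH.coerJ Pool.Agent.H282.FH.fsolveI Pool.Agent.H935.FH.good
        Pool.Agent.H287.FH.rel G' H' J l' hQJ hc hT hH'
        (Pool.Agent.H791.FH.prep n G'.P l' G'.hP
          (Pool.Agent.H553.FH.chartB.2 n G'.P l' (flatB G'.hP hl'0 hf hlim')))
  obtain ⟨z, hz1, hz2⟩ := key
  exact hback z hz1 hz2

end Pool.Agent.H664.FH
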