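import Pool.Agent.H664.FH.Base

/-! Project FH (helper664): points of a given level on the fibres. -/

set_option autoImplicit false

namespace Pool.Agent.H664.FH

open MvPolynomial Filter Topology Metric Pool.Agent.W996.EC Pool.Agent.Q72.EG

theorem start (hcurve : S_curve) (hexit : S_exit) {n : ℕ} {E : Type} [Field E] [Algebra ℂ E]
    (G : Cv n E) {H0 : MvPolynomial (Fin n ⊕ Fin n) ℂ} {i : Fin n}
    {H : MvPolynomial (Option (Fin n)) ℂ} (hgood : Good G H0 i H) {α : Fin n → ℝ} (hα : QI α)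
    {F : Fin n → Fin n → Finset (ℕ × ℕ)} {c : Fin n → Fin n → ℕ × ℕ → MvPolynomial (Fin n) ℂ}
    (hF : ∀ k l, (F k l).Nonempty)
    (hrel : ∀ k l, ∀ x p : Fin n → ℂ, Sum.elim x p ∈ Pt (Sum.elim G.x G.y) →
      ∑ e ∈ F k l, eval x (c k l e) * p k ^ e.1 * p l ^ e.2 = 0)
    (x : Fin n → ℂ) (hx : eval x G.P = 0) (hc : ∀ k l, ∀ e ∈ F k l, eval x (c k l e) ≠ 0)
    {m : ℕ} (hm : eval x (cf H m) ≠ 0) (a b : ℝ) (hab : a < b) :
    ∃ s ∈ Fib G x, eval (oe (s i) x) H ≠ 0 ∧ a < ∑ l, α l * Real.log ‖s l‖ ∧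
      ∑ l, α l * Real.log ‖s l‖ < b ∧ ∀ ρ : ℝ, 0 < ρ → ρ < 1 / 2 →
      ∃ p ∈ Fib G x, eval (oe (p i) x) H ≠ 0 ∧
        ∑ l, α l * Real.log ‖p l‖ = ∑ l, α l * Real.log ‖s l‖ ∧
        (∀ l, ‖p l / s l - 1‖ ≤ ρ) ∧ ∃ l, ‖p l / s l - 1‖ = ρ := by
  classical
  set bb : Polynomial ℂ := bz H x with hbb
  have hb0 : bb ≠ 0 := bz_ne hm
  have hbe : ∀ z, bb.eval z = eval (oe z x) H := fun z => eval_bz H x z
  have hpair : ∀ k l, ∃ f : MvPolynomial (Fin 2) ℂ, f ≠ 0 ∧ ∀ p ∈ Fib G x,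
      eval ![p k, p l] f = 0 := by
    intro k l
    refine ⟨f2 (F k l) (fun e => eval x (c k l e)), ?_, ?_⟩
    · obtain ⟨e, he⟩ := hF k l
      exact f2_ne ⟨e, he, hc k l e he⟩
    · intro p hp
      rw [eval_f2]
      exact hrel k l x p hp
  have hsheet : ∀ p ∈ Fib G x, bb.eval (p i) ≠ 0 → (∀ l, p l ≠ 0) ∧
      ∃ (r : ℝ) (g : ℂ → Fin n → ℂ), 0 < r ∧ DifferentiableOn ℂ g (ball (p i) r) ∧ g (p i) = p ∧
        ∀ z ∈ ball (p i) r, g z ∈ Fib G x ∧ g z i = z ∧ bb.eval z ≠ 0 := by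
    intro p hp hbp
    refine ⟨(hgood.ne x p hp (by rw [← hbe]; exact hbp)).1, ?_⟩
    have hopen : IsOpen {z : ℂ | bb.eval z ≠ 0} :=
      isOpen_ne_fun bb.continuous continuous_const
    obtain ⟨r, hr, hball⟩ := Metric.isOpen_iff.1 hopen (p i) hbp
    obtain ⟨g, hg1, hg2, hg3⟩ := hgood.sheet ℂ (ball (p i) r) (fun _ => x) (fun z => z) isOpen_ball
      (convex_ball _ _) (differentiableOn_const x) differentiableOn_id
      (fun z hz => ⟨hx, by rw [← hbe]; exact hball hz⟩) (p i) (mem_ball_self hr) p hp rfl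
    exact ⟨r, g, hr, hg1, hg2, fun z hz => ⟨(hg3 z hz).1, (hg3 z hz).2, hball hz⟩⟩
  obtain ⟨Lev, hLev, hex⟩ := hexit n α i (Fib G x) bb hα (isClosed_Fib G x) hb0 hpair hsheet
  -- a level
  obtain ⟨lv, hlv, hlvn⟩ : ∃ lv ∈ Set.Ioo a b, lv ∉ Lev :=
    (Set.Ioo_infinite hab).exists_notMem_finite hLev
  -- a germ
  obtain ⟨z0, hz0⟩ : ∃ z0, bb.eval z0 ≠ 0 := by
    by_contra h
    push Not at h
    exact hb0 (Polynomial.funext fun z => by rw [h z, Polynomial.eval_zero])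
  obtain ⟨p0, hp0, hp0i⟩ := hgood.ex x z0 hx (by rw [← hbe]; exact hz0)
  obtain ⟨hp0n, r, g, hr, hgd, hg0, hg⟩ := hsheet p0 hp0 (by rw [hp0i]; exact hz0)
  have hcen : p0 i ∈ ball (p0 i) r := mem_ball_self hr
  obtain ⟨-, hcur⟩ := hcurve n α (p0 i) r g hα hr hgd
    (fun z hz => (hsheet (g z) (hg z hz).1 (by rw [(hg z hz).2.1]; exact (hg z hz).2.2)).1)
    ⟨i, p0 i + (r / 2 : ℝ), by
      rw [mem_ball, dist_eq_norm, add_sub_cancel_left, Complex.norm_real, Real.norm_of_nonneg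
        (by positivity)]
      linarith, by
      have h1 : p0 i + (r / 2 : ℝ) ∈ ball (p0 i) r := by
        rw [mem_ball, dist_eq_norm, add_sub_cancel_left, Complex.norm_real, Real.norm_of_nonneg
          (by positivity)]
        linarith
      rw [(hg _ h1).2.1, (hg _ hcen).2.1]
      intro h2
      have h3 : ((r / 2 : ℝ) : ℂ) = 0 := by linear_combination h2
      rw [Complex.ofReal_eq_zero] at h3
      linarith⟩
    (fun k l => by
      obtain ⟨f, hf, hf2⟩ := hpair k l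
      exact ⟨f, hf, fun z hz => hf2 _ (hg z hz).1⟩)
  -- the polynomial `b (Y_i)`
  set Q0 : MvPolynomial (Fin n) ℂ := Polynomial.aeval (X i : MvPolynomial (Fin n) ℂ) bb with hQ0
  have hQe : ∀ p : Fin n → ℂ, eval p Q0 = bb.eval (p i) := by
    intro p
    rw [hQ0, ← MvPolynomial.coe_aeval_eq_eval]
    simp only [RingHom.coe_coe]
    rw [← Polynomial.aeval_algHom_apply]
    simp
  obtain ⟨s, hs1, hs2, hs3, hs4⟩ := hcur Q0 ⟨p0 i, hcen, by
    rw [hQe, (hg _ hcen).2.1]; exact (hg _ hcen).2.2⟩ lv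
  have hsF : s ∈ Fib G x := by
    intro g' hg'
    rw [← eval_spx]
    apply hs1
    intro z hz
    rw [eval_spx]
    exact (hg z hz).1 g' hg'
  rw [hQe] at hs3
  refine ⟨s, hsF, by rw [← hbe]; exact hs3, by rw [hs4]; exact hlv.1, by rw [hs4]; exact hlv.2, ?_⟩
  intro ρ hρ hρ2
  obtain ⟨p, hp1, hp2, hp3, hp4, hp5⟩ := hex s hsF hs3 (by rw [hs4]; exact hlvn) ρ hρ hρ2
  exact ⟨p, hp1, by rw [← hbe]; exact hp2, hp3, hp4, hp5⟩

end Pool.Agent.H664.FH
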