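import Pool.Agent.H664.FH.Start
import Pool.Agent.H664.FH.Stm2

/-! Project FH (helper664): points of a given level on the fibres; forms supported in `J`. -/

set_option autoImplicit false

namespace Pool.Agent.H664.FH

open MvPolynomial Filter Topology Metric Pool.Agent.W996.EC Pool.Agent.Q72.EG

theorem startJ (hcurve : S_curveJ) (hexit : S_exitJ) {n : ℕ} {E : Type} [Field E] [Algebra ℂ E]
    (G : Cv n E) {H0 : MvPolynomial (Fin n ⊕ Fin n) ℂ} {i : Fin n}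
    {H : MvPolynomial (Option (Fin n)) ℂ} (hgood : Good G H0 i H) {J : Finset (Fin n)}
    (hiJ : i ∈ J) {α : Fin n → ℝ} (hα : QJ J α)
    {F : Fin n → Fin n → Finset (ℕ × ℕ)} {c : Fin n → Fin n → ℕ × ℕ → MvPolynomial (Fin n) ℂ}
    (hF : ∀ k l, (F k l).Nonempty)
    (hrel : ∀ k l, ∀ x p : Fin n → ℂ, Sum.elim x p ∈ Pt (Sum.elim G.x G.y) →
      ∑ e ∈ F k l, eval x (c k l e) * p k ^ e.1 * p l ^ e.2 = 0)
    (x : Fin n → ℂ) (hx : eval x G.P = 0) (hc : ∀ k l, ∀ e ∈ F k l, eval x (c k l e) ≠ 0)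
    (hbd : ∀ z : ℂ, eval (oe z x) H ≠ 0 → ∃ r C : ℝ, 0 < r ∧ ∀ p ∈ Fib G x, p i ∈ ball z r →
      ‖p‖ ≤ C)
    {m : ℕ} (hm : eval x (cf H m) ≠ 0) (a b : ℝ) (hab : a < b) :
    ∃ s ∈ Fib G x, eval (oe (s i) x) H ≠ 0 ∧ a < ∑ l, α l * Real.log ‖s l‖ ∧
      ∑ l, α l * Real.log ‖s l‖ < b ∧ ∀ ρ : ℝ, 0 < ρ → ρ < 1 / 2 →
      ∃ p ∈ Fib G x, eval (oe (p i) x) H ≠ 0 ∧
        ∑ l, α l * Real.log ‖p l‖ = ∑ l, α l * Real.log ‖s l‖ ∧
        (∀ l ∈ J, ‖p l / s l - 1‖ ≤ ρ) ∧ ∃ l ∈ J, ‖p l / s l - 1‖ = ρ := by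
  classical
  set bb : Polynomial ℂ := bz H x with hbb
  have hb0 : bb ≠ 0 := bz_ne hm
  have hbe : ∀ z, bb.eval z = eval (oe z x) H := fun z => eval_bz H x z
  have hpair : ∀ k l, ∃ f : MvPolynomial (Fin 2) ℂ, f ≠ 0 ∧ ∀ p ∈ Fib G x,
      eval ![p k, p l] f = 0 := by
    intro k l
    refine ⟨f2 (F k l) (fun e => eval x (c k l e)), ?_, ?_⟩
    · obtain ⟨e, he⟩ := hF k l
      exact f2_ne ⟨e, he, hc k l e he⟩
    · intro p hp
      rw [eval_f2]
      exact hrel k l x p hp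
  have hsheet : ∀ p ∈ Fib G x, bb.eval (p i) ≠ 0 → (∀ l, p l ≠ 0) ∧
      ∃ (r : ℝ) (g : ℂ → Fin n → ℂ), 0 < r ∧ DifferentiableOn ℂ g (ball (p i) r) ∧ g (p i) = p ∧
        ∀ z ∈ ball (p i) r, g z ∈ Fib G x ∧ g z i = z ∧ bb.eval z ≠ 0 := by
    intro p hp hbp
    refine ⟨(hgood.ne x p hp (by rw [← hbe]; exact hbp)).1, ?_⟩
    have hopen : IsOpen {z : ℂ | bb.eval z ≠ 0} :=
      isOpen_ne_fun bb.continuous continuous_const
    obtain ⟨r, hr, hball⟩ := Metric.isOpen_iff.1 hopen (p i) hbp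
    obtain ⟨g, hg1, hg2, hg3⟩ := hgood.sheet ℂ (ball (p i) r) (fun _ => x) (fun z => z) isOpen_ball
      (convex_ball _ _) (differentiableOn_const x) differentiableOn_id
      (fun z hz => ⟨hx, by rw [← hbe]; exact hball hz⟩) (p i) (mem_ball_self hr) p hp rfl
    exact ⟨r, g, hr, hg1, hg2, fun z hz => ⟨(hg3 z hz).1, (hg3 z hz).2, hball hz⟩⟩
  obtain ⟨Lev, hLev, hex⟩ := hexit n J α i (Fib G x) bb hiJ hα (isClosed_Fib G x) hb0
    (fun z hz => hbd z (by rw [← hbe]; exact hz)) hpair hsheet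
  -- a level
  obtain ⟨lv, hlv, hlvn⟩ : ∃ lv ∈ Set.Ioo a b, lv ∉ Lev :=
    (Set.Ioo_infinite hab).exists_notMem_finite hLev
  -- a germ
  obtain ⟨z0, hz0⟩ : ∃ z0, bb.eval z0 ≠ 0 := by
    by_contra h
    push Not at h
    exact hb0 (Polynomial.funext fun z => by rw [h z, Polynomial.eval_zero])
  obtain ⟨p0, hp0, hp0i⟩ := hgood.ex x z0 hx (by rw [← hbe]; exact hz0)
  obtain ⟨hp0n, r, g, hr, hgd, hg0, hg⟩ := hsheet p0 hp0 (by rw [hp0i]; exact hz0)
  have hcen : p0 i ∈ ball (p0 i) r := mem_ball_self hr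
  have hz1 : p0 i + ((r / 2 : ℝ) : ℂ) ∈ ball (p0 i) r := by
    rw [mem_ball, dist_eq_norm, add_sub_cancel_left, Complex.norm_real, Real.norm_of_nonneg
      (by positivity)]
    linarith
  obtain ⟨-, hcur⟩ := hcurve n J α (p0 i) r g hα hr hgd
    (fun z hz => (hsheet (g z) (hg z hz).1 (by rw [(hg z hz).2.1]; exact (hg z hz).2.2)).1)
    ⟨i, hiJ, p0 i + ((r / 2 : ℝ) : ℂ), hz1, by
      rw [(hg _ hz1).2.1, (hg _ hcen).2.1]
      intro h2
      have h3 : ((r / 2 : ℝ) : ℂ) = 0 := by linear_combination h2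
      rw [Complex.ofReal_eq_zero] at h3
      linarith⟩
    (fun k l => by
      obtain ⟨f, hf, hf2⟩ := hpair k l
      exact ⟨f, hf, fun z hz => hf2 _ (hg z hz).1⟩)
  -- the polynomial `b (Y_i)`
  set Q0 : MvPolynomial (Fin n) ℂ := Polynomial.aeval (X i : MvPolynomial (Fin n) ℂ) bb with hQ0
  have hQe : ∀ p : Fin n → ℂ, eval p Q0 = bb.eval (p i) := by
    intro p
    rw [hQ0, ← MvPolynomial.coe_aeval_eq_eval]
    simp only [RingHom.coe_coe]
    rw [← Polynomial.aeval_algHom_apply]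
    simp
  obtain ⟨s, hs1, hs2, hs3, hs4⟩ := hcur Q0 ⟨p0 i, hcen, by
    rw [hQe, (hg _ hcen).2.1]; exact (hg _ hcen).2.2⟩ lv
  have hsF : s ∈ Fib G x := by
    intro g' hg'
    rw [← eval_spx]
    apply hs1
    intro z hz
    rw [eval_spx]
    exact (hg z hz).1 g' hg'
  rw [hQe] at hs3
  refine ⟨s, hsF, by rw [← hbe]; exact hs3, by rw [hs4]; exact hlv.1, by rw [hs4]; exact hlv.2, ?_⟩
  intro ρ hρ hρ2
  obtain ⟨p, hp1, hp2, hp3, hp4, hp5⟩ := hex s hsF hs3 (by rw [hs4]; exact hlvn) ρ hρ hρ2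
  exact ⟨p, hp1, by rw [← hbe]; exact hp2, hp3, hp4, hp5⟩

theorem Good.mul {n : ℕ} {E : Type} [Field E] [Algebra ℂ E] {G : Cv n E}
    {H0 : MvPolynomial (Fin n ⊕ Fin n) ℂ} {i : Fin n} {H : MvPolynomial (Option (Fin n)) ℂ}
    (h : Good G H0 i H) {K : MvPolynomial (Option (Fin n)) ℂ}
    (hK : aeval (oe (G.y i) G.x) K ≠ 0) : Good G H0 i (H * K) where
  gen := by
    rw [map_mul]
    exact mul_ne_zero h.gen hK
  ne := fun x p hp hH => h.ne x p hp (by
    rw [map_mul] at hH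
    exact left_ne_zero_of_mul hH)
  ex := fun x z hx hH => h.ex x z hx (by
    rw [map_mul] at hH
    exact left_ne_zero_of_mul hH)
  sheet := fun W _ _ _ U X Y hU hc hX hY hUH u0 hu0 p0 hp0 hp0i =>
    h.sheet W U X Y hU hc hX hY (fun u hu => ⟨(hUH u hu).1, by
      have := (hUH u hu).2
      rw [map_mul] at this
      exact left_ne_zero_of_mul this⟩) u0 hu0 p0 hp0 hp0i

/-- the coefficient of `Y^b` of a relation -/
noncomputable def AA {n : ℕ} (F : Finset (ℕ × ℕ)) (c : ℕ × ℕ → MvPolynomial (Fin n) ℂ) (b : ℕ) :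
    MvPolynomial (Option (Fin n)) ℂ :=
  ∑ e ∈ F with e.2 = b, rename some (c e) * X none ^ e.1

theorem eval_AA {n : ℕ} (F : Finset (ℕ × ℕ)) (c : ℕ × ℕ → MvPolynomial (Fin n) ℂ) (b : ℕ)
    (z : ℂ) (x : Fin n → ℂ) : eval (oe z x) (AA F c b) =
      ∑ e ∈ F with e.2 = b, eval x (c e) * z ^ e.1 := by
  rw [AA, map_sum]
  refine Finset.sum_congr rfl fun e _ => ?_
  rw [map_mul, map_pow, eval_X, eval_rename]
  rfl

theorem aeval_AA {n : ℕ} {E : Type} [Field E] [Algebra ℂ E] (F : Finset (ℕ × ℕ))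
    (c : ℕ × ℕ → MvPolynomial (Fin n) ℂ) (b : ℕ)
    (z : E) (x : Fin n → E) : aeval (oe z x) (AA F c b) =
      ∑ e ∈ F with e.2 = b, aeval x (c e) * z ^ e.1 := by
  rw [AA, map_sum]
  refine Finset.sum_congr rfl fun e _ => ?_
  rw [map_mul, map_pow, aeval_X, aeval_rename]
  rfl

theorem aeval_AA_ne {n : ℕ} {E : Type} [Field E] [Algebra ℂ E] (G : Cv n E) {i : Fin n}
    (hi : G.T i) {F : Finset (ℕ × ℕ)}
    {c : ℕ × ℕ → MvPolynomial (Fin n) ℂ} (hc : ∀ e ∈ F, ¬ G.P ∣ c e) {b : ℕ}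
    (hb : b ∈ F.image Prod.snd) : aeval (oe (G.y i) G.x) (AA F c b) ≠ 0 := by
  classical
  intro h0
  rw [aeval_AA] at h0
  obtain ⟨e0, he0, rfl⟩ := Finset.mem_image.1 hb
  set K := IntermediateField.adjoin ℂ (Set.range G.x) with hK
  have hmem : ∀ q : MvPolynomial (Fin n) ℂ, aeval G.x q ∈ K := by
    intro q
    have h1 : aeval G.x q ∈ Algebra.adjoin ℂ (Set.range G.x) := by
      rw [Algebra.adjoin_range_eq_range_aeval]
      exact ⟨q, rfl⟩
    exact IntermediateField.algebra_adjoin_le_adjoin ℂ _ h1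
  set A : Polynomial K := ∑ e ∈ F with e.2 = e0.2,
    Polynomial.C (⟨aeval G.x (c e), hmem _⟩ : K) * Polynomial.X ^ e.1 with hA
  apply hi
  refine ⟨A, ?_, ?_⟩
  · intro hA0
    have h1 := congrArg (fun q => Polynomial.coeff q e0.1) hA0
    simp only [hA, Polynomial.finsetSum_coeff, Polynomial.coeff_C_mul_X_pow,
      Polynomial.coeff_zero] at h1
    rw [Finset.sum_eq_single e0] at h1
    · rw [if_pos rfl] at h1
      have h2 := congrArg Subtype.val h1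
      exact hc e0 he0 ((G.hx _).1 h2)
    · intro e' he' hne
      rw [if_neg]
      intro h2
      exact hne (Prod.ext h2.symm (Finset.mem_filter.1 he').2)
    · intro h2
      exact (h2 (Finset.mem_filter.2 ⟨he0, rfl⟩)).elim
  · rw [hA, map_sum, ← h0]
    refine Finset.sum_congr rfl fun e _ => ?_
    rw [map_mul, map_pow, Polynomial.aeval_C, Polynomial.aeval_X]
    rfl

/-- upper bounds for roots -/
theorem root_ub {S : Finset ℕ} {A : ℕ → ℂ} {Y : ℂ} {b : ℕ} (hb : b ∈ S) (hmax : ∀ b' ∈ S, b' ≤ b)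
    {m M : ℝ} (hm : 0 < m) (hA : m ≤ ‖A b‖) (hM : ∀ b' ∈ S, ‖A b'‖ ≤ M)
    (h0 : ∑ b' ∈ S, A b' * Y ^ b' = 0) : ‖Y‖ ≤ max 1 (S.card * M / m) := by
  classical
  rcases le_total ‖Y‖ 1 with h1 | h1
  · exact h1.trans (le_max_left _ _)
  refine le_trans ?_ (le_max_right _ _)
  have hM0 : 0 ≤ M := (norm_nonneg _).trans (hM b hb)
  have h2 : A b * Y ^ b = - ∑ b' ∈ S.erase b, A b' * Y ^ b' := by
    rw [← Finset.add_sum_erase S _ hb] at h0
    linear_combination h0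
  have hY0 : 0 < ‖Y‖ := by linarith
  rcases Nat.eq_zero_or_pos b with hb0 | hb0
  · exfalso
    have h3 : S.erase b = ∅ := by
      rw [Finset.eq_empty_iff_forall_notMem]
      intro b' hb'
      have h4 := hmax b' (Finset.mem_of_mem_erase hb')
      have h5 := Finset.ne_of_mem_erase hb'
      omega
    rw [h3, Finset.sum_empty, hb0, pow_zero, mul_one, neg_zero] at h2
    rw [hb0, h2, norm_zero] at hA
    linarith
  have h3 : ‖A b * Y ^ b‖ ≤ S.card * M * ‖Y‖ ^ (b - 1) := by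
    rw [h2, norm_neg]
    refine (norm_sum_le _ _).trans ?_
    calc ∑ b' ∈ S.erase b, ‖A b' * Y ^ b'‖ ≤ ∑ _b' ∈ S.erase b, M * ‖Y‖ ^ (b - 1) := by
          refine Finset.sum_le_sum fun b' hb' => ?_
          rw [norm_mul, norm_pow]
          have h4 := hmax b' (Finset.mem_of_mem_erase hb')
          have h5 := Finset.ne_of_mem_erase hb'
          exact mul_le_mul (hM b' (Finset.mem_of_mem_erase hb'))
            (pow_le_pow_right₀ h1 (by omega)) (by positivity) hM0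
      _ = ((S.erase b).card : ℝ) * (M * ‖Y‖ ^ (b - 1)) := by
          rw [Finset.sum_const, nsmul_eq_mul]
      _ ≤ (S.card : ℝ) * (M * ‖Y‖ ^ (b - 1)) := by
          refine mul_le_mul_of_nonneg_right ?_ (by positivity)
          exact_mod_cast Finset.card_le_card (Finset.erase_subset _ _)
      _ = _ := by ring
  rw [norm_mul, norm_pow] at h3
  have h4 : ‖Y‖ ^ b = ‖Y‖ * ‖Y‖ ^ (b - 1) := by
    rw [← pow_succ', Nat.sub_add_cancel hb0]
  have h5 : 0 < ‖Y‖ ^ (b - 1) := by positivity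
  rw [h4] at h3
  have h6 : ‖A b‖ * ‖Y‖ ≤ S.card * M := by
    have h7 : ‖A b‖ * ‖Y‖ * ‖Y‖ ^ (b - 1) ≤ S.card * M * ‖Y‖ ^ (b - 1) := by
      rw [mul_assoc]; exact h3
    exact le_of_mul_le_mul_right h7 h5
  rw [le_div_iff₀ hm]
  nlinarith

/-- the logarithm of the absolute value of a root -/
theorem root_log {S : Finset ℕ} {A : ℕ → ℂ} {Y : ℂ} (hS : S.Nonempty) (hY : Y ≠ 0)
    {B : ℝ} (hB : 1 ≤ B) (hA : ∀ b ∈ S, B⁻¹ ≤ ‖A b‖) (hM : ∀ b ∈ S, ‖A b‖ ≤ B)
    (h0 : ∑ b ∈ S, A b * Y ^ b = 0) : |Real.log ‖Y‖| ≤ Real.log S.card + 2 * Real.log B := by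
  classical
  have hB0 : 0 < B := by linarith
  have hc1 : (1 : ℝ) ≤ S.card := by exact_mod_cast hS.card_pos
  have hbd : 1 ≤ S.card * B / B⁻¹ := by
    rw [div_inv_eq_mul]
    exact one_le_mul_of_one_le_of_one_le (one_le_mul_of_one_le_of_one_le hc1 hB) hB
  have hlog : Real.log (S.card * B / B⁻¹) = Real.log S.card + 2 * Real.log B := by
    rw [div_inv_eq_mul, Real.log_mul (by positivity) (by positivity),
      Real.log_mul (by positivity) (by positivity)]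
    ring
  have hYn : 0 < ‖Y‖ := norm_pos_iff.2 hY
  -- upper bound
  have h1 : ‖Y‖ ≤ S.card * B / B⁻¹ := by
    have := root_ub (S.max'_mem hS) (fun b' hb' => S.le_max' b' hb') (inv_pos.2 hB0)
      (hA _ (S.max'_mem hS)) hM h0
    rwa [max_eq_right hbd] at this
  -- lower bound: reverse the polynomial
  set N : ℕ := S.max' hS with hN
  have hle : ∀ b ∈ S, b ≤ N := fun b hb => S.le_max' b hb
  set S' : Finset ℕ := S.image (fun b => N - b) with hS'
  have hinj : Set.InjOn (fun b => N - b) (S : Set ℕ) := by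
    intro b hb b' hb' h
    have h2 := hle b hb
    have h3 := hle b' hb'
    simp only at h
    omega
  have hcard : S'.card = S.card := Finset.card_image_of_injOn hinj
  have h2 : ∑ b ∈ S', A (N - b) * Y⁻¹ ^ b = 0 := by
    rw [hS', Finset.sum_image hinj]
    have h3 : ∀ b ∈ S, A (N - (N - b)) * Y⁻¹ ^ (N - b) = (A b * Y ^ b) * (Y⁻¹) ^ N := by
      intro b hb
      have h4 := hle b hb
      have h5 : N - (N - b) = b := by omega
      have h6 : Y⁻¹ ^ N = Y⁻¹ ^ (N - b) * Y⁻¹ ^ b := by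
        rw [← pow_add]
        congr 1
        omega
      rw [h5, h6, inv_pow, inv_pow]
      field_simp
    rw [Finset.sum_congr rfl h3, ← Finset.sum_mul, h0, zero_mul]
  have hSmem : ∀ b ∈ S', N - b ∈ S := by
    intro b hb
    rw [hS', Finset.mem_image] at hb
    obtain ⟨b', hb', rfl⟩ := hb
    have h4 := hle b' hb'
    have h5 : N - (N - b') = b' := by omega
    rw [h5]
    exact hb'
  have hS'ne : S'.Nonempty := hS.image _
  have h3 : ‖Y⁻¹‖ ≤ S.card * B / B⁻¹ := by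
    have := root_ub (S'.max'_mem hS'ne) (fun b' hb' => S'.le_max' b' hb') (inv_pos.2 hB0)
      (A := fun b => A (N - b)) (hA _ (hSmem _ (S'.max'_mem hS'ne)))
      (fun b' hb' => hM _ (hSmem b' hb')) h2
    rw [hcard] at this
    rwa [max_eq_right hbd] at this
  rw [norm_inv] at h3
  rw [← hlog, abs_le]
  constructor
  · have h4 := Real.log_le_log (inv_pos.2 hYn) h3
    rw [Real.log_inv] at h4
    linarith
  · exact Real.log_le_log hYn h1

/-- the fibres are bounded over small discs -/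
theorem fib_bdd {n : ℕ} {E : Type} [Field E] [Algebra ℂ E] (G : Cv n E) {i : Fin n}
    {F : Fin n → Finset (ℕ × ℕ)} {c : Fin n → ℕ × ℕ → MvPolynomial (Fin n) ℂ}
    (hF : ∀ l, (F l).Nonempty)
    (hrel : ∀ l, ∀ x p : Fin n → ℂ, Sum.elim x p ∈ Pt (Sum.elim G.x G.y) →
      ∑ e ∈ F l, eval x (c l e) * p i ^ e.1 * p l ^ e.2 = 0) {x : Fin n → ℂ} {z : ℂ}
    (hz : ∀ l, ∀ b ∈ (F l).image Prod.snd, eval (oe z x) (AA (F l) (c l) b) ≠ 0) :
    ∃ r C : ℝ, 0 < r ∧ ∀ p ∈ Fib G x, p i ∈ ball z r → ‖p‖ ≤ C := by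
  classical
  have hex : ∀ l, ∃ r C : ℝ, 0 < r ∧ ∀ p ∈ Fib G x, p i ∈ ball z r → ‖p l‖ ≤ C := by
    intro l
    set S := (F l).image Prod.snd with hS
    have hSne : S.Nonempty := (hF l).image _
    set A : ℂ → ℕ → ℂ := fun z b => ∑ e ∈ F l with e.2 = b, eval x (c l e) * z ^ e.1 with hA
    have hAc : ∀ b, Continuous fun z => A z b := by
      intro b
      simp only [hA]
      fun_prop
    have hAz : ∀ b ∈ S, A z b ≠ 0 := by
      intro b hb
      rw [hA]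
      simp only
      rw [← eval_AA]
      exact hz l b hb
    set b0 := S.max' hSne with hb0
    have hb0S : b0 ∈ S := S.max'_mem hSne
    set m : ℝ := ‖A z b0‖ / 2 with hm
    have hm0 : 0 < m := by
      have := norm_pos_iff.2 (hAz b0 hb0S)
      positivity
    set M : ℝ := ∑ b ∈ S, ‖A z b‖ + 1 with hM
    have hev : ∀ᶠ z' in 𝓝 z, m < ‖A z' b0‖ ∧ ∀ b ∈ S, ‖A z' b‖ < M := by
      refine Eventually.and ?_ ?_
      · have h1 : Tendsto (fun z' => ‖A z' b0‖) (𝓝 z) (𝓝 ‖A z b0‖) :=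
          ((hAc b0).tendsto z).norm
        exact h1.eventually (lt_mem_nhds (by rw [hm]; linarith))
      · rw [Finset.eventually_all]
        intro b hb
        have h1 : Tendsto (fun z' => ‖A z' b‖) (𝓝 z) (𝓝 ‖A z b‖) := ((hAc b).tendsto z).norm
        refine h1.eventually (gt_mem_nhds ?_)
        have := Finset.single_le_sum (f := fun b => ‖A z b‖) (fun _ _ => norm_nonneg _) hb
        simp only [hM]
        linarith
    obtain ⟨r, hr, hball⟩ := Metric.eventually_nhds_iff_ball.1 hev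
    refine ⟨r, max 1 (S.card * M / m), hr, fun p hp hpi => ?_⟩
    obtain ⟨h1, h2⟩ := hball (p i) hpi
    refine root_ub (A := A (p i)) hb0S (fun b' hb' => S.le_max' b' hb') hm0 h1.le
      (fun b' hb' => (h2 b' hb').le) ?_
    rw [← hrel l x p hp]
    simp only [hA]
    rw [← Finset.sum_fiberwise_of_maps_to (s := F l) (t := S) (g := Prod.snd)
      (fun e he => Finset.mem_image_of_mem _ he)]
    refine Finset.sum_congr rfl fun b _ => ?_
    rw [Finset.sum_mul]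
    refine Finset.sum_congr rfl fun e he => ?_
    rw [(Finset.mem_filter.1 he).2]
  choose r C hr hC using hex
  obtain ⟨r0, hr0, -, hr1⟩ : ∃ ε : ℝ, 0 < ε ∧ ε ≤ 1 ∧ ∀ l, ε ≤ r l := by
    have : ∀ m : ℕ, ∀ η : Fin m → ℝ, (∀ l, 0 < η l) → ∃ ε : ℝ, 0 < ε ∧ ε ≤ 1 ∧ ∀ l, ε ≤ η l := by
      intro m
      induction m with
      | zero => exact fun η _ => ⟨1, one_pos, le_rfl, fun l => l.elim0⟩
      | succ m ih =>
        intro η h
        obtain ⟨ε, h1, h2, h3⟩ := ih (fun l => η l.castSucc) (fun l => h _)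
        refine ⟨min ε (η (Fin.last m)), lt_min h1 (h _), (min_le_left _ _).trans h2, fun l => ?_⟩
        refine Fin.lastCases ?_ (fun l => ?_) l
        · exact min_le_right _ _
        · exact (min_le_left _ _).trans (h3 l)
    exact this n r hr
  refine ⟨r0, ∑ l, |C l|, hr0, fun p hp hpi => ?_⟩
  rw [pi_norm_le_iff_of_nonneg (Finset.sum_nonneg fun l _ => abs_nonneg _)]
  intro l
  refine ((hC l p hp (ball_subset_ball (hr1 l) hpi)).trans (le_abs_self _)).trans ?_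
  exact Finset.single_le_sum (f := fun l => |C l|) (fun _ _ => abs_nonneg _) (Finset.mem_univ l)

/-- recentering of limits -/
theorem recenter {ι : Type} {U : Filter ℕ} [U.NeBot] (F : Finset ι) (a : ι → ℕ)
    (c : ℕ → ι → ℂ) (s p : ℕ → ℂ) (M t : ℕ → ℂ) (zs : ℂ) (γ1 γ2 : ι → ℂ)
    (hs : ∀ j, s j ≠ 0) (hp : ∀ j, p j ≠ 0) (hc : ∀ j, ∀ e ∈ F, c j e ≠ 0)
    (hzs : Tendsto (fun j => p j / s j) U (𝓝 zs))
    (h1 : ∀ e ∈ F, Tendsto (fun j => c j e * s j ^ a e / M j) U (𝓝 (γ1 e)))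
    (h1ne : ∑ e ∈ F, γ1 e * zs ^ a e ≠ 0)
    (h2 : ∀ e ∈ F, Tendsto (fun j => c j e * p j ^ a e * t j) U (𝓝 (γ2 e)))
    (h2ne : ∃ e ∈ F, γ2 e ≠ 0) : ∑ e ∈ F, γ2 e ≠ 0 := by
  classical
  obtain ⟨e0, he0, hne⟩ := h2ne
  intro hcon
  have ht : ∀ᶠ j in U, t j ≠ 0 := by
    filter_upwards [(h2 e0 he0).eventually_ne hne] with j hj h3
    apply hj
    rw [h3, mul_zero]
  -- `q_j = ∑ c_e p^a_e / (c_e0 p^a_e0) → 0`
  have hq : Tendsto (fun j => (∑ e ∈ F, c j e * p j ^ a e) / (c j e0 * p j ^ a e0)) U (𝓝 0) := by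
    have h3 : Tendsto (fun j => (∑ e ∈ F, c j e * p j ^ a e * t j) / (c j e0 * p j ^ a e0 * t j))
        U (𝓝 ((∑ e ∈ F, γ2 e) / γ2 e0)) :=
      (tendsto_finsetSum _ fun e he => h2 e he).div (h2 e0 he0) hne
    rw [hcon, zero_div] at h3
    refine h3.congr' ?_
    filter_upwards [ht] with j hj
    rw [← Finset.sum_mul, mul_div_mul_right _ _ hj]
  have hA : Tendsto (fun j => ∑ e ∈ F, c j e * s j ^ a e / M j * (p j / s j) ^ a e) U
      (𝓝 (∑ e ∈ F, γ1 e * zs ^ a e)) :=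
    tendsto_finsetSum _ fun e he => (h1 e he).mul (hzs.pow _)
  have hB : Tendsto (fun j => c j e0 * s j ^ a e0 / M j * (p j / s j) ^ a e0) U
      (𝓝 (γ1 e0 * zs ^ a e0)) := (h1 e0 he0).mul (hzs.pow _)
  have hAB := hq.mul hB
  rw [zero_mul] at hAB
  apply h1ne
  refine tendsto_nhds_unique (hA.congr fun j => ?_) hAB
  have e1 : ∀ e, c j e * s j ^ a e / M j * (p j / s j) ^ a e = c j e * p j ^ a e / M j := by
    intro e
    rw [div_pow]
    have := pow_ne_zero (a e) (hs j)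
    field_simp
  simp only [e1]
  rw [← Finset.sum_div]
  have h4 : c j e0 * p j ^ a e0 ≠ 0 := mul_ne_zero (hc j e0 he0) (pow_ne_zero _ (hp j))
  rw [div_mul_div_comm, mul_comm (c j e0 * p j ^ a e0) (M j), mul_div_mul_right _ _ h4]

end Pool.Agent.H664.FH
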