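import Pool.Graph.R_pool_sql_team_seeded_3997aac3.Q72.EG.All

/-!
Project FH (helper664): exponential points on varieties `V ⊆ ℂ^n × (ℂ^*)^n` of dimension `n` over a
hypersurface `P = 0` of `ℂ^n` with a flat limit `f (α·x)`, `α` real with `ℚ`-independent coordinates.
Statements (interfaces), with complete proofs in the docstrings.
-/

set_option autoImplicit false

namespace Pool.Agent.H664.FH

open MvPolynomial Filter Topology Metric Pool.Agent.W996.EC Pool.Agent.Q72.EG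

/-- the real numbers `α l` are linearly independent over `ℚ` -/
def QI {n : ℕ} (α : Fin n → ℝ) : Prop := ∀ m : Fin n → ℤ, ∑ l, (m l : ℝ) * α l = 0 → m = 0

/-- the point `i k + u + w(u) e` -/
noncomputable def cp {n : ℕ} (k e : Fin n → ℝ) (w : (Fin n → ℂ) → ℂ) (u : Fin n → ℂ) : Fin n → ℂ :=
  fun l => Complex.I * (k l : ℂ) + u l + w u * (e l : ℂ)

/-- the hypersurface `P = 0` has, arbitrarily far away, holomorphic pieces which are close to
`i k + {α·x = r}` over large balls -/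
def HasFlat {n : ℕ} (P : MvPolynomial (Fin n) ℂ) (α : Fin n → ℝ) : Prop :=
  ∃ (e : Fin n → ℝ) (B : ℝ), ∑ l, α l * e l = 1 ∧
    ∀ R : MvPolynomial (Fin n) ℂ, ¬ P ∣ R → ∃ D : ℝ, ∀ K : ℝ, ∃ T : ℝ, K ≤ T ∧ 2 ≤ T ∧
      ∃ (k : Fin n → ℝ) (r : ℂ) (w : (Fin n → ℂ) → ℂ), ‖r‖ ≤ B ∧
        DifferentiableOn ℂ w (ball 0 (K * Real.log T ^ 3)) ∧
        ∀ u ∈ ball (0 : Fin n → ℂ) (K * Real.log T ^ 3),
          eval (cp k e w u) P = 0 ∧ K * ‖w u + ∑ l, (α l : ℂ) * u l - r‖ ≤ 1 ∧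
          ‖cp k e w u‖ ≤ T ^ D ∧ T ^ (-D) ≤ ‖eval (cp k e w u) R‖

/-- the prepared form: on the ball of radius `(log T)^2` the finitely many polynomials in `S` are
nearly constant -/
def Prep {n : ℕ} (P : MvPolynomial (Fin n) ℂ) (α : Fin n → ℝ) : Prop :=
  ∃ (e : Fin n → ℝ) (B : ℝ), ∑ l, α l * e l = 1 ∧
    ∀ S : Finset (MvPolynomial (Fin n) ℂ), (∀ c ∈ S, ¬ P ∣ c) → ∃ D : ℝ, 0 ≤ D ∧
      ∀ δ : ℝ, 0 < δ → ∃ T : ℝ, δ⁻¹ ≤ T ∧ 1 ≤ Real.log T ∧
        ∃ (k : Fin n → ℝ) (r : ℂ) (w : (Fin n → ℂ) → ℂ), ‖r‖ ≤ B ∧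
          DifferentiableOn ℂ w (ball 0 (Real.log T ^ 2)) ∧
          (∀ u ∈ ball (0 : Fin n → ℂ) (Real.log T ^ 2),
            eval (cp k e w u) P = 0 ∧ ‖w u + ∑ l, (α l : ℂ) * u l - r‖ ≤ δ ∧
            ∀ c ∈ S, ‖eval (cp k e w u) c / eval (cp k e w 0) c - 1‖ ≤ δ) ∧
          ∀ c ∈ S, eval (cp k e w 0) c ≠ 0 ∧
            |Real.log ‖eval (cp k e w 0) c‖| ≤ D * Real.log T

/-- JOB PREP. Proof. Given `S`, let `R = ∏ S`; `¬ P ∣ R` as `P` is prime. Let `D₀` be the exponent of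
HasFlat for this `R`. For `c ∈ S`, `R = c c'`. On the ball of radius `ρ = K (log T)^3` we have `‖X u‖ ≤ T^D₀`
(`X u = cp k e w u`), so by a polynomial bound (`T ≥ K`, `K` large) `‖c (X u)‖, ‖c' (X u)‖ ≤ T^D₁`, and
`‖c (X u)‖ ≥ T^(-D₀) / ‖c' (X u)‖ ≥ T^(-D₀-D₁)`: `|log ‖c (X u)‖| ≤ D log T` (`D = |D₀| + |D₁|`).
By `S_log` there is a holomorphic logarithm `h` of `c (X u)` with `|Im h(0)| ≤ π`, by `S_bc`
`‖h‖ ≤ 6 D log T + 10` on the half ball, and by the Schwarz lemma (in `t ↦ h (t u)`, radius `(ρ/2) / ‖u‖`),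
`‖h u - h 0‖ ≤ 2 (6 D log T + 10) ‖u‖ / (ρ/2) ≤ C / K` for `‖u‖ ≤ (log T)^2`, where `C = 4 (6 D + 10)` if
`log T ≥ 1`. So `‖exp (h u - h 0) - 1‖ ≤ 2 C / K ≤ δ` if `K` is large. -/
def S_prep : Prop := ∀ (n : ℕ) (P : MvPolynomial (Fin n) ℂ) (α : Fin n → ℝ), Irreducible P →
  HasFlat P α → Prep P α

/-- JOB RATE. Rates of convergence to limits along imaginary translations.
Proof (adapt `Pool.Agent.Q96.EG.tame`, file Q96/EG/Tame.lean of the library, which treats dilations). The condition on `(t, k)`: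
`t > 0` and there is `c ∈ ℂ` with `‖coeff μ (c tr 1 k P) - coeff μ q‖ < t^(-(d+2))` for all exponents `μ` of degree
`≤ d` (`d` a bound for the degrees of `P` and `q`; finitely many `μ`) is semialgebraic, with the real and imaginary parts of the coefficients of `P`, `q` as
parameters; the quantifier over `c = c₁ + i c₂` is eliminated by `SAP.exists_block`. By LimOne it can be fulfilled for
every `t`; so by `S_grow` (`Pool.Agent.Q96.EG.grow`) there are `D, L` such that for all `t ≥ L` it holds with some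
`‖k‖ ≤ t^D`. Then `‖c P(x + i k) - q(x)‖ ≤ C t^(-2) ≤ t^(-1)` for `‖x‖ ≤ t` and `t` large. -/
def S_rate : Prop := ∀ (n : ℕ) (P q : MvPolynomial (Fin n) ℂ), P ≠ 0 → LimOne P q →
  ∃ D L : ℝ, ∀ t : ℝ, L ≤ t → ∃ (k : Fin n → ℝ) (c : ℂ), ‖k‖ ≤ t ^ D ∧
    ∀ x : Fin n → ℂ, ‖x‖ ≤ t →
      ‖c * eval (fun i => x i + Complex.I * (k i : ℂ)) P - eval x q‖ ≤ t⁻¹

/-- JOB CHART. A flat limit `f (α·x)` of `P` along imaginary translations gives the pieces.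
Proof (adapt `Pool.Agent.Q251.EG.region`, file Q251/EG/Region.lean of the library).  `q = f (α·x)`, `d = deg P`.
(1) By `S_rate`: `D₀, L`, and for `t ≥ L` `k, c` with `‖k‖ ≤ t^D₀`, `‖c P(x + i k) - q(x)‖ ≤ 1/t` for `‖x‖ ≤ t`.
(2) `e` real with `α·e = 1` and `top P (e) ≠ 0` (product of two nonzero polynomials, scaling); so for all `u`,
`ω ↦ P(u + ω e)` has exact degree `d ≥ 1` with constant leading coefficient.
(3) `R` given, `R₁ = ∑ e_l ∂_l P` (not zero, smaller degree, so not divisible by `P`). `S_elim` for `(P, R, e)` and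
`(P, R₁, e)` gives `ρ₀, ρ₁` (the points `u'` where `ρ₁(u') ≠ 0` have only simple roots); `ρ = ρ₀ ρ₁`.
(4) For the sequence `t_j = L + 1 + j`, `k_j`, `c_j` from (1), `λ_j = √t_j`, apply `S_norm` to `ρ`: along a subsequence
`c'_j ρ(λ_j x + i k_j) → ρ'(x) ≠ 0`, `‖c'_j‖ ≤ (2 + λ_j + ‖k_j‖)^D₁`. Choose `κ` real with `ρ'(iκ) ≠ 0`, and
`η > 0` with `|ρ'| ≥ 2 m > 0` for `‖x - iκ‖ ≤ η`. So for `j` large and `‖u‖ ≤ η λ_j`,
`u' = i (k_j + λ_j κ) + u`: `‖ρ(u')‖ ≥ t_j^(-D₂)`.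
(5) Let `f(r₀) = 0`, `0 < δ₀ ≤ 1/(K+1)` such that `f ≠ 0` on the circle `|z - r₀| = δ₀`, `|f| ≥ m₀` there. With
`x = i λ κ + u + ω e`, `α·x = iλ α·κ + α·u + ω`, `‖x‖ ≤ t`: the polynomial `ω ↦ c P(i k + x)` is within `1/t < m₀/2` of
`f(iλ α·κ + α·u + ω)`; so it has no zero with `|ω - ω*(u)| = δ₀`, `ω*(u) = r₀ - α·u - iλ α·κ`, and for `u = 0` it has a zero
with `|ω - ω*(0)| < δ₀` (minimum modulus principle).
(6) `ROOT.main` on `ball 0 (η λ)` with `F u ω = P(i(k + λκ) + u + ω e)` gives a holomorphic `ω(u)` with this value at `0`, and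
`|ω(u) - ω*(u)| < δ₀` on the ball by connectedness. Put `w(u) = ω(u) + iλ α·κ`, `k'' = k + λκ - λ (α·κ) e`:
`cp k'' e w u = i(k + λκ) + u + ω(u) e`, `|w(u) + α·u - r₀| < δ₀`. `T = t`: `K (log T)^3 ≤ η λ` for `t` large; `‖cp‖ ≤ T^D`;
`‖R(cp)‖ ≥ ‖ρ₀(u')‖ / ‖β₀(ω, u')‖ ≥ T^(-D)`. `B = ‖r₀‖`. -/
def S_chart : Prop := ∀ (n : ℕ) (P : MvPolynomial (Fin n) ℂ) (α : Fin n → ℝ) (f : Polynomial ℂ),
  Irreducible P → α ≠ 0 → 1 ≤ f.natDegree →
  (∃ D L : ℝ, ∀ t : ℝ, L ≤ t → ∃ (k : Fin n → ℝ) (c : ℂ), ‖k‖ ≤ t ^ D ∧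
    ∀ x : Fin n → ℂ, ‖x‖ ≤ t →
      ‖c * eval (fun i => x i + Complex.I * (k i : ℂ)) P - f.eval (∑ l, (α l : ℂ) * x l)‖ ≤ t⁻¹) →
  HasFlat P α

/-- JOB COER. Proof. Let `v l = log ‖p l‖`, `β = log B ≥ 0`. For `i ≠ l` the sum
`∑_{e ∈ F i l} c e p_i^e.1 p_l^e.2 = 0` has two different terms of comparable size (the largest term is at most the sum of the
others in absolute value, so another one is at least `1/#F` times it), so there are `e ≠ e'` in `F i l` with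
`|(e.1 - e'.1) v_i + (e.2 - e'.2) v_l| ≤ 2 β + log #F`. Let `i` be the index where `|v_i|` is maximal. If for some `l ≠ i` the
`e.2 = e'.2`, then `e.1 ≠ e'.1` and `|v_i| ≤ 2 β + log #F`. Otherwise `v_l = - (e.1 - e'.1)/(e.2 - e'.2) v_i + O(β + 1)` for
all `l ≠ i`, so `∑ α_l v_l = v_i (α_i - ∑_{l ≠ i} α_l (e.1 - e'.1)/(e.2 - e'.2)) + O(β + 1)`, where the factor is one of
finitely many nonzero real numbers (by `QI α`). -/
def S_coer : Prop := ∀ (n : ℕ) (α : Fin n → ℝ) (F : Fin n → Fin n → Finset (ℕ × ℕ)), QI α →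
  (∀ i l, (F i l).Nonempty) → ∃ C : ℝ, 0 ≤ C ∧ ∀ (B : ℝ) (c : Fin n → Fin n → ℕ × ℕ → ℂ)
    (p : Fin n → ℂ), 1 ≤ B → (∀ l, p l ≠ 0) →
    (∀ i l, ∀ e ∈ F i l, B⁻¹ ≤ ‖c i l e‖ ∧ ‖c i l e‖ ≤ B) →
    (∀ i l, i ≠ l → ∑ e ∈ F i l, c i l e * p i ^ e.1 * p l ^ e.2 = 0) →
    ∀ l, |Real.log ‖p l‖| ≤ C * (1 + Real.log B + |∑ l, α l * Real.log ‖p l‖|)

/-- JOB CURVE. Germs of curves in the torus: a linear form with `ℚ`-independent coefficients of the logarithms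
is not constant, and takes all values on the curve.
Proof (uses the library: `W597.EC.Plane` (`S_plane`), `W114.ECR.t_cov`, `t_res`, `W114.ECC.t_conn`, `W973.EC.t_loc`,
`W337.EC.t_pos`, see `W996.EC.Final`; and the lemmas of `W973/EC/Loc.lean`: `uu`, `LC`, `lc_iff`, `lc_locally`, `unbounded`,
`const_of_re`; from `W333/ECV/A.lean`: `exists_field`).
The polynomials `Q` with `Q(g z) = 0` on the ball are a prime ideal `I` (identity theorem); let `L` be a field with elements `y_l`,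
generic for `I` (`exists_field`). By hypothesis all pairs `y_i, y_l` are algebraically dependent, some `y_i` is transcendental
(`g_i` is not constant). `S_plane`: `F, z0, v0`, and `y_l B_l(z0,v0) = A_l(z0,v0)`, `F ∤ A_l, B_l`; also (`z0, v0 ∈ ℂ(y)`) `z0 = N_1(y)/N_0(y)`,
`v0 = N_2(y)/N_0(y)` with polynomials `N_j`, `N_0(y) ≠ 0`. By `t_res` (resultants) and `S_cov` choose `h` with `Cov F h` such
that on `T = TT F h` all `A_l, B_l`, and (numerators of) `N_0(A/B)`, `Q_0(A/B)` have no zeros; `R_l = A_l / B_l` on `T`. So `R(t)` satisfies for all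
`t ∈ T` all polynomial relations `Q ∈ I` (they are divisible by `F` after substitution, `T ⊆ {F = 0}`).
Unboundedness: `u = ∑ α_l log ‖R_l‖` is unbounded above and below on `T`: choose `J ⊆ Fin n` maximal such that `(R_l)_{l ∈ J}`
is `Indep` (multiplicatively independent modulo constants); `J` is not empty (some `R_i` is not constant on `T`; a power of `R_i` which is constant
on the connected set `T` would make `R_i` constant). For `l ∉ J` some `R_l^{k_l} ∏_J R_j^{m_{lj}}` is constant, `k_l ≠ 0`, so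
`u = ∑_J (α_j - ∑_{l ∉ J} α_l m_{lj} / k_l) log ‖R_j‖ + const`, and all coefficients are nonzero by `QI α`; by `S_pos` and
`unbounded` it is unbounded above, and (with `-α`) below.
Second assertion: `T` is connected (`t_conn`) and `u` continuous, so `u` takes the value `c` at some `t ∈ T`; `p = R(t)`.
First assertion: as in the proof of `t_arc`, `u` is not locally constant (`LC`) at any point of `T` (`lc_locally`, connectedness, unboundedness).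
Suppose `∑ α_l log ‖g_l‖` is constant on the ball. For `z` in a smaller ball around some point `z1`, `N_0(g z) ≠ 0` and
`t(z) = (N_1/N_0, N_2/N_0)(g z)` is a point of `T` (`F(t(z)) = 0`, `h((t z).1) ≠ 0` after shrinking as `z0` is transcendental),
`R(t(z)) = g z`. The function `N_1/N_0 (g z)` is not constant, so it is an open map; by `S_loc` the points of `T` near `t(z1)` are on a graph
`v = φ(z')`, so they are of the form `t(z)`, `z` near `z1`; so `u` is locally constant at `t(z1)`. Contradiction. -/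
def S_curve : Prop := ∀ (n : ℕ) (α : Fin n → ℝ) (z0 : ℂ) (r : ℝ) (g : ℂ → Fin n → ℂ), QI α → 0 < r →
  DifferentiableOn ℂ g (ball z0 r) → (∀ z ∈ ball z0 r, ∀ l, g z l ≠ 0) →
  (∃ i, ∃ z ∈ ball z0 r, g z i ≠ g z0 i) →
  (∀ i l, ∃ f : MvPolynomial (Fin 2) ℂ, f ≠ 0 ∧ ∀ z ∈ ball z0 r, eval ![g z i, g z l] f = 0) →
  (¬ ∃ c : ℝ, ∀ z ∈ ball z0 r, ∑ l, α l * Real.log ‖g z l‖ = c) ∧
  ∀ Q₀ : MvPolynomial (Fin n) ℂ, (∃ z ∈ ball z0 r, eval (g z) Q₀ ≠ 0) → ∀ c : ℝ, ∃ p : Fin n → ℂ,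
    (∀ Q : MvPolynomial (Fin n) ℂ, (∀ z ∈ ball z0 r, eval (g z) Q = 0) → eval p Q = 0) ∧
    (∀ l, p l ≠ 0) ∧ eval p Q₀ ≠ 0 ∧ ∑ l, α l * Real.log ‖p l‖ = c

/-- JOB EXIT. The level sets of `∑ α_l log ‖p_l‖` leave small neighbourhoods.
Proof. (a) Limit points. For `a` a root of `b` and `l`, take `f ≠ 0` with `f(p_i, p_l) = 0` on `G`, and divide it by the largest
power of `Y_1 - a`: `f = (Y_1 - a)^ν f'`, `f'(a, ·) ≠ 0`. For `p ∈ G` with `b(p_i) ≠ 0` (so `p_i ≠ a`) `f'(p_i, p_l) = 0`. So a limit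
`p*` of such points with `p*_i = a` satisfies `f'(a, p*_l) = 0`: finitely many values. Let `Lev` be the (finite) set of
the numbers `∑ α_l log ‖q_l‖`, `q_i` a root of `b` and `q_l` one of these values.
(b) Let `s` be given, `c` its level, and `W = {p : ‖p_l/s_l - 1‖ ≤ ρ ∀ l}`, compact, without zero coordinates. Suppose no good
`p` (i.e. `p ∈ G`, `b(p_i) ≠ 0`) of level `c` in `W` has `‖p_l/s_l - 1‖ = ρ` for some `l`. Let `Φ(p) = ∑ α_l Log(p_l/s_l)` on `W` (principal logarithms,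
`ρ < 1/2`), so `Re Φ(p)` = level of `p` minus `c`, and `A` = the set of `t ≥ 0` such that there is a good `p ∈ W` with `Φ(p) = i t`; `0 ∈ A`, and
`A` is bounded. Let `t* = sup A`, `p_m ∈ W` good, `Φ(p_m) = i t_m`, `t_m → t*`, and (compactness) `p_m → p* ∈ W`. `p* ∈ G`, its level is
`c ∉ Lev`, so `b(p*_i) ≠ 0`: `p*` is good, hence `‖p*_l/s_l - 1‖ < ρ` for all `l`. Take `g` on `ball (p*_i) r` with `g(p*_i) = p*`; by
`S_curve` (pairs of coordinates satisfy relations; `g_i(z) = z` is not constant) `Re Φ(g z)` is not constant near `p*_i`, so `z ↦ Φ(g z)` is an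
open map at `p*_i` and takes the value `i (t* + τ)` for all small `τ > 0`, at points close to `p*`, which are in `W` and good. Contradiction to
the definition of `t*`. -/
def S_exit : Prop := ∀ (n : ℕ) (α : Fin n → ℝ) (i : Fin n) (G : Set (Fin n → ℂ)) (b : Polynomial ℂ),
  QI α → IsClosed G → b ≠ 0 →
  (∀ k l, ∃ f : MvPolynomial (Fin 2) ℂ, f ≠ 0 ∧ ∀ p ∈ G, eval ![p k, p l] f = 0) →
  (∀ p ∈ G, b.eval (p i) ≠ 0 → (∀ l, p l ≠ 0) ∧ ∃ (r : ℝ) (g : ℂ → Fin n → ℂ), 0 < r ∧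
    DifferentiableOn ℂ g (ball (p i) r) ∧ g (p i) = p ∧
    ∀ z ∈ ball (p i) r, g z ∈ G ∧ g z i = z ∧ b.eval z ≠ 0) →
  ∃ Lev : Set ℝ, Lev.Finite ∧ ∀ s ∈ G, b.eval (s i) ≠ 0 →
    ∑ l, α l * Real.log ‖s l‖ ∉ Lev → ∀ ρ : ℝ, 0 < ρ → ρ < 1 / 2 →
    ∃ p ∈ G, b.eval (p i) ≠ 0 ∧ ∑ l, α l * Real.log ‖p l‖ = ∑ l, α l * Real.log ‖s l‖ ∧
      (∀ l, ‖p l / s l - 1‖ ≤ ρ) ∧ ∃ l, ‖p l / s l - 1‖ = ρ

/-- JOB FSOLVE. Solving the equations near a flat piece.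
Proof. Let `Φ_j(u, z) = ∑ α_l L_j(u, z)_l`, `Φ(z) = ∑ α_l Li(z)_l`. The functions `L_j(0, ·)` are uniformly bounded on
`ball zs ε` and converge pointwise along `F`, so by the Cauchy estimates (equicontinuity) locally uniformly, and `Li` is holomorphic.
By the Schwarz lemma `‖L_j(u, z) - L_j(0, z)‖ ≤ 2 C0 ‖u‖ / Λ_j`. As `Φ` is not constant and `Re Φ(zs) = 0`, by the open mapping theorem there
are infinitely many points `z` near `zs` with `Re Φ(z) = 0` (values `Φ(zs) + i t`), so one of them, `z₀`, has `Φ'(z₀) ≠ 0`.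
Let `Q v = v - (α·v) e` for `v ∈ ℂ^n` (so `α·(Q v) = 0`), `C₁` a bound (see below) for `m`, `B₀` a bound for `‖Q(L + i m)‖` and `ρ = 8 B₀ + 9`.
Choose `ε₁ > 0` so small that `closedBall z₀ ε₁ ⊆ ball zs ε` and `‖Φ(z) - Φ(z₀) - Φ'(z₀)(z - z₀)‖ ≤ ‖Φ'(z₀)‖ ε₁ / 20` on it. Kronecker: there is `C₁` such that for
all real vectors `k` and all `|θ| ≤ C0 + ‖Φ(z₀)‖` there is an integral vector `M` such that `m = 2π M - k` satisfies `‖m‖ ≤ C₁` and
`|α·m - θ| ≤ ‖Φ'(z₀)‖ ε₁ / 40` (`n ≥ 2` and `QI α`: the group `α·ℤ^n` is dense (`dense_addSubgroupClosure_pair_iff`: `α_0/α_1` is irrational); first round `k/2π` to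
an integral vector, then use a finite net of a bounded interval).
Apply this with `k = k_j`, `θ = Im(β_j) - Im Φ(z₀)`, `β_j = r_j - α·σ_j`. Put `u_j = Q σ_j`, and on the ball of radius `ρ` around `0` in
`ℂ^n × ℂ` (see the proof of `Pool.Agent.Q252.EG.fix`, which works for any complete normed space) consider, with `u = u_j + ξ`,
`z = z₀ + (ε₁/ρ) ω`, the map `h(ξ, ω) = (Q(L_j(u, z) + i m), ω - (ρ/ε₁) (Φ_j(u, z) + i α·m - β_j - (w_j(u) + α·u - r_j)) / Φ'(z₀))`.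
For `j` large (along `F`) it is bounded by `B₀ + 1 < ρ/8` (note `Re β_j → 0 = Re Φ(z₀)`), so it has a fixed point. There `α·u = 0`,
`ξ = Q(L_j + i m)`, `Φ_j + i α·m = w_j(u) - α·σ_j`, so `i k + u + w_j(u) e = i k + Q(σ_j + L_j + i m) + (α·(σ_j + L_j + i m)) e = σ_j + L_j + i (k + m)`. -/
def S_fsolve : Prop := ∀ (n : ℕ) (α e : Fin n → ℝ) (F : Filter ℕ) (zs : ℂ) (ε C0 : ℝ)
  (Λ A δ : ℕ → ℝ) (k : ℕ → Fin n → ℝ) (r : ℕ → ℂ) (w : ℕ → (Fin n → ℂ) → ℂ) (σ : ℕ → Fin n → ℂ)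
  (L : ℕ → (Fin n → ℂ) → ℂ → Fin n → ℂ) (Li : ℂ → Fin n → ℂ), F.NeBot → 2 ≤ n → QI α →
  ∑ l, α l * e l = 1 → 0 < ε → Tendsto Λ F atTop → Tendsto (fun j => A j / Λ j) F (𝓝 0) →
  Tendsto δ F (𝓝 0) →
  (∀ᶠ j in F, DifferentiableOn ℂ (w j) (ball 0 (Λ j)) ∧
    (∀ u ∈ ball (0 : Fin n → ℂ) (Λ j), ‖w j u + ∑ l, (α l : ℂ) * u l - r j‖ ≤ δ j) ∧
    ‖σ j‖ ≤ A j ∧ |(r j - ∑ l, (α l : ℂ) * σ j l).re| ≤ δ j ∧
    |(r j - ∑ l, (α l : ℂ) * σ j l).im| ≤ C0 ∧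
    DifferentiableOn ℂ (fun v : (Fin n → ℂ) × ℂ => L j v.1 v.2) (ball 0 (Λ j) ×ˢ ball zs ε) ∧
    ∀ u ∈ ball (0 : Fin n → ℂ) (Λ j), ∀ z ∈ ball zs ε, ‖L j u z‖ ≤ C0) →
  (∀ z ∈ ball zs ε, Tendsto (fun j => L j 0 z) F (𝓝 (Li z))) →
  ∑ l, α l * (Li zs l).re = 0 →
  (¬ ∀ z ∈ ball zs ε, ∑ l, (α l : ℂ) * Li z l = ∑ l, (α l : ℂ) * Li zs l) →
  ∀ᶠ j in F, ∃ (M : Fin n → ℤ) (u : Fin n → ℂ) (z : ℂ), u ∈ ball (0 : Fin n → ℂ) (Λ j) ∧
    z ∈ ball zs ε ∧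
    ∀ l, cp (k j) e (w j) u l = σ j l + L j u z l + 2 * Real.pi * Complex.I * (M l : ℂ)

/-- the generic point of a variety over the hypersurface `P = 0` with generic fibre a curve -/
structure Cv (n : ℕ) (E : Type) [Field E] [Algebra ℂ E] where
  P : MvPolynomial (Fin n) ℂ
  hP : Irreducible P
  x : Fin n → E
  y : Fin n → E
  hx : ∀ g : MvPolynomial (Fin n) ℂ, aeval x g = 0 ↔ P ∣ g
  hy : ∀ l, y l ≠ 0
  tr1 : Tr1 x

/-- `y_i` is transcendental over `ℂ(x)` -/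
def Cv.T {n : ℕ} {E : Type} [Field E] [Algebra ℂ E] (G : Cv n E) (i : Fin n) : Prop :=
  Transcendental (IntermediateField.adjoin ℂ (Set.range G.x)) (G.y i)

/-- `H` is good for `y_i`: over `{P = 0, H ≠ 0}` the variety is an unramified covering with respect to `(x, y_i)`, and
`y_l ≠ 0`, `H0 ≠ 0` there; `H ≠ 0` generically -/
structure Good {n : ℕ} {E : Type} [Field E] [Algebra ℂ E] (G : Cv n E)
    (H0 : MvPolynomial (Fin n ⊕ Fin n) ℂ) (i : Fin n) (H : MvPolynomial (Option (Fin n)) ℂ) :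
    Prop where
  gen : aeval (oe (G.y i) G.x) H ≠ 0
  ne : ∀ x p : Fin n → ℂ, Sum.elim x p ∈ Pt (Sum.elim G.x G.y) → eval (oe (p i) x) H ≠ 0 →
    (∀ l, p l ≠ 0) ∧ eval (Sum.elim x p) H0 ≠ 0
  ex : ∀ (x : Fin n → ℂ) (z : ℂ), eval x G.P = 0 → eval (oe z x) H ≠ 0 →
    ∃ p : Fin n → ℂ, Sum.elim x p ∈ Pt (Sum.elim G.x G.y) ∧ p i = z
  sheet : ∀ (W : Type) [NormedAddCommGroup W] [NormedSpace ℂ W] [FiniteDimensional ℂ W]
    (U : Set W) (X : W → Fin n → ℂ) (Y : W → ℂ), IsOpen U → Convex ℝ U →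
    DifferentiableOn ℂ X U → DifferentiableOn ℂ Y U →
    (∀ u ∈ U, eval (X u) G.P = 0 ∧ eval (oe (Y u) (X u)) H ≠ 0) →
    ∀ u0 ∈ U, ∀ p0 : Fin n → ℂ, Sum.elim (X u0) p0 ∈ Pt (Sum.elim G.x G.y) → p0 i = Y u0 →
    ∃ p : W → Fin n → ℂ, DifferentiableOn ℂ p U ∧ p u0 = p0 ∧
      ∀ u ∈ U, Sum.elim (X u) (p u) ∈ Pt (Sum.elim G.x G.y) ∧ p u i = Y u

/-- JOB GOOD. Proof. `ζ = oe (y_i) x`; all `y_l` are algebraic over `ℂ(ζ)` by Tr1. (0) As `y_i` is transcendental over `ℂ(x)`,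
a relation `A(ζ) = 0` has all coefficients `cf A j` divisible by `P` (`aeval_oe_sum`); so `eval x P = 0` implies `oe z x ∈ Pt ζ` (as `pt_zeta`), and `aeval ζ H ≠ 0`
implies that some `cf H j` is not divisible by `P`.
(1) `S_alg` (`Pool.Agent.Q166.EG.alg`) for `ζ` and `f = y` (κ = Fin n): `Θ, H1, g`. The sheets: as in the proof of `cont` (Q239/EG/CONT.lean), with `ROOT.main` on the
convex open set `U` (any finite dimensional space), `t u = oe (Y u) (X u) ∈ Pt ζ`; the root over `u0` from the third assertion of S_alg for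
`Sum.elim (t u0) p0 ∈ Pt (Sum.elim ζ y)` (a relation between `ζ, y` is a relation between `x, y`, by renaming variables). The point `p u l = g_l(Z u)/H1`.
`p u i = Y u` as `y_i - Y = 0` is a relation between `ζ, y`.
(2) Existence: `Θ(t)` has positive degree at every `t ∈ Pt ζ` with `H1(t) ≠ 0`, because `natDegree Θ ≥ 1`: otherwise by the third assertion there would be no
point of `Pt (Sum.elim ζ y)` with `H1 ≠ 0`, but there is one by the Nullstellensatz (`vanishingIdeal_zeroLocus_eq_radical`, or `nullst` of W333/ECV/A.lean).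
(3) Nonvanishing. For `g0 = H0 ∏ X (inr l)`, `γ = aeval (x, y) g0 ≠ 0` is algebraic over `ℂ(ζ)`; `alg_poly` (Q206/EG/AlgPoly.lean) gives `A`, not all coefficients vanish at `ζ`,
`A(γ) = 0`. Let `b` be the least index with `aeval ζ (A.coeff b) ≠ 0`: `∑_{m ≥ b} A_m(ζ) γ^(m-b) = 0` is a relation between `x, y`, so it holds at `(x°, p)`; if
`g0(x°, p) = 0` then `A_b(oe (p i) x°) = 0`. So `H = H1 * A_b` works. (If `H0(x,y) = 0` in `E` nothing is claimed: hypothesis.) -/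
def S_good : Prop := ∀ (n : ℕ) (E : Type) [Field E] [Algebra ℂ E] (G : Cv n E)
  (H0 : MvPolynomial (Fin n ⊕ Fin n) ℂ) (i : Fin n), aeval (Sum.elim G.x G.y) H0 ≠ 0 → G.T i →
  ∃ H, Good G H0 i H

/-- JOB REL. Relations between two of the functions `y`, and for an algebraic `y_i`.
Proof. If `y_i` is algebraic over `ℂ(x)`: clear denominators (`alg_poly` of Q206/EG/AlgPoly.lean with `ζ = x`): `∑_a A_a(x) y_i^a = 0`, not all `P ∣ A_a`;
`F = {(a, 0) : ¬ P ∣ A_a}`. If `y_i` is transcendental over `ℂ(x)`, `y_l` is algebraic over `ℂ(x, y_i)` by Tr1, `alg_poly` with `ζ = oe (y_i) x` gives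
`∑_{a,b} cf (A.coeff b) a (x) y_i^a y_l^b = 0`, and not all `cf` are divisible by `P`. The terms divisible by `P` vanish identically and are left out. A relation between `x, y` holds at
the points of `Pt`. -/
def S_rel : Prop := ∀ (n : ℕ) (E : Type) [Field E] [Algebra ℂ E] (G : Cv n E) (i l : Fin n),
  ∃ (F : Finset (ℕ × ℕ)) (c : ℕ × ℕ → MvPolynomial (Fin n) ℂ), F.Nonempty ∧
    (∀ e ∈ F, ¬ G.P ∣ c e) ∧ (¬ G.T i → ∀ e ∈ F, e.2 = 0) ∧
    ∀ x p : Fin n → ℂ, Sum.elim x p ∈ Pt (Sum.elim G.x G.y) →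
      ∑ e ∈ F, eval x (c e) * p i ^ e.1 * p l ^ e.2 = 0

/-- JOB ASM. The core theorem, from all the others. -/
def S_core' : Prop := ∀ (n : ℕ) (E : Type) [Field E] [Algebra ℂ E] (G : Cv n E)
  (H : MvPolynomial (Fin n ⊕ Fin n) ℂ) (α : Fin n → ℝ), 2 ≤ n → QI α →
  (∃ i, G.T i) → aeval (Sum.elim G.x G.y) H ≠ 0 → Prep G.P α →
  ∃ z : Fin n → ℂ, Sum.elim z (fun l => Complex.exp (z l)) ∈ Pt (Sum.elim G.x G.y) ∧
    eval (Sum.elim z (fun l => Complex.exp (z l))) H ≠ 0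

end Pool.Agent.H664.FH
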