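import Pool.Agent.H664.FH.FinalB
import Pool.Agent.H390.FH.NoExp
import Pool.Agent.H293.FH.Zero
import Pool.Agent.H183.FH.Doubl
import Pool.Agent.H410.FH.CoreR

/-! Project FH (helper664), second part: varieties. -/

set_option autoImplicit false

namespace Pool.Agent.H664.FH

open MvPolynomial Filter Topology Metric Pool.Agent.W996.EC Pool.Agent.Q72.EG Pool.Agent.Y563.SE

theorem coreR_all : S_coreR :=
  Pool.Agent.H410.FH.coreR Pool.Agent.H935.FH.good Pool.Agent.H287.FH.rel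
    (Pool.Agent.H293.FH.zero Pool.Agent.H390.FH.noexp) Pool.Agent.H183.FH.doubl

/-- additive freeness for the hypersurface `P = 0` -/
def AddFree {n : ℕ} (P : MvPolynomial (Fin n) ℂ) : Prop :=
  ∀ m : Fin n → ℤ, m ≠ 0 → ∀ c : ℂ, ¬ P ∣ (∑ j, C ((m j : ℤ) : ℂ) * X j) - C c

/-- the real span of the exponents of algebraic monomials -/
def AlgSpan {n : ℕ} (V : Set (Fin n ⊕ Fin n → ℂ)) (P : MvPolynomial (Fin n) ℂ) :
    Submodule ℝ (Fin n → ℝ) :=
  Submodule.span ℝ {v : Fin n → ℝ | ∃ m : Fin n → ℤ, MonAlg V P m ∧ v = fun j => (m j : ℝ)}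

theorem dense2 (n : ℕ) (I : Ideal (MvPolynomial (Fin n ⊕ Fin n) ℂ))
    (V : Set (Fin n ⊕ Fin n → ℂ)) (P : MvPolynomial (Fin n) ℂ) (hV : IsVar I V)
    (hdim : HasDimV V n) (hP : ProjEq V P) (hadd : AddFree P) (l : Fin n → ℝ)
    (f : Polynomial ℂ) (hf : 1 ≤ f.natDegree) (hlim : LimOne P (Polynomial.aeval (lin l) f))
    (hl : l ∉ AlgSpan V P) : DenseExp V := by
  obtain ⟨E, iE, aE, x, y, hxy, hpt, hx, hy, htr, -, hmon⟩ :=
    Pool.Agent.Q98.EG.fld n I V P hV hdim hP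
  rintro H ⟨p, hp, hpH⟩
  obtain ⟨z, hz1, hz2⟩ := coreB coreR_all (⟨P, hP.1, x, y, hx, hy, htr⟩ : Cv n E) H l f
    (fun h => hpH ((hxy H).mp h p hp)) hf hlim hadd (by
      intro h
      apply hl
      refine Submodule.span_mono ?_ h
      rintro v ⟨m, hm, rfl⟩
      refine ⟨m, ?_, rfl⟩
      by_contra hcon
      exact hm (hmon m hcon))
  exact ⟨z, (hpt _).mpr ⟨hz1, fun j => Complex.exp_ne_zero _⟩, hz2⟩

theorem algSpan_bot {n : ℕ} {V : Set (Fin n ⊕ Fin n → ℂ)} {P : MvPolynomial (Fin n) ℂ}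
    (hm : ∀ m : Fin n → ℤ, m ≠ 0 → ¬ MonAlg V P m) : AlgSpan V P ≤ ⊥ := by
  unfold AlgSpan
  rw [Submodule.span_le]
  rintro v ⟨m, hm', rfl⟩
  have : m = 0 := by
    by_contra h
    exact hm m h hm'
  rw [this]
  simp
  rfl

theorem dense1 (n : ℕ) (I : Ideal (MvPolynomial (Fin n ⊕ Fin n) ℂ))
    (V : Set (Fin n ⊕ Fin n → ℂ)) (P : MvPolynomial (Fin n) ℂ) (hV : IsVar I V)
    (hdim : HasDimV V n) (hP : ProjEq V P) (hadd : AddFree P)
    (hm : ∀ m : Fin n → ℤ, m ≠ 0 → ¬ MonAlg V P m) : DenseExp V := by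
  obtain ⟨-, -, h3⟩ := all_VV n I V P hV hdim hP
  by_cases hfl : ∃ (l : Fin n → ℝ) (f : Polynomial ℂ), l ≠ 0 ∧ 1 ≤ f.natDegree ∧
      LimOne P (Polynomial.aeval (lin l) f)
  · obtain ⟨l, f, hl0, hf, hlim⟩ := hfl
    refine dense2 n I V P hV hdim hP hadd l f hf hlim fun h => hl0 ?_
    have := algSpan_bot hm h
    rwa [Submodule.mem_bot] at this
  · exact h3 hm hfl

theorem addFree_sh {n : ℕ} {P : MvPolynomial (Fin n) ℂ} (h : AddFree P) (c : Fin n → ℂ) :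
    AddFree (sh c P) := by
  intro m hm d hdvd
  refine h m hm (d - ∑ j, (m j : ℂ) * c j) ?_
  rw [← sh_dvd (c := c)]
  refine hdvd.trans (Eq.dvd ?_)
  apply MvPolynomial.funext
  intro x
  rw [Pool.Agent.Q72.EG.eval_sh]
  simp only [map_sub, map_sum, map_mul, eval_C, eval_X]
  have : ∑ j, (m j : ℂ) * (x j - c j) = ∑ j, (m j : ℂ) * x j - ∑ j, (m j : ℂ) * c j := by
    rw [← Finset.sum_sub_distrib]
    exact Finset.sum_congr rfl fun j _ => by ring
  rw [this]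
  ring

/-- the theorem for all translates -/
theorem denseB (n : ℕ) (I : Ideal (MvPolynomial (Fin n ⊕ Fin n) ℂ))
    (V : Set (Fin n ⊕ Fin n → ℂ)) (P : MvPolynomial (Fin n) ℂ) (hV : IsVar I V)
    (hdim : HasDimV V n) (hP : ProjEq V P) (hadd : AddFree P)
    (hcase : (∀ m : Fin n → ℤ, m ≠ 0 → ¬ MonAlg V P m) ∨
      ∃ (l : Fin n → ℝ) (f : Polynomial ℂ), 1 ≤ f.natDegree ∧
        LimOne P (Polynomial.aeval (lin l) f) ∧ l ∉ AlgSpan V P)
    (c : Fin n ⊕ Fin n → ℂ) (hc : ∀ i, c (Sum.inr i) ≠ 0) : DenseExp (Trs c V) := by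
  have hV' := isVar_trs hc hV
  have hd' := hasDim_trs hc hdim
  have hP' := projEq_trs c hP
  have hadd' := addFree_sh hadd (fun i => c (Sum.inl i))
  rcases hcase with hm | ⟨l, f, hf, hlim, hl⟩
  · exact dense1 n _ _ _ hV' hd' hP' hadd' fun m hm0 h' => hm m hm0 (monAlg_trs hc h')
  · have hl0 : l ≠ 0 := fun h => hl (h ▸ Submodule.zero_mem _)
    have h1 : LimOne (sh (fun i => -c (Sum.inl i)) (sh (fun i => c (Sum.inl i)) P))
        (Polynomial.aeval (lin l) f) := by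
      rw [sh_sh]
      exact hlim
    obtain ⟨f', hf', hlim'⟩ := limOne_sh hf hl0 h1
    refine dense2 n _ _ _ hV' hd' hP' hadd' l f' hf' hlim' fun h => hl ?_
    refine Submodule.span_mono ?_ h
    rintro v ⟨m, hm, rfl⟩
    exact ⟨m, monAlg_trs hc hm, rfl⟩

end Pool.Agent.H664.FH
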